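import Mathlib

/-!
# Integral structures of vanishing ideals
-/

set_option linter.unusedSectionVars false

namespace Pool.Agent.Helper88.MT

open Module

section

variable {σ : Type*} {R F : Type*} [CommRing R] [Field F] [CharZero F] [Algebra R F]

/-- Linear independence of rational functions over a larger field. -/
lemma eq_zero_of_sum_rat {X J : Type*} [Fintype J] {φ : J → X → ℚ}
    (hφ : ∀ c : J → ℚ, (∀ p, ∑ j, c j * φ j p = 0) → c = 0) {α : J → F}
    (hα : ∀ p, ∑ j, α j * ((φ j p : ℚ) : F) = 0) : α = 0 := by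
  let b := Basis.ofVectorSpace ℚ F
  ext i
  rw [Pi.zero_apply]
  apply b.repr.injective
  ext l
  rw [map_zero, Finsupp.zero_apply]
  have h1 := hφ (fun j ↦ b.repr (α j) l) (fun p ↦ by
    have h2 := congrArg (fun z ↦ b.repr z l) (hα p)
    simp only [map_sum, Finsupp.finsetSum_apply, map_zero, Finsupp.zero_apply] at h2
    rw [← h2]
    refine Finset.sum_congr rfl fun j _ ↦ ?_
    have h3 : α j * ((φ j p : ℚ) : F) = (φ j p) • α j := by
      rw [Rat.smul_def, mul_comm]
    rw [h3, map_smul, Finsupp.smul_apply, smul_eq_mul, mul_comm])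
  exact congrFun h1 i

/-- The vanishing ideal over `ℤ` of a set of rational points generates the vanishing ideal over
any torsion-free extension. -/
lemma map_vanishing_eq (hRF : Function.Injective (algebraMap R F)) (PT : Set (σ → ℚ))
    {f : MvPolynomial σ R}
    (hf : ∀ p ∈ PT, MvPolynomial.aeval (fun i ↦ ((p i : ℚ) : F)) f = 0)
    {I : Ideal (MvPolynomial σ ℤ)}
    (hI : ∀ q : MvPolynomial σ ℤ, (∀ p ∈ PT, MvPolynomial.aeval p q = 0) → q ∈ I) :
    f ∈ I.map (MvPolynomial.map (Int.castRingHom R)) := by
  classical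
  -- the finite free module of functions
  let ev : (f.support → ℤ) →ₗ[ℤ] (PT → ℚ) :=
    { toFun := fun c p ↦ MvPolynomial.aeval (R := ℤ) p.1
        (∑ m : f.support, MvPolynomial.monomial m.1 (c m))
      map_add' := by
        intro c d
        ext p
        simp only [Pi.add_apply, map_add, Finset.sum_add_distrib]
      map_smul' := by
        intro a c
        ext p
        simp only [Pi.smul_apply, map_smul, ← Finset.smul_sum, RingHom.id_apply] }
  have hev : ∀ c p, ev c p = MvPolynomial.aeval (R := ℤ) p.1
        (∑ m : f.support, MvPolynomial.monomial m.1 (c m)) := fun c p ↦ rfl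
  let M := LinearMap.range ev
  have hfin : Module.Finite ℤ M := inferInstance
  have htf : Module.IsTorsionFree ℤ M := inferInstance
  have hfree : Module.Free ℤ M := inferInstance
  let b := Module.finBasis ℤ M
  have hq : ∀ i, ∃ c : f.support → ℤ, ev c = (b i : PT → ℚ) := fun i ↦ (b i).2
  choose q hq using hq
  -- coordinates of the monomials
  let a : f.support → Fin (finrank ℤ M) → ℤ := fun m i ↦
    b.repr ⟨ev (Pi.single m 1), LinearMap.mem_range_self _ _⟩ i
  have ha : ∀ m, ev (Pi.single m 1 - ∑ i, a m i • q i) = 0 := by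
    intro m
    have h1 := b.sum_repr ⟨ev (Pi.single m 1), LinearMap.mem_range_self _ _⟩
    have h2 := congrArg (Submodule.subtype M) h1
    rw [map_sum] at h2
    simp only [map_smul, Submodule.subtype_apply] at h2
    rw [map_sub, map_sum, ← h2, sub_eq_zero]
    refine Finset.sum_congr rfl fun i _ ↦ ?_
    rw [map_smul, hq]
  let pol : (f.support → ℤ) → MvPolynomial σ ℤ := fun c ↦
    ∑ m : f.support, MvPolynomial.monomial m.1 (c m)
  have hpolI : ∀ m, pol (Pi.single m 1 - ∑ i, a m i • q i) ∈ I := by
    intro m
    apply hI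
    intro p hp
    exact congrFun (ha m) ⟨p, hp⟩
  let polR : (f.support → R) →ₗ[R] MvPolynomial σ R :=
    { toFun := fun c ↦ ∑ m : f.support, MvPolynomial.monomial m.1 (c m)
      map_add' := by
        intro c d
        simp only [Pi.add_apply, map_add, Finset.sum_add_distrib]
      map_smul' := by
        intro a c
        simp only [Pi.smul_apply, Finset.smul_sum, RingHom.id_apply, MvPolynomial.smul_monomial] }
  have hpolR : ∀ c : f.support → ℤ, MvPolynomial.map (Int.castRingHom R) (pol c) =
      polR (fun m ↦ (c m : R)) := by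
    intro c
    change MvPolynomial.map (Int.castRingHom R) (∑ m : f.support, MvPolynomial.monomial m.1 (c m))
      = ∑ m : f.support, MvPolynomial.monomial m.1 ((c m : R))
    rw [map_sum]
    refine Finset.sum_congr rfl fun m _ ↦ ?_
    rw [MvPolynomial.map_monomial]
    rfl
  have hfpol : f = polR (fun m ↦ f.coeff m.1) := by
    change f = ∑ m : f.support, MvPolynomial.monomial m.1 (f.coeff m.1)
    conv_lhs => rw [f.as_sum]
    exact (Finset.sum_coe_sort f.support fun m ↦ MvPolynomial.monomial m (f.coeff m)).symm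
  -- decomposition
  let α : Fin (finrank ℤ M) → R := fun i ↦ ∑ m : f.support, f.coeff m.1 * (a m i : R)
  have hdec : f = ∑ m : f.support, MvPolynomial.C (f.coeff m.1) *
        MvPolynomial.map (Int.castRingHom R) (pol (Pi.single m 1 - ∑ i, a m i • q i)) +
      ∑ i, MvPolynomial.C (α i) * MvPolynomial.map (Int.castRingHom R) (pol (q i)) := by
    have h1 : (fun m : f.support ↦ f.coeff m.1) = ∑ m : f.support, f.coeff m.1 •
        (fun l : f.support ↦ (((Pi.single m 1 - ∑ i, a m i • q i : f.support → ℤ) l : ℤ) : R)) +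
        ∑ i, α i • (fun l : f.support ↦ ((q i l : ℤ) : R)) := by
      ext l
      simp only [Pi.add_apply, Finset.sum_apply, Pi.smul_apply, smul_eq_mul, Pi.sub_apply,
        Int.cast_sub, Int.cast_sum, Int.cast_mul, mul_sub, Finset.sum_sub_distrib, α,
        Finset.sum_mul]
      have h2 : ∑ m : f.support, f.coeff m.1 * (((Pi.single m (1 : ℤ) : f.support → ℤ) l : ℤ) : R) =
          f.coeff l.1 := by
        rw [Finset.sum_eq_single l]
        · simp
        · intro m _ hm
          rw [Pi.single_eq_of_ne (Ne.symm hm)]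
          simp
        · intro h; exact absurd (Finset.mem_univ l) h
      rw [h2]
      have h3 : ∑ m : f.support, f.coeff m.1 * ∑ i, ((a m i : R) * ((q i l : ℤ) : R)) =
          ∑ i, ∑ m : f.support, f.coeff m.1 * (a m i : R) * ((q i l : ℤ) : R) := by
        simp_rw [Finset.mul_sum]
        rw [Finset.sum_comm]
        simp_rw [mul_assoc]
      rw [h3]
      ring
    conv_lhs => rw [hfpol, h1, map_add, map_sum, map_sum]
    congr 1
    · refine Finset.sum_congr rfl fun m _ ↦ ?_
      rw [map_smul, ← hpolR, MvPolynomial.smul_eq_C_mul]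
    · refine Finset.sum_congr rfl fun i _ ↦ ?_
      rw [map_smul, ← hpolR, MvPolynomial.smul_eq_C_mul]
  -- the coefficients vanish
  have hcast : ∀ (c : f.support → ℤ) (p : PT),
      MvPolynomial.aeval (R := R) (fun i ↦ ((p.1 i : ℚ) : F))
        (MvPolynomial.map (Int.castRingHom R) (pol c)) = ((ev c p : ℚ) : F) := by
    intro c p
    rw [hev]
    change _ = ((MvPolynomial.aeval (R := ℤ) p.1 (pol c) : ℚ) : F)
    generalize pol c = P
    have h1 : MvPolynomial.aeval (R := R) (fun i ↦ ((p.1 i : ℚ) : F))
        (MvPolynomial.map (Int.castRingHom R) P) =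
        MvPolynomial.aeval (R := ℤ) (fun i ↦ ((p.1 i : ℚ) : F)) P := by
      have := MvPolynomial.aeval_map_algebraMap (R := ℤ) R (B := F)
        (fun i ↦ ((p.1 i : ℚ) : F)) P
      exact this
    rw [h1]
    exact (MvPolynomial.comp_aeval_apply (R := ℤ) p.1
      ((Rat.castHom F : ℚ →+* F).toIntAlgHom) P).symm
  have hα : (fun i ↦ algebraMap R F (α i)) = 0 := by
    refine eq_zero_of_sum_rat (X := PT) (φ := fun i ↦ (b i : PT → ℚ)) ?_ ?_
    · intro c hc
      -- clear denominators
      have hli : LinearIndependent ℤ (fun i ↦ (b i : PT → ℚ)) :=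
        b.linearIndependent.map' M.subtype (Submodule.ker_subtype M)
      have hliQ : LinearIndependent ℚ (fun i ↦ (b i : PT → ℚ)) := by
        exact (LinearIndependent.iff_fractionRing ℤ ℚ).mp hli
      rw [Fintype.linearIndependent_iff] at hliQ
      ext i
      refine hliQ c ?_ i
      ext p
      rw [Finset.sum_apply, Pi.zero_apply]
      exact hc p
    · intro p
      have h1 := hf p.1 p.2
      rw [hdec, map_add, map_sum, map_sum] at h1
      have h2 : ∀ m : f.support, MvPolynomial.aeval (fun i ↦ ((p.1 i : ℚ) : F))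
          (MvPolynomial.C (f.coeff m.1) * MvPolynomial.map (Int.castRingHom R)
            (pol (Pi.single m 1 - ∑ i, a m i • q i))) = 0 := by
        intro m
        rw [map_mul, hcast, ha m]
        simp
      rw [Finset.sum_eq_zero (fun m _ ↦ h2 m), zero_add] at h1
      rw [← h1]
      refine Finset.sum_congr rfl fun i _ ↦ ?_
      rw [map_mul, hcast, hq, MvPolynomial.aeval_C]
  have hα' : ∀ i, α i = 0 := by
    intro i
    apply hRF
    rw [map_zero]
    exact congrFun hα i
  rw [hdec]
  refine Ideal.add_mem _ (Ideal.sum_mem _ fun m _ ↦ ?_) (Ideal.sum_mem _ fun i _ ↦ ?_)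
  · exact Ideal.mul_mem_left _ _ (Ideal.mem_map_of_mem _ (hpolI m))
  · rw [hα' i, map_zero, zero_mul]
    exact Ideal.zero_mem _

end

end Pool.Agent.Helper88.MT
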