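import Mathlib

/-!
# Definitions: closed subschemes of the general linear group, Hodge lattices, Mumford-Tate groups
-/

set_option linter.unusedSectionVars false

namespace Pool.Agent.Helper88.MT

open Matrix Module

section Lin

variable {r : ℕ}

/-- Polynomials over `R` in the `r ^ 2` matrix entries (the variables `some (i, j)`) and in one
further variable `none`, which stands for the inverse of the determinant. Closed subschemes of
the group scheme `GL r` over `R` correspond to ideals of this ring containing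
`det * X none - 1`. -/
abbrev GLPoly (r : ℕ) (R : Type*) [CommRing R] := MvPolynomial (Option (Fin r × Fin r)) R

/-- The value of such a polynomial at a point of `GL r` with coordinates in an algebra. -/
noncomputable def evGL {R A : Type*} [CommRing R] [CommRing A] [Algebra R A]
    (g : GL (Fin r) A) : GLPoly r R →ₐ[R] A :=
  MvPolynomial.aeval (fun o : Option (Fin r × Fin r) ↦
    o.elim (((Matrix.GeneralLinearGroup.det g)⁻¹ : Aˣ) : A) (fun p ↦ g p.1 p.2))

/-- The ideal of all polynomials over `R` vanishing on a set of points. It defines the Zariski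
closure of this set in the group scheme `GL r` over `R`. -/
noncomputable def vanGL (R : Type*) {A : Type*} [CommRing R] [CommRing A] [Algebra R A]
    (S : Set (GL (Fin r) A)) : Ideal (GLPoly r R) where
  carrier := {f | ∀ g ∈ S, evGL g f = 0}
  add_mem' := by
    intro f g hf hg x hx
    rw [map_add, hf x hx, hg x hx, add_zero]
  zero_mem' := by
    intro x _
    rw [map_zero]
  smul_mem' := by
    intro c f hf x hx
    rw [smul_eq_mul, map_mul, hf x hx, mul_zero]

/-- The point `1 + ε x` of `GL r` over the dual numbers. -/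
noncomputable def onePlusEps {F : Type*} [Field F] (x : Matrix (Fin r) (Fin r) F) :
    GL (Fin r) (DualNumber F) where
  val := 1 + (DualNumber.eps : DualNumber F) • x.map (algebraMap F (DualNumber F))
  inv := 1 - (DualNumber.eps : DualNumber F) • x.map (algebraMap F (DualNumber F))
  val_inv := by
    have h : ((DualNumber.eps : DualNumber F) • x.map (algebraMap F (DualNumber F))) *
        ((DualNumber.eps : DualNumber F) • x.map (algebraMap F (DualNumber F))) = 0 := by
      rw [smul_mul_smul_comm, DualNumber.eps_mul_eps, zero_smul]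
    generalize (DualNumber.eps : DualNumber F) • x.map (algebraMap F (DualNumber F)) = y at h ⊢
    calc (1 + y) * (1 - y) = 1 - y * y := by noncomm_ring
      _ = 1 := by rw [h, sub_zero]
  inv_val := by
    have h : ((DualNumber.eps : DualNumber F) • x.map (algebraMap F (DualNumber F))) *
        ((DualNumber.eps : DualNumber F) • x.map (algebraMap F (DualNumber F))) = 0 := by
      rw [smul_mul_smul_comm, DualNumber.eps_mul_eps, zero_smul]
    generalize (DualNumber.eps : DualNumber F) • x.map (algebraMap F (DualNumber F)) = y at h ⊢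
    calc (1 - y) * (1 + y) = 1 - y * y := by noncomm_ring
      _ = 1 := by rw [h, sub_zero]

/-- The Lie algebra (tangent space at the identity) of the Zariski closure over the field `F` of
a set of points of `GL r` with coordinates in `F`. -/
def lieGL {F : Type*} [Field F] (S : Set (GL (Fin r) F)) : Set (Matrix (Fin r) (Fin r) F) :=
  {x | ∀ f ∈ vanGL F S, evGL (onePlusEps x) f = 0}

end Lin

/-- The subspace `W ⊗ F` of `F ^ r` attached to a rational subspace `W`. -/
def extend {r : ℕ} (F : Type*) [Field F] [CharZero F] (W : Submodule ℚ (Fin r → ℚ)) :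
    Submodule F (Fin r → F) :=
  Submodule.span F ((fun (v : Fin r → ℚ) (i : Fin r) ↦ ((v i : ℚ) : F)) '' (W : Set (Fin r → ℚ)))

/-- A Hodge structure of weight zero on the lattice `ℤ ^ r`, with Hodge types `(1, -1)`, `(0, 0)`
and `(-1, 1)` only, together with an integral symmetric form which is nondegenerate, compatible
with the Hodge structure, and nondegenerate on the group of Hodge classes. The Hodge structure is
given by the operator `D` of `ℂ ^ r` which acts as `p` on the part of type `(p, -p)`. -/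
structure HodgeLattice (r : ℕ) where
  /-- the Gram matrix of the form -/
  ψ : Matrix (Fin r) (Fin r) ℤ
  /-- the Hodge operator -/
  D : Matrix (Fin r) (Fin r) ℂ
  symm : ψᵀ = ψ
  det_ne_zero : ψ.det ≠ 0
  cube : D ^ 3 = D
  conj : D.map (starRingEnd ℂ) = - D
  compat : Dᵀ * ψ.map (Int.cast : ℤ → ℂ) + ψ.map (Int.cast : ℤ → ℂ) * D = 0
  nondeg : ∀ v : Fin r → ℤ, D *ᵥ (fun i ↦ (v i : ℂ)) = 0 →
    (∀ w : Fin r → ℤ, D *ᵥ (fun i ↦ (w i : ℂ)) = 0 → v ⬝ᵥ (ψ *ᵥ w) = 0) → v = 0

namespace HodgeLattice

variable {r : ℕ} (H : HodgeLattice r)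

/-- The rational Hodge classes. -/
def N : Submodule ℚ (Fin r → ℚ) where
  carrier := {v | H.D *ᵥ (fun i ↦ ((v i : ℚ) : ℂ)) = 0}
  add_mem' := by
    intro v w hv hw
    have : (fun i ↦ (((v + w) i : ℚ) : ℂ)) = (fun i ↦ ((v i : ℚ) : ℂ)) +
        fun i ↦ ((w i : ℚ) : ℂ) := by
      ext i; simp
    change H.D *ᵥ (fun i ↦ (((v + w) i : ℚ) : ℂ)) = 0
    rw [this, mulVec_add, hv, hw, add_zero]
  zero_mem' := by
    change H.D *ᵥ (fun i ↦ (((0 : Fin r → ℚ) i : ℚ) : ℂ)) = 0
    have : (fun i ↦ (((0 : Fin r → ℚ) i : ℚ) : ℂ)) = 0 := by ext i; simp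
    rw [this, mulVec_zero]
  smul_mem' := by
    intro c v hv
    have : (fun i ↦ (((c • v) i : ℚ) : ℂ)) = (c : ℂ) • fun i ↦ ((v i : ℚ) : ℂ) := by
      ext i; simp
    change H.D *ᵥ (fun i ↦ (((c • v) i : ℚ) : ℂ)) = 0
    rw [this, mulVec_smul, hv, smul_zero]

/-- The transcendental part: the orthogonal of the Hodge classes. -/
def T : Submodule ℚ (Fin r → ℚ) where
  carrier := {v | ∀ w ∈ H.N, v ⬝ᵥ (H.ψ.map (Int.cast : ℤ → ℚ) *ᵥ w) = 0}
  add_mem' := by
    intro v v' hv hv' w hw
    rw [add_dotProduct, hv w hw, hv' w hw, add_zero]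
  zero_mem' := by
    intro w _
    rw [zero_dotProduct]
  smul_mem' := by
    intro c v hv w hw
    rw [smul_dotProduct, hv w hw, smul_zero]

/-- The rank of the transcendental part. -/
noncomputable def n : ℕ := finrank ℚ H.T

/-- The Hodge number of type `(1, -1)`. -/
noncomputable def g : ℕ := finrank ℂ (Module.End.eigenspace (Matrix.toLin' H.D) 1)

/-- The transcendental part is a simple rational Hodge structure. -/
def IsSimple : Prop :=
  ∀ W : Submodule ℚ (Fin r → ℚ), W ≤ H.T →
    (∀ w ∈ extend ℂ W, H.D *ᵥ w ∈ extend ℂ W) → W = ⊥ ∨ W = H.T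

/-- All rational endomorphisms of the Hodge structure act as scalars on the transcendental
part. -/
def EndIsRat : Prop :=
  ∀ φ : Matrix (Fin r) (Fin r) ℚ,
    φ.map (Rat.cast : ℚ → ℂ) * H.D = H.D * φ.map (Rat.cast : ℚ → ℂ) →
      ∃ c : ℚ, ∀ v ∈ H.T, φ *ᵥ v = c • v

/-- The element of `GL r` over `ℂ` by which the complex number `u` of absolute value one acts on
the Hodge structure: it acts on the part of type `(p, -p)` as `u ^ p`. The image of the morphism
`h` defining the Hodge structure is the set of these elements. -/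
def IsHodgeElement (u : ℂ) (a : GL (Fin r) ℂ) : Prop :=
  ‖u‖ = 1 ∧ (a : Matrix (Fin r) (Fin r) ℂ) =
    (1 - H.D ^ 2) + u • ((2 : ℂ)⁻¹ • (H.D ^ 2 + H.D)) + u⁻¹ • ((2 : ℂ)⁻¹ • (H.D ^ 2 - H.D))

/-- The group of complex points of the Mumford-Tate group: the smallest subgroup of `GL r` over
`ℂ` which is the set of common zeros of polynomials with rational coefficients and contains the
image of `h`. -/
noncomputable def MTGroup : Subgroup (GL (Fin r) ℂ) :=
  sInf {S : Subgroup (GL (Fin r) ℂ) |
    (∃ P : Set (GLPoly r ℚ), ∀ a : GL (Fin r) ℂ, a ∈ S ↔ ∀ f ∈ P, evGL a f = 0) ∧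
      ∀ u a, H.IsHodgeElement u a → a ∈ S}

/-- A subgroup of `GL r` over a ring which preserves the form, fixes the integral Hodge classes
and consists of elements of determinant one. -/
structure Compatible {R : Type*} [CommRing R] (Γ : Subgroup (GL (Fin r) R)) : Prop where
  isom : ∀ γ ∈ Γ, (γ : Matrix (Fin r) (Fin r) R)ᵀ * H.ψ.map (Int.cast : ℤ → R) * γ =
    H.ψ.map (Int.cast : ℤ → R)
  det_eq_one : ∀ γ ∈ Γ, (γ : Matrix (Fin r) (Fin r) R).det = 1
  fix : ∀ γ ∈ Γ, ∀ v : Fin r → ℤ, H.D *ᵥ (fun i ↦ (v i : ℂ)) = 0 →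
    (γ : Matrix (Fin r) (Fin r) R) *ᵥ (fun i ↦ (v i : R)) = fun i ↦ (v i : R)

/-- The set `L` of matrices over `F` acts irreducibly on `T ⊗ Ω`. -/
def ActsIrreducibly {F : Type*} [Field F] (Ω : Type*) [Field Ω] [CharZero Ω] [Algebra F Ω]
    (L : Set (Matrix (Fin r) (Fin r) F)) : Prop :=
  ∀ W : Submodule Ω (Fin r → Ω), W ≤ extend Ω H.T →
    (∀ x ∈ L, ∀ w ∈ W, x.map (algebraMap F Ω) *ᵥ w ∈ W) → W = ⊥ ∨ W = extend Ω H.T

end HodgeLattice

/-- The span over `Ω` of a set of matrices over `F`. -/
def spanOver {r : ℕ} {F : Type*} [Field F] (Ω : Type*) [Field Ω] [Algebra F Ω]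
    (L : Set (Matrix (Fin r) (Fin r) F)) : Submodule Ω (Matrix (Fin r) (Fin r) Ω) :=
  Submodule.span Ω ((fun x ↦ x.map (algebraMap F Ω)) '' L)

end Pool.Agent.Helper88.MT
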