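import Mathlib

/-!
# Bilinear forms given by matrices, and base change of subspaces: definitions
-/

set_option linter.unusedSectionVars false

namespace Pool.Agent.Helper88.MT

open Matrix

variable {ι : Type*} [Fintype ι] [DecidableEq ι]

section CommRing

variable {R : Type*} [CommRing R]

/-- The bilinear form with matrix `ψ`. -/
def bil (ψ : Matrix ι ι R) (v w : ι → R) : R := v ⬝ᵥ (ψ *ᵥ w)

variable {ψ : Matrix ι ι R}

lemma bil_add_left (u v w : ι → R) : bil ψ (u + v) w = bil ψ u w + bil ψ v w := by
  unfold bil; rw [add_dotProduct]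

lemma bil_smul_left (c : R) (v w : ι → R) : bil ψ (c • v) w = c * bil ψ v w := by
  unfold bil; rw [smul_dotProduct, smul_eq_mul]

/-- The Lie algebra of the group of isometries fixing the vectors of `N`. -/
def soT (ψ : Matrix ι ι R) (N : Set (ι → R)) : Set (Matrix ι ι R) :=
  {x | xᵀ * ψ + ψ * x = 0 ∧ ∀ w ∈ N, x *ᵥ w = 0}

/-- The isometries of determinant one fixing the vectors of `N`. -/
def SOT (ψ : Matrix ι ι R) (N : Set (ι → R)) : Set (Matrix ι ι R) :=
  {g | gᵀ * ψ * g = ψ ∧ g.det = 1 ∧ ∀ w ∈ N, g *ᵥ w = w}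

end CommRing

section Vec

variable {k : Type*} [Field k]

/-- Base change of a vector. -/
def vmap (F : Type*) [Field F] [Algebra k F] {κ : Type*} (v : κ → k) : κ → F :=
  fun i ↦ algebraMap k F (v i)

/-- Base change of a subspace. -/
def smap (F : Type*) [Field F] [Algebra k F] {κ : Type*} (N : Submodule k (κ → k)) :
    Submodule F (κ → F) := Submodule.span F (vmap F '' (N : Set (κ → k)))

variable {F : Type*} [Field F]

/-- The orthogonal of a subspace. -/
def orthS (ψ : Matrix ι ι F) (N : Submodule F (ι → F)) : Submodule F (ι → F) where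
  carrier := {v | ∀ w ∈ N, bil ψ v w = 0}
  add_mem' := by
    intro v v' hv hv' w hw
    rw [bil_add_left, hv w hw, hv' w hw, add_zero]
  zero_mem' := by
    intro w _
    simp [bil]
  smul_mem' := by
    intro c v hv w hw
    rw [bil_smul_left, hv w hw, mul_zero]

end Vec

end Pool.Agent.Helper88.MT
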