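import Mathlib

/-!
# Invariant derivations on polynomials in the entries of a matrix
-/

set_option linter.unusedSectionVars false

namespace Pool.Agent.Helper88.MT

open MvPolynomial

attribute [local instance 100] LieRing.ofAssociativeRing

variable {ι : Type*} [Fintype ι] [DecidableEq ι]

section Defs

variable {F : Type*} [CommRing F]

/-- Evaluation of a polynomial in the matrix entries at a matrix. -/
noncomputable def evM {R : Type*} [CommRing R] [Algebra F R] (M : Matrix ι ι R) :
    MvPolynomial (ι × ι) F →ₐ[F] R := aeval (fun p ↦ M p.1 p.2)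

/-- The invariant derivation attached to `x`: the generic matrix `X` goes to `X x`. -/
noncomputable def der (x : Matrix ι ι F) :
    Derivation F (MvPolynomial (ι × ι) F) (MvPolynomial (ι × ι) F) :=
  mkDerivation F (fun p ↦ ∑ j, X (p.1, j) * C (x j p.2))

variable {R : Type*} [CommRing R] [Algebra F R]

@[simp] lemma evM_X (M : Matrix ι ι R) (p : ι × ι) : evM (F := F) M (X p) = M p.1 p.2 := by
  simp [evM]

@[simp] lemma evM_C (M : Matrix ι ι R) (a : F) : evM M (C a) = algebraMap F R a := by
  simp [evM]

lemma der_X (x : Matrix ι ι F) (p : ι × ι) : der x (X p) = ∑ j, X (p.1, j) * C (x j p.2) := by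
  rw [der, mkDerivation_X]

lemma evM_der_X (M : Matrix ι ι R) (x : Matrix ι ι F) (p : ι × ι) :
    evM M (der x (X p)) = (M * x.map (algebraMap F R)) p.1 p.2 := by
  rw [der_X, map_sum, Matrix.mul_apply]
  simp

lemma der_add (x y : Matrix ι ι F) : der (x + y) = der x + der y := by
  apply MvPolynomial.derivation_ext
  intro p
  rw [Derivation.add_apply, der_X, der_X, der_X, ← Finset.sum_add_distrib]
  refine Finset.sum_congr rfl fun j _ ↦ ?_
  rw [Matrix.add_apply, C_add, mul_add]

lemma der_smul (c : F) (x : Matrix ι ι F) : der (c • x) = c • der x := by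
  apply MvPolynomial.derivation_ext
  intro p
  rw [Derivation.smul_apply, der_X, der_X, Finset.smul_sum]
  refine Finset.sum_congr rfl fun j _ ↦ ?_
  rw [Matrix.smul_apply, smul_eq_mul, C_mul, smul_eq_C_mul]
  ring

lemma der_zero : der (0 : Matrix ι ι F) = 0 := by
  have := der_smul (0 : F) (0 : Matrix ι ι F)
  rwa [zero_smul, zero_smul] at this

lemma der_comm (x y : Matrix ι ι F) (f : MvPolynomial (ι × ι) F) :
    der (x * y - y * x) f = der x (der y f) - der y (der x f) := by
  have h : der (x * y - y * x) = ⁅der x, der y⁆ := by
    apply MvPolynomial.derivation_ext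
    intro p
    rw [Derivation.commutator_apply, der_X, der_X, der_X, map_sum, map_sum]
    have key : ∀ x y : Matrix ι ι F, ∑ j, (der x) (X (p.1, j) * C (y j p.2)) =
        ∑ j, X (p.1, j) * C ((x * y) j p.2) := by
      intro x y
      have h1 : ∀ j, (der x) (X (p.1, j) * C (y j p.2)) =
          ∑ l, X (p.1, l) * C (x l j * y j p.2) := by
        intro j
        rw [mul_comm, ← smul_eq_C_mul, Derivation.map_smul, der_X, Finset.smul_sum]
        refine Finset.sum_congr rfl fun l _ ↦ ?_
        rw [smul_eq_C_mul, C_mul]
        ring
      simp only [h1]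
      rw [Finset.sum_comm]
      refine Finset.sum_congr rfl fun l _ ↦ ?_
      rw [← Finset.mul_sum, Matrix.mul_apply, map_sum]
    rw [key x y, key y x, ← Finset.sum_sub_distrib]
    refine Finset.sum_congr rfl fun j _ ↦ ?_
    rw [Matrix.sub_apply, C_sub, mul_sub]
  rw [h, Derivation.commutator_apply]

lemma der_eq_sum (x : Matrix ι ι F) (f : MvPolynomial (ι × ι) F) :
    der x f = ∑ j, ∑ k, x j k • der (Matrix.single j k 1) f := by
  have hx : x = ∑ j, ∑ k, x j k • Matrix.single j k (1 : F) := by
    conv_lhs => rw [Matrix.matrix_eq_sum_single x]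
    simp
  have hsum : ∀ (s : Finset (ι × ι)) (g : ι × ι → Matrix ι ι F),
      der (∑ p ∈ s, g p) f = ∑ p ∈ s, der (g p) f := by
    intro s g
    classical
    induction s using Finset.induction_on with
    | empty => simp [der_zero]
    | insert a s ha ih => rw [Finset.sum_insert ha, Finset.sum_insert ha, der_add,
        Derivation.add_apply, ih]
  have h1 : ∑ j, ∑ k, x j k • der (Matrix.single j k 1) f =
      ∑ p : ι × ι, der (x p.1 p.2 • Matrix.single p.1 p.2 (1 : F)) f := by
    rw [Fintype.sum_prod_type]
    refine Finset.sum_congr rfl fun j _ ↦ Finset.sum_congr rfl fun k _ ↦ ?_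
    rw [der_smul, Derivation.smul_apply]
  rw [h1, ← hsum]
  congr 2
  rw [Fintype.sum_prod_type]
  exact hx

/-- The chain rule. -/
lemma chain_rule (δ : Derivation F R R) {M y : Matrix ι ι R}
    (h : ∀ i k, δ (M i k) = (M * y) i k) (f : MvPolynomial (ι × ι) F) :
    δ (evM M f) = ∑ j, ∑ k, y j k * evM M (der (Matrix.single j k 1) f) := by
  induction f using MvPolynomial.induction_on with
  | C a =>
    rw [evM_C, Derivation.map_algebraMap]
    symm
    refine Finset.sum_eq_zero fun j _ ↦ Finset.sum_eq_zero fun k _ ↦ ?_
    have : der (Matrix.single j k (1 : F)) (C a) = 0 := Derivation.map_algebraMap _ a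
    rw [this, map_zero, mul_zero]
  | add p q hp hq =>
    rw [map_add, map_add, hp, hq]
    simp only [map_add, mul_add, Finset.sum_add_distrib]
  | mul_X p i hp =>
    rw [map_mul, Derivation.leibniz, hp, evM_X, h]
    simp only [Derivation.leibniz, map_add, smul_eq_mul, map_mul, evM_X, evM_der_X, mul_add,
      Finset.sum_add_distrib]
    congr 1
    · rw [Matrix.mul_apply]
      have h1 : ∀ j k, (M * (Matrix.single j k (1 : F)).map (algebraMap F R)) i.1 i.2 =
          if k = i.2 then M i.1 j else 0 := by
        intro j k
        rw [Matrix.mul_apply]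
        split_ifs with hk
        · subst hk
          rw [Finset.sum_eq_single j]
          · simp [Matrix.single]
          · intro b _ hb
            simp [Matrix.single, Ne.symm hb]
          · simp
        · refine Finset.sum_eq_zero fun b _ ↦ ?_
          simp [Matrix.single, hk]
      simp only [h1]
      rw [Finset.mul_sum]
      refine Finset.sum_congr rfl fun j _ ↦ ?_
      rw [Finset.sum_eq_single i.2]
      · simp; ring
      · intro b _ hb
        simp [hb]
      · simp
    · rw [Finset.mul_sum]
      refine Finset.sum_congr rfl fun j _ ↦ ?_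
      rw [Finset.mul_sum]
      refine Finset.sum_congr rfl fun k _ ↦ ?_
      ring

end Defs

section Formal

variable {F : Type*} [Field F] [CharZero F]

/-- A family of polynomials stable under invariant derivations and vanishing at a matrix vanishes
along formal curves whose logarithmic derivative stays in the given directions. -/
lemma evM_eq_zero_of_curve {𝓘 : Set (MvPolynomial (ι × ι) F)} {S : Set (Matrix ι ι F)}
    (hstab : ∀ x ∈ S, ∀ f ∈ 𝓘, der x f ∈ 𝓘) {M₀ : Matrix ι ι F}
    (hM₀ : ∀ f ∈ 𝓘, evM M₀ f = 0) {c y : Matrix ι ι (PowerSeries F)}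
    (hc0 : ∀ i k, PowerSeries.coeff 0 (c i k) = (1 : Matrix ι ι F) i k)
    (hcy : ∀ i k, PowerSeries.derivative F (c i k) = (c * y) i k)
    (hy : ∀ n, (Matrix.of fun j k ↦ PowerSeries.coeff n (y j k)) ∈ S) :
    ∀ f ∈ 𝓘, evM (M₀.map (algebraMap F (PowerSeries F)) * c) f = 0 := by
  set M := M₀.map (algebraMap F (PowerSeries F)) * c with hM
  have hMy : ∀ i k, PowerSeries.derivative F (M i k) = (M * y) i k := by
    intro i k
    rw [hM, Matrix.mul_assoc, Matrix.mul_apply, Matrix.mul_apply, map_sum]
    refine Finset.sum_congr rfl fun j _ ↦ ?_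
    rw [Derivation.leibniz, Matrix.map_apply, Derivation.map_algebraMap, smul_zero, add_zero,
      hcy, smul_eq_mul]
  -- all coefficients vanish
  suffices h : ∀ n, ∀ f ∈ 𝓘, PowerSeries.coeff n (evM M f) = 0 by
    intro f hf
    ext n
    rw [h n f hf, map_zero]
  intro n
  induction n using Nat.strong_induction_on with
  | _ n ih =>
    intro f hf
    cases n with
    | zero =>
      -- constant coefficient
      have h1 : PowerSeries.coeff 0 (evM M f) = evM M₀ f := by
        have h2 : (PowerSeries.constantCoeff : PowerSeries F →+* F).comp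
            (evM M : MvPolynomial (ι × ι) F →ₐ[F] PowerSeries F).toRingHom =
            (evM M₀ : MvPolynomial (ι × ι) F →ₐ[F] F).toRingHom := by
          apply MvPolynomial.ringHom_ext
          · intro a
            simp
          · intro p
            simp only [AlgHom.toRingHom_eq_coe, RingHom.comp_apply, RingHom.coe_coe, evM_X]
            rw [hM, Matrix.mul_apply, map_sum, Finset.sum_eq_single p.2]
            · have := hc0 p.2 p.2
              rw [PowerSeries.coeff_zero_eq_constantCoeff_apply] at this
              simp [this]
            · intro b _ hb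
              have := hc0 b p.2
              rw [PowerSeries.coeff_zero_eq_constantCoeff_apply] at this
              simp [this, hb]
            · simp
        have := RingHom.congr_fun h2 f
        rw [PowerSeries.coeff_zero_eq_constantCoeff_apply]
        exact this
      rw [h1]
      exact hM₀ f hf
    | succ n =>
      have h1 : PowerSeries.coeff n (PowerSeries.derivative F (evM M f)) =
          PowerSeries.coeff (n + 1) (evM M f) * (n + 1) := PowerSeries.coeff_derivative _ _
      have h2 : PowerSeries.coeff n (PowerSeries.derivative F (evM M f)) = 0 := by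
        rw [chain_rule (PowerSeries.derivative F) hMy f, map_sum]
        simp only [map_sum, PowerSeries.coeff_mul]
        have h3 : ∑ j, ∑ k, ∑ p ∈ Finset.HasAntidiagonal.antidiagonal n, PowerSeries.coeff p.1 (y j k) *
            PowerSeries.coeff p.2 (evM M (der (Matrix.single j k 1) f)) =
            ∑ p ∈ Finset.HasAntidiagonal.antidiagonal n, PowerSeries.coeff p.2 (evM M
              (der (Matrix.of fun j k ↦ PowerSeries.coeff p.1 (y j k)) f)) := by
          have h4 : ∀ p : ℕ × ℕ, PowerSeries.coeff p.2 (evM M
              (der (Matrix.of fun j k ↦ PowerSeries.coeff p.1 (y j k)) f)) =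
              ∑ j, ∑ k, PowerSeries.coeff p.1 (y j k) *
              PowerSeries.coeff p.2 (evM M (der (Matrix.single j k 1) f)) := by
            intro p
            rw [der_eq_sum]
            simp only [map_sum, map_smul, Matrix.of_apply, smul_eq_mul]
          simp only [h4]
          calc _ = ∑ j, ∑ p ∈ Finset.HasAntidiagonal.antidiagonal n, ∑ k, PowerSeries.coeff p.1 (y j k) *
              PowerSeries.coeff p.2 (evM M (der (Matrix.single j k 1) f)) :=
                Finset.sum_congr rfl fun j _ ↦ Finset.sum_comm
            _ = _ := Finset.sum_comm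
        rw [h3]
        refine Finset.sum_eq_zero fun p hp ↦ ?_
        have hp' : p.2 < n + 1 := by
          have := Finset.HasAntidiagonal.mem_antidiagonal.mp hp
          omega
        exact ih p.2 hp' _ (hstab _ (hy p.1) f hf)
      rw [h1] at h2
      have h3 : ((n : F) + 1) ≠ 0 := by exact_mod_cast Nat.succ_ne_zero n
      exact (mul_eq_zero.mp h2).resolve_right h3

end Formal

end Pool.Agent.Helper88.MT
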