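import Mathlib
import Pool.Agent.Helper88.MT.PolyDer
import Pool.Agent.Helper88.MT.FormDefs

/-!
# Reflections and rational curves in orthogonal groups
-/

set_option linter.unusedSectionVars false

namespace Pool.Agent.Helper88.MT

open Matrix

variable {ι : Type*} [Fintype ι] [DecidableEq ι]

section CommRing

variable {R : Type*} [CommRing R]

/-- The reflection in the vector `u`; here `e` is the inverse of `bil ψ u u`. -/
def refl (ψ : Matrix ι ι R) (u : ι → R) (e : R) : Matrix ι ι R :=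
  1 - (2 * e) • vecMulVec u (ψ *ᵥ u)

variable {ψ : Matrix ι ι R}

lemma bil_symm (hψ : ψᵀ = ψ) (v w : ι → R) : bil ψ v w = bil ψ w v := by
  unfold bil
  rw [Matrix.dotProduct_mulVec, ← Matrix.mulVec_transpose, hψ, dotProduct_comm]

lemma bil_add_right (u v w : ι → R) : bil ψ u (v + w) = bil ψ u v + bil ψ u w := by
  unfold bil; rw [mulVec_add, dotProduct_add]

lemma bil_smul_right (c : R) (v w : ι → R) : bil ψ v (c • w) = c * bil ψ v w := by
  unfold bil; rw [mulVec_smul, dotProduct_smul, smul_eq_mul]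

lemma bil_sub_left (u v w : ι → R) : bil ψ (u - v) w = bil ψ u w - bil ψ v w := by
  unfold bil; rw [sub_dotProduct]

lemma bil_sub_right (u v w : ι → R) : bil ψ u (v - w) = bil ψ u v - bil ψ u w := by
  unfold bil; rw [mulVec_sub, dotProduct_sub]

lemma mulVec_dotProduct_eq (hψ : ψᵀ = ψ) (u v : ι → R) : (ψ *ᵥ u) ⬝ᵥ v = bil ψ u v := by
  rw [dotProduct_comm]
  exact bil_symm hψ v u

lemma refl_mulVec (hψ : ψᵀ = ψ) (u v : ι → R) (e : R) :
    refl ψ u e *ᵥ v = v - (2 * e * bil ψ u v) • u := by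
  unfold refl
  rw [sub_mulVec, one_mulVec, smul_mulVec, vecMulVec_mulVec, mulVec_dotProduct_eq hψ,
    op_smul_eq_smul, smul_smul]

/-- A matrix preserves the form iff it preserves the pairing of vectors. -/
lemma bil_mulVec {g : Matrix ι ι R} (hg : gᵀ * ψ * g = ψ) (v w : ι → R) :
    bil ψ (g *ᵥ v) (g *ᵥ w) = bil ψ v w := by
  have h1 : bil ψ (g *ᵥ v) (g *ᵥ w) = v ⬝ᵥ ((gᵀ * ψ * g) *ᵥ w) := by
    unfold bil
    rw [← Matrix.mulVec_mulVec, ← Matrix.mulVec_mulVec]
    rw [Matrix.dotProduct_mulVec, ← Matrix.mulVec_transpose, Matrix.dotProduct_mulVec,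
      ← Matrix.mulVec_transpose]
    conv_rhs => rw [Matrix.dotProduct_mulVec, ← Matrix.mulVec_transpose,
      Matrix.transpose_transpose, Matrix.dotProduct_mulVec, ← Matrix.mulVec_transpose,
      Matrix.dotProduct_mulVec, ← Matrix.mulVec_transpose]
  rw [h1, hg]; rfl

lemma refl_isom (hψ : ψᵀ = ψ) {u : ι → R} {e : R} (he : e * bil ψ u u = 1) :
    (refl ψ u e)ᵀ * ψ * refl ψ u e = ψ := by
  unfold refl
  set P := vecMulVec u (ψ *ᵥ u) with hP
  set Q := vecMulVec (ψ *ᵥ u) (ψ *ᵥ u) with hQ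
  have h1 : Pᵀ * ψ = Q := by
    rw [hP, transpose_vecMulVec, vecMulVec_mul, ← Matrix.mulVec_transpose, hψ]
  have h2 : ψ * P = Q := by rw [hP, mul_vecMulVec]
  have h3 : Q * P = bil ψ u u • Q := by
    rw [hQ, hP, vecMulVec_mul_vecMulVec, mulVec_dotProduct_eq hψ, vecMulVec_smul]
  have h4 : (1 - (2 * e) • P)ᵀ * ψ = ψ - (2 * e) • Q := by
    rw [transpose_sub, transpose_one, transpose_smul, Matrix.sub_mul, Matrix.one_mul,
      Matrix.smul_mul, h1]
  rw [h4, Matrix.mul_sub, Matrix.mul_one, Matrix.mul_smul, Matrix.sub_mul, h2, Matrix.smul_mul, h3,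
    smul_sub, smul_smul, smul_smul]
  have h5 : 2 * e * (2 * e) * bil ψ u u = 2 * (2 * e) := by
    linear_combination (4 * e) * he
  rw [h5]
  module

lemma refl_mul_self (hψ : ψᵀ = ψ) {u : ι → R} {e : R} (he : e * bil ψ u u = 1) :
    refl ψ u e * refl ψ u e = 1 := by
  unfold refl
  set P := vecMulVec u (ψ *ᵥ u) with hP
  have h3 : P * P = bil ψ u u • P := by
    rw [hP, vecMulVec_mul_vecMulVec, mulVec_dotProduct_eq hψ, vecMulVec_smul]
  rw [Matrix.mul_sub, Matrix.mul_one, Matrix.sub_mul, Matrix.one_mul, Matrix.smul_mul,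
    Matrix.mul_smul, h3, smul_smul, smul_smul]
  have h5 : 2 * e * (2 * e) * bil ψ u u = 2 * (2 * e) := by
    linear_combination (4 * e) * he
  rw [h5]
  module

lemma det_refl (hψ : ψᵀ = ψ) {u : ι → R} {e : R} (he : e * bil ψ u u = 1) :
    (refl ψ u e).det = -1 := by
  have h1 : refl ψ u e = 1 + replicateCol Unit (-(2 * e) • u) * replicateRow Unit (ψ *ᵥ u) := by
    unfold refl
    rw [← Matrix.vecMulVec_eq, smul_vecMulVec, neg_smul, sub_eq_add_neg]
  rw [h1, det_one_add_replicateCol_mul_replicateRow, dotProduct_smul, mulVec_dotProduct_eq hψ,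
    smul_eq_mul]
  linear_combination (-2) * he

lemma refl_map {R' : Type*} [CommRing R'] (φ : R →+* R') (u : ι → R) (e : R) :
    (refl ψ u e).map φ = refl (ψ.map φ) (fun i ↦ φ (u i)) (φ e) := by
  unfold refl
  ext i j
  rw [Matrix.map_apply, Matrix.sub_apply, Matrix.sub_apply, Matrix.smul_apply, Matrix.smul_apply,
    vecMulVec_apply, vecMulVec_apply, map_sub, smul_eq_mul, smul_eq_mul, map_mul, map_mul,
    map_mul, map_ofNat]
  congr 1
  · rw [Matrix.one_apply, Matrix.one_apply]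
    split_ifs <;> simp
  · simp only [mulVec, dotProduct, map_sum, map_mul, Matrix.map_apply]

lemma bil_map {R' : Type*} [CommRing R'] (φ : R →+* R') (u v : ι → R) :
    φ (bil ψ u v) = bil (ψ.map φ) (fun i ↦ φ (u i)) (fun i ↦ φ (v i)) := by
  simp [bil, mulVec, dotProduct, map_sum]

end CommRing

section Homog

variable {F : Type*} [CommRing F] {σ : Type*}

/-- Homogenisation of a polynomial. -/
lemma exists_homog (f : MvPolynomial σ F) : ∃ (m : ℕ) (fh : MvPolynomial (Option σ) F),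
    ∀ {R : Type _} [CommRing R] [Algebra F R] (δ : R) (a b : σ → R), (∀ i, b i = δ * a i) →
      MvPolynomial.aeval (fun o : Option σ ↦ o.elim δ b) fh =
        δ ^ m * MvPolynomial.aeval a f := by
  induction f using MvPolynomial.induction_on with
  | C a =>
    refine ⟨0, MvPolynomial.C a, ?_⟩
    intro R _ _ δ a' b h
    simp
  | add p q hp hq =>
    obtain ⟨m, ph, hp⟩ := hp
    obtain ⟨n, qh, hq⟩ := hq
    refine ⟨m + n, MvPolynomial.X none ^ n * ph + MvPolynomial.X none ^ m * qh, ?_⟩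
    intro R _ _ δ a b h
    rw [map_add, map_mul, map_mul, hp δ a b h, hq δ a b h, map_add]
    simp only [map_pow, MvPolynomial.aeval_X, Option.elim_none]
    ring
  | mul_X p i hp =>
    obtain ⟨m, ph, hp⟩ := hp
    refine ⟨m + 1, ph * MvPolynomial.X (some i), ?_⟩
    intro R _ _ δ a b h
    rw [map_mul, map_mul, hp δ a b h]
    simp only [MvPolynomial.aeval_X, Option.elim_some, h i]
    ring

end Homog

section Curve

variable {F : Type*} [Field F] [CharZero F]

/-- Logarithmic derivatives of curves in the orthogonal group. -/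
lemma exists_log_derivative {ψ : Matrix ι ι F} (hψ : ψᵀ = ψ) (hdet : ψ.det ≠ 0)
    {N : Set (ι → F)} {c : Matrix ι ι (PowerSeries F)}
    (hc : cᵀ * ψ.map (algebraMap F (PowerSeries F)) * c = ψ.map (algebraMap F (PowerSeries F)))
    (hcN : ∀ w ∈ N, c *ᵥ (fun i ↦ algebraMap F (PowerSeries F) (w i)) =
      fun i ↦ algebraMap F (PowerSeries F) (w i)) :
    ∃ y : Matrix ι ι (PowerSeries F),
      (∀ i k, PowerSeries.derivative F (c i k) = (c * y) i k) ∧
      ∀ n, (Matrix.of fun j k ↦ PowerSeries.coeff n (y j k)) ∈ soT ψ N := by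
  set A := algebraMap F (PowerSeries F) with hA
  set ψ' := ψ.map A with hψ'
  set D : Matrix ι ι (PowerSeries F) → Matrix ι ι (PowerSeries F) :=
    fun M ↦ M.map (PowerSeries.derivative F) with hD
  have hDapp : ∀ M i k, D M i k = PowerSeries.derivative F (M i k) := fun M i k ↦ rfl
  have hDmul : ∀ M M' : Matrix ι ι (PowerSeries F), D (M * M') = D M * M' + M * D M' := by
    intro M M'
    ext1 i k
    rw [hDapp, Matrix.mul_apply, Matrix.add_apply, Matrix.mul_apply, Matrix.mul_apply, map_sum,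
      ← Finset.sum_add_distrib]
    refine Finset.sum_congr rfl fun j _ ↦ ?_
    rw [Derivation.leibniz, smul_eq_mul, smul_eq_mul, hDapp, hDapp]
    ring
  have hDψ : D ψ' = 0 := by
    ext1 i k
    rw [hDapp, hψ', Matrix.map_apply, hA, Derivation.map_algebraMap]
    rfl
  have hDt : ∀ M : Matrix ι ι (PowerSeries F), D Mᵀ = (D M)ᵀ := fun M ↦ rfl
  have hψ't : ψ'ᵀ = ψ' := by rw [hψ', ← Matrix.transpose_map, hψ]
  set ψi := (ψ⁻¹).map A with hψi
  have hinv : ψi * ψ' = 1 := by
    rw [hψi, hψ', ← Matrix.map_mul, Matrix.nonsing_inv_mul _ (isUnit_iff_ne_zero.mpr hdet)]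
    ext i j
    simp [Matrix.one_apply, apply_ite A]
  have hinv' : ψ' * ψi = 1 := mul_eq_one_comm.mp hinv
  have hci : (ψi * cᵀ * ψ') * c = 1 := by
    rw [Matrix.mul_assoc, Matrix.mul_assoc, ← Matrix.mul_assoc cᵀ, hc, hinv]
  have hci' : c * (ψi * cᵀ * ψ') = 1 := mul_eq_one_comm.mp hci
  set y := (ψi * cᵀ * ψ') * D c with hy
  have hcy : c * y = D c := by rw [hy, ← Matrix.mul_assoc, hci', Matrix.one_mul]
  refine ⟨y, fun i k ↦ ?_, fun n ↦ ?_⟩
  · rw [hcy]; rfl
  have h1 : ψ' * y = cᵀ * ψ' * D c := by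
    rw [hy, ← Matrix.mul_assoc, Matrix.mul_assoc ψi, ← Matrix.mul_assoc ψ', hinv', Matrix.one_mul]
  have h2 : yᵀ * ψ' = (D c)ᵀ * ψ' * c := by
    have h3 : yᵀ * ψ' = (ψ' * y)ᵀ := by rw [Matrix.transpose_mul ψ' y, hψ't]
    rw [h3, h1, Matrix.transpose_mul, Matrix.transpose_mul, Matrix.transpose_transpose, hψ't,
      Matrix.mul_assoc]
  have h3 : yᵀ * ψ' + ψ' * y = 0 := by
    have h4 := congrArg D hc
    rw [hDmul, hDmul, hDψ, Matrix.mul_zero, add_zero, hDt] at h4
    rw [h1, h2, h4]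
  have hcoefψ : ∀ (i j : ι) (P : PowerSeries F),
      PowerSeries.coeff n (ψ' i j * P) = ψ i j * PowerSeries.coeff n P := by
    intro i j P
    rw [hψ', Matrix.map_apply, ← Algebra.smul_def, map_smul, smul_eq_mul]
  refine ⟨?_, ?_⟩
  · ext i k
    have h4 := congrArg (fun M : Matrix ι ι (PowerSeries F) ↦ PowerSeries.coeff n (M i k)) h3
    simp only [Matrix.add_apply, Matrix.mul_apply, Matrix.transpose_apply, map_add, map_sum,
      Matrix.zero_apply, map_zero] at h4
    simp only [Matrix.add_apply, Matrix.mul_apply, Matrix.transpose_apply, Matrix.of_apply,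
      Matrix.zero_apply]
    rw [← h4]
    congr 1
    · refine Finset.sum_congr rfl fun j _ ↦ ?_
      rw [mul_comm (y j i), hcoefψ, mul_comm]
    · refine Finset.sum_congr rfl fun j _ ↦ ?_
      rw [hcoefψ]
  · intro w hw
    have h5 : D c *ᵥ (fun i ↦ A (w i)) = 0 := by
      ext1 i
      have h6 := congrArg (PowerSeries.derivative F) (congrFun (hcN w hw) i)
      rw [hA, Derivation.map_algebraMap] at h6
      rw [Matrix.mulVec, dotProduct, map_sum] at h6
      rw [Matrix.mulVec, dotProduct, Pi.zero_apply, ← h6]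
      refine Finset.sum_congr rfl fun j _ ↦ ?_
      rw [Derivation.leibniz, Derivation.map_algebraMap, smul_zero, zero_add, smul_eq_mul,
        hDapp, mul_comm]
    have h7 : y *ᵥ (fun i ↦ A (w i)) = 0 := by
      rw [hy, ← Matrix.mulVec_mulVec, h5, Matrix.mulVec_zero]
    ext i
    have h8 := congrArg (PowerSeries.coeff n) (congrFun h7 i)
    rw [Matrix.mulVec, dotProduct, map_sum, Pi.zero_apply, map_zero] at h8
    rw [Matrix.mulVec, dotProduct, Pi.zero_apply, ← h8]
    refine Finset.sum_congr rfl fun j _ ↦ ?_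
    rw [Matrix.of_apply, mul_comm (y i j), hA, ← Algebra.smul_def, map_smul, smul_eq_mul, mul_comm]

end Curve

end Pool.Agent.Helper88.MT
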