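import Mathlib
import Pool.Agent.Helper88.MT.Reflect

/-!
# Polynomials vanishing on products of two reflections
-/

set_option linter.unusedSectionVars false

namespace Pool.Agent.Helper88.MT

open Matrix

variable {ι : Type*} [Fintype ι] [DecidableEq ι]
variable {F : Type*} [Field F] [CharZero F]

lemma evM_refl_refl {ψ : Matrix ι ι F} (hψ : ψᵀ = ψ) (hdet : ψ.det ≠ 0) {N : Set (ι → F)}
    {𝓘 : Set (MvPolynomial (ι × ι) F)} (hstab : ∀ x ∈ soT ψ N, ∀ f ∈ 𝓘, der x f ∈ 𝓘)
    {M₀ : Matrix ι ι F} (hM₀ : ∀ f ∈ 𝓘, evM M₀ f = 0) {u v : ι → F}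
    (hu : bil ψ u u ≠ 0) (hv : bil ψ v v ≠ 0) (huN : ∀ w ∈ N, bil ψ u w = 0)
    (hvN : ∀ w ∈ N, bil ψ v w = 0) :
    ∀ f ∈ 𝓘, evM (M₀ * (refl ψ u (bil ψ u u)⁻¹ * refl ψ v (bil ψ v v)⁻¹)) f = 0 := by
  intro f hf
  set A := algebraMap F (PowerSeries F) with hA
  set e := (bil ψ u u)⁻¹ with he
  have heu : e * bil ψ u u = 1 := inv_mul_cancel₀ hu
  have hev : (bil ψ v v)⁻¹ * bil ψ v v = 1 := inv_mul_cancel₀ hv
  set wP : ι → Polynomial F := fun i ↦ Polynomial.C (u i) + Polynomial.X * Polynomial.C (v i - u i)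
    with hwP
  let φ : Polynomial F →ₐ[F] PowerSeries F :=
    { Polynomial.coeToPowerSeries.ringHom with
      commutes' := by
        intro r
        simp [Polynomial.algebraMap_apply] }
  have hφinj : Function.Injective φ := Polynomial.coe_injective F
  have hφC : ∀ a, φ (Polynomial.C a) = A a := fun a ↦ φ.commutes a
  set wS : ι → PowerSeries F := fun i ↦ φ (wP i) with hwS
  set ψP := ψ.map (algebraMap F (Polynomial F)) with hψP
  set ψS := ψ.map A with hψS
  have hψSt : ψSᵀ = ψS := by rw [hψS, ← Matrix.transpose_map, hψ]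
  have hψPt : ψPᵀ = ψP := by rw [hψP, ← Matrix.transpose_map, hψ]
  have hψPS : ψP.map φ = ψS := by
    ext1 i j
    rw [hψP, hψS, Matrix.map_apply, Matrix.map_apply, Matrix.map_apply]
    exact φ.commutes _
  set δP : Polynomial F := bil ψP wP wP with hδP
  set δS : PowerSeries F := bil ψS wS wS with hδS
  have hδ : φ δP = δS := by
    rw [hδP, hδS]
    have := bil_map (ψ := ψP) (φ : Polynomial F →+* PowerSeries F) wP wP
    rw [RingHom.coe_coe, hψPS] at this
    exact this
  -- evaluation at zero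
  have hcc : ∀ p : Polynomial F, PowerSeries.constantCoeff (φ p) = p.eval 0 := by
    intro p
    change PowerSeries.constantCoeff (p : PowerSeries F) = p.eval 0
    rw [← PowerSeries.coeff_zero_eq_constantCoeff_apply, Polynomial.coeff_coe,
      Polynomial.coeff_zero_eq_eval_zero]
  have hw0 : ∀ i, PowerSeries.constantCoeff (wS i) = u i := by
    intro i
    rw [hwS, hcc, hwP]
    simp
  have hψ0 : ψS.map (PowerSeries.constantCoeff : PowerSeries F →+* F) = ψ := by
    ext1 i j
    rw [hψS, Matrix.map_apply, Matrix.map_apply]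
    exact PowerSeries.constantCoeff_C _
  have hδ0 : PowerSeries.constantCoeff δS = bil ψ u u := by
    rw [hδS]
    have := bil_map (ψ := ψS) (PowerSeries.constantCoeff : PowerSeries F →+* F) wS wS
    rw [hψ0] at this
    simp only [hw0] at this
    exact this
  have hδ0' : PowerSeries.constantCoeff δS ≠ 0 := by rw [hδ0]; exact hu
  have heS : δS⁻¹ * δS = 1 := PowerSeries.inv_mul_cancel _ hδ0'
  -- the curve
  set c : Matrix ι ι (PowerSeries F) := (refl ψ u e).map A * refl ψS wS δS⁻¹ with hc
  have hreflA : (refl ψ u e).map A = refl ψS (fun i ↦ A (u i)) (A e) := by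
    rw [hψS, ← refl_map]
  have hbilA : ∀ a b : ι → F, bil ψS (fun i ↦ A (a i)) (fun i ↦ A (b i)) = A (bil ψ a b) := by
    intro a b
    rw [hψS, ← bil_map]
  have hwSe : wS = fun i ↦ A (u i) + PowerSeries.X * A (v i - u i) := by
    ext1 i
    rw [hwS]
    simp only [hwP, map_add, map_mul, hφC]
    congr 2
    exact Polynomial.coe_X
  have hwSN : ∀ w ∈ N, bil ψS wS (fun i ↦ A (w i)) = 0 := by
    intro w hw
    have h1 : wS = (fun i ↦ A (u i)) + (PowerSeries.X : PowerSeries F) • (fun i ↦ A ((v - u) i)) := by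
      rw [hwSe]; rfl
    rw [h1, bil_add_left, bil_smul_left, hbilA, hbilA, huN w hw, bil_sub_left, huN w hw, hvN w hw]
    simp
  have hciso : cᵀ * ψS * c = ψS := by
    have h1 := refl_isom hψSt (u := wS) heS
    have h2 : ((refl ψ u e).map A)ᵀ * ψS * (refl ψ u e).map A = ψS := by
      rw [hreflA]
      exact refl_isom hψSt (by rw [hbilA, ← map_mul, heu, map_one])
    rw [hc, Matrix.transpose_mul]
    calc (refl ψS wS δS⁻¹)ᵀ * ((refl ψ u e).map A)ᵀ * ψS * ((refl ψ u e).map A * refl ψS wS δS⁻¹)
        = (refl ψS wS δS⁻¹)ᵀ * (((refl ψ u e).map A)ᵀ * ψS * (refl ψ u e).map A) *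
          refl ψS wS δS⁻¹ := by simp only [Matrix.mul_assoc]
      _ = ψS := by rw [h2, h1]
  have hcN : ∀ w ∈ N, c *ᵥ (fun i ↦ A (w i)) = fun i ↦ A (w i) := by
    intro w hw
    rw [hc, ← Matrix.mulVec_mulVec, refl_mulVec hψSt, hwSN w hw, mul_zero, zero_smul, sub_zero,
      hreflA, refl_mulVec hψSt, hbilA, huN w hw]
    simp
  have hc0 : ∀ i k, PowerSeries.coeff 0 (c i k) = (1 : Matrix ι ι F) i k := by
    have h1 : c.map (PowerSeries.constantCoeff : PowerSeries F →+* F) = 1 := by
      rw [hc, Matrix.map_mul]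
      have h2 : ((refl ψ u e).map A).map (PowerSeries.constantCoeff : PowerSeries F →+* F) =
          refl ψ u e := by
        ext1 i j
        rw [Matrix.map_apply, Matrix.map_apply]
        exact PowerSeries.constantCoeff_C _
      have h3 : (refl ψS wS δS⁻¹).map (PowerSeries.constantCoeff : PowerSeries F →+* F) =
          refl ψ u e := by
        rw [refl_map, hψ0, PowerSeries.constantCoeff_inv, hδ0]
        congr 1
        ext1 i
        exact hw0 i
      rw [h2, h3, refl_mul_self hψ heu]
    intro i k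
    rw [PowerSeries.coeff_zero_eq_constantCoeff_apply]
    exact congrFun (congrFun h1 i) k
  obtain ⟨y, hy1, hy2⟩ := exists_log_derivative hψ hdet hciso hcN
  have hzero : evM (M₀.map A * c) f = 0 :=
    evM_eq_zero_of_curve hstab hM₀ hc0 hy1 hy2 f hf
  -- homogenise
  obtain ⟨m, fh, hfh⟩ := exists_homog f
  set CP : Matrix ι ι (Polynomial F) := M₀.map (algebraMap F (Polynomial F)) *
    ((refl ψ u e).map (algebraMap F (Polynomial F)) *
      (δP • (1 : Matrix ι ι (Polynomial F)) - (2 : Polynomial F) • vecMulVec wP (ψP *ᵥ wP)))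
    with hCP
  have hscale : ∀ {R : Type _} [CommRing R] (ψR : Matrix ι ι R) (w : ι → R) (d e : R), e * d = 1 →
      d • (1 : Matrix ι ι R) - (2 : R) • vecMulVec w (ψR *ᵥ w) = d • refl ψR w e := by
    intro R _ ψR w d e hde
    unfold refl
    rw [smul_sub, smul_smul]
    congr 2
    linear_combination (-2) * hde
  have hCPS : ∀ p : ι × ι, φ (CP p.1 p.2) = δS * (M₀.map A * c) p.1 p.2 := by
    intro p
    have h1 : CP.map φ = δS • (M₀.map A * c) := by
      have h2 : (M₀.map (algebraMap F (Polynomial F))).map φ = M₀.map A := by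
        ext1 i j
        rw [Matrix.map_apply, Matrix.map_apply, Matrix.map_apply]
        exact φ.commutes _
      have h3 : ((refl ψ u e).map (algebraMap F (Polynomial F))).map φ = (refl ψ u e).map A := by
        ext1 i j
        rw [Matrix.map_apply, Matrix.map_apply, Matrix.map_apply]
        exact φ.commutes _
      have h4 : (δP • (1 : Matrix ι ι (Polynomial F)) -
          (2 : Polynomial F) • vecMulVec wP (ψP *ᵥ wP)).map φ =
          δS • (1 : Matrix ι ι (PowerSeries F)) - (2 : PowerSeries F) • vecMulVec wS (ψS *ᵥ wS) := by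
        ext1 i j
        rw [Matrix.map_apply, Matrix.sub_apply, Matrix.sub_apply, Matrix.smul_apply,
          Matrix.smul_apply, Matrix.smul_apply, Matrix.smul_apply, vecMulVec_apply,
          vecMulVec_apply, map_sub, smul_eq_mul, smul_eq_mul, smul_eq_mul, smul_eq_mul, map_mul,
          map_mul, map_mul, hδ, map_ofNat]
        congr 1
        · rw [Matrix.one_apply, Matrix.one_apply]
          split_ifs <;> simp
        · rw [← hψPS]
          simp only [mulVec, dotProduct, map_sum, map_mul, Matrix.map_apply, hwS]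
      have h5 : CP.map (φ : Polynomial F →+* PowerSeries F) = CP.map φ := rfl
      rw [← h5, hCP, Matrix.map_mul, Matrix.map_mul]
      change (M₀.map (algebraMap F (Polynomial F))).map φ *
        (((refl ψ u e).map (algebraMap F (Polynomial F))).map φ *
          (δP • (1 : Matrix ι ι (Polynomial F)) -
          (2 : Polynomial F) • vecMulVec wP (ψP *ᵥ wP)).map φ) = _
      rw [h2, h3, h4, hscale ψS wS δS δS⁻¹ heS, hc, Matrix.mul_smul, Matrix.mul_smul]
    have := congrFun (congrFun h1 p.1) p.2
    rw [Matrix.smul_apply, smul_eq_mul] at this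
    exact this
  have hS := hfh δS (fun p : ι × ι ↦ (M₀.map A * c) p.1 p.2) (fun p ↦ φ (CP p.1 p.2)) hCPS
  have hS' : MvPolynomial.aeval (fun p : ι × ι ↦ (M₀.map A * c) p.1 p.2) f = 0 := hzero
  rw [hS', mul_zero] at hS
  have hP : MvPolynomial.aeval (fun o : Option (ι × ι) ↦ o.elim δP (fun p ↦ CP p.1 p.2)) fh = 0 := by
    apply hφinj
    rw [map_zero, ← hS, MvPolynomial.comp_aeval_apply]
    congr 2
    ext1 o
    cases o with
    | none => simp [hδ]
    | some p => simp
  -- evaluate at one
  have h1 := congrArg (Polynomial.aeval (1 : F)) hP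
  rw [map_zero, MvPolynomial.comp_aeval_apply] at h1
  have hw1 : ∀ i, Polynomial.aeval (1 : F) (wP i) = v i := by
    intro i
    rw [hwP]; simp
  have hψ1 : ψP.map (Polynomial.aeval (1 : F) : Polynomial F →ₐ[F] F) = ψ := by
    ext1 i j
    rw [hψP, Matrix.map_apply, Matrix.map_apply]
    simp
  have hδ1 : Polynomial.aeval (1 : F) δP = bil ψ v v := by
    rw [hδP]
    have := bil_map (ψ := ψP) ((Polynomial.aeval (1 : F) : Polynomial F →ₐ[F] F) :
      Polynomial F →+* F) wP wP
    rw [RingHom.coe_coe, hψ1] at this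
    simp only [hw1] at this
    exact this
  have hCP1 : ∀ p : ι × ι, Polynomial.aeval (1 : F) (CP p.1 p.2) = bil ψ v v *
      (M₀ * (refl ψ u e * refl ψ v (bil ψ v v)⁻¹)) p.1 p.2 := by
    intro p
    have h1 : CP.map (Polynomial.aeval (1 : F) : Polynomial F →ₐ[F] F) = bil ψ v v •
        (M₀ * (refl ψ u e * refl ψ v (bil ψ v v)⁻¹)) := by
      have h2 : ∀ M : Matrix ι ι F, (M.map (algebraMap F (Polynomial F))).map
          (Polynomial.aeval (1 : F) : Polynomial F →ₐ[F] F) = M := by
        intro M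
        ext1 i j
        rw [Matrix.map_apply, Matrix.map_apply]
        simp
      have h4 : (δP • (1 : Matrix ι ι (Polynomial F)) -
          (2 : Polynomial F) • vecMulVec wP (ψP *ᵥ wP)).map
          (Polynomial.aeval (1 : F) : Polynomial F →ₐ[F] F) =
          bil ψ v v • (1 : Matrix ι ι F) - (2 : F) • vecMulVec v (ψ *ᵥ v) := by
        ext1 i j
        rw [Matrix.map_apply, Matrix.sub_apply, Matrix.sub_apply, Matrix.smul_apply,
          Matrix.smul_apply, Matrix.smul_apply, Matrix.smul_apply, vecMulVec_apply,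
          vecMulVec_apply, map_sub, smul_eq_mul, smul_eq_mul, smul_eq_mul, smul_eq_mul, map_mul,
          map_mul, map_mul, hδ1, map_ofNat, hw1]
        congr 1
        · rw [Matrix.one_apply, Matrix.one_apply]
          split_ifs <;> simp
        · conv_rhs => rw [← hψ1]
          simp only [mulVec, dotProduct, map_sum, map_mul, Matrix.map_apply, hw1]
      have h5 : CP.map ((Polynomial.aeval (1 : F) : Polynomial F →ₐ[F] F) :
        Polynomial F →+* F) = CP.map (Polynomial.aeval (1 : F) : Polynomial F →ₐ[F] F) := rfl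
      rw [← h5, hCP, Matrix.map_mul, Matrix.map_mul]
      change (M₀.map (algebraMap F (Polynomial F))).map
          (Polynomial.aeval (1 : F) : Polynomial F →ₐ[F] F) *
        (((refl ψ u e).map (algebraMap F (Polynomial F))).map
          (Polynomial.aeval (1 : F) : Polynomial F →ₐ[F] F) *
          (δP • (1 : Matrix ι ι (Polynomial F)) -
          (2 : Polynomial F) • vecMulVec wP (ψP *ᵥ wP)).map
          (Polynomial.aeval (1 : F) : Polynomial F →ₐ[F] F)) = _
      rw [h2, h2, h4, hscale ψ v (bil ψ v v) (bil ψ v v)⁻¹ hev, Matrix.mul_smul, Matrix.mul_smul]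
    have := congrFun (congrFun h1 p.1) p.2
    rw [Matrix.smul_apply, smul_eq_mul] at this
    exact this
  have hF := hfh (bil ψ v v)
    (fun p : ι × ι ↦ (M₀ * (refl ψ u e * refl ψ v (bil ψ v v)⁻¹)) p.1 p.2)
    (fun p ↦ Polynomial.aeval (1 : F) (CP p.1 p.2)) hCP1
  have h2 : MvPolynomial.aeval (fun o : Option (ι × ι) ↦ o.elim (bil ψ v v)
      (fun p ↦ Polynomial.aeval (1 : F) (CP p.1 p.2))) fh = 0 := by
    rw [← h1]
    congr 2
    ext1 o
    cases o with
    | none => simp [hδ1]
    | some p => simp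
  rw [h2] at hF
  have hpow : bil ψ v v ^ m ≠ 0 := pow_ne_zero _ hv
  exact (mul_eq_zero.mp hF.symm).resolve_left hpow

end Pool.Agent.Helper88.MT
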