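import Mathlib
import Pool.Agent.Helper88.MT.Curve

/-!
# Isometries are products of reflections
-/

set_option linter.unusedSectionVars false

namespace Pool.Agent.Helper88.MT

open Matrix Module

variable {ι : Type*} [Fintype ι] [DecidableEq ι]
variable {F : Type*} [Field F] [CharZero F]

/-- The bilinear form with matrix `ψ`, as a bilinear form. -/
def bilF (ψ : Matrix ι ι F) : LinearMap.BilinForm F (ι → F) :=
  LinearMap.mk₂ F (bil ψ) (fun u v w ↦ bil_add_left u v w) (fun c v w ↦ bil_smul_left c v w)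
    (fun u v w ↦ bil_add_right u v w) (fun c v w ↦ bil_smul_right c v w)

@[simp] lemma bilF_apply (ψ : Matrix ι ι F) (v w : ι → F) : bilF ψ v w = bil ψ v w := rfl

lemma eq_zero_of_bil {ψ : Matrix ι ι F} (hψ : ψᵀ = ψ) (hdet : ψ.det ≠ 0) {v : ι → F}
    (h : ∀ w, bil ψ v w = 0) : v = 0 := by
  have h1 : ψ *ᵥ v = 0 := by
    ext i
    have := h (Pi.single i 1)
    rw [bil_symm hψ] at this
    unfold bil at this
    rw [single_dotProduct, one_mul] at this
    exact this
  have h2 : ψ⁻¹ *ᵥ (ψ *ᵥ v) = 0 := by rw [h1, mulVec_zero]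
  rwa [mulVec_mulVec, Matrix.nonsing_inv_mul _ (isUnit_iff_ne_zero.mpr hdet), one_mulVec] at h2

lemma bilF_nondegenerate {ψ : Matrix ι ι F} (hψ : ψᵀ = ψ) (hdet : ψ.det ≠ 0) :
    (bilF ψ).Nondegenerate :=
  ⟨fun v hv ↦ eq_zero_of_bil hψ hdet hv,
    fun v hv ↦ eq_zero_of_bil hψ hdet fun w ↦ by rw [bil_symm hψ]; exact hv w⟩

/-- The reflection in an anisotropic vector. -/
noncomputable def reflA (ψ : Matrix ι ι F) (u : ι → F) : Matrix ι ι F :=
  refl ψ u (bil ψ u u)⁻¹

lemma eq_of_forall_mulVec {M N : Matrix ι ι F} (h : ∀ v, M *ᵥ v = N *ᵥ v) : M = N :=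
  Matrix.mulVec_injective (funext h)

/-- Cartan-Dieudonné, weak form: an isometry fixing the orthogonal of a nondegenerate subspace is
a product of reflections in vectors of this subspace. -/
lemma exists_refl_prod {ψ : Matrix ι ι F} (hψ : ψᵀ = ψ) (hdet : ψ.det ≠ 0) (k : ℕ) :
    ∀ T : Submodule F (ι → F), finrank F T = k → (∀ v ∈ T, (∀ w ∈ T, bil ψ v w = 0) → v = 0) →
    ∀ g : Matrix ι ι F, gᵀ * ψ * g = ψ → (∀ v, (∀ w ∈ T, bil ψ v w = 0) → g *ᵥ v = v) →
    ∃ l : List (ι → F), (∀ u ∈ l, u ∈ T ∧ bil ψ u u ≠ 0) ∧ g = (l.map (reflA ψ)).prod := by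
  induction k with
  | zero =>
    intro T hT _ g _ hfix
    refine ⟨[], by simp, ?_⟩
    rw [List.map_nil, List.prod_nil]
    apply eq_of_forall_mulVec
    intro v
    rw [one_mulVec]
    apply hfix
    intro w hw
    have : T = ⊥ := Submodule.finrank_eq_zero.mp hT
    rw [this, Submodule.mem_bot] at hw
    rw [hw]; simp [bil]
  | succ k ih =>
    intro T hT hnd g hg hfix
    -- an anisotropic vector
    obtain ⟨u, huT, hu⟩ : ∃ u ∈ T, bil ψ u u ≠ 0 := by
      by_contra! hcon
      have h1 : T = ⊥ := by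
        rw [eq_bot_iff]
        intro v hv
        rw [Submodule.mem_bot]
        apply hnd v hv
        intro w hw
        have h2 := hcon (v + w) (T.add_mem hv hw)
        rw [bil_add_left, bil_add_right, bil_add_right, hcon v hv, hcon w hw, bil_symm hψ w v]
          at h2
        have h3 : (2 : F) * bil ψ v w = 0 := by linear_combination h2
        exact (mul_eq_zero.mp h3).resolve_left two_ne_zero
      rw [h1, finrank_bot] at hT
      omega
    have huinv : (bil ψ u u)⁻¹ * bil ψ u u = 1 := inv_mul_cancel₀ hu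
    -- `g u` is in `T`
    have hguT : g *ᵥ u ∈ T := by
      have h1 : (bilF ψ).IsRefl := fun x y h ↦ by
        rw [bilF_apply] at h ⊢; rw [bil_symm hψ, h]
      have h2 := LinearMap.BilinForm.orthogonal_orthogonal (bilF_nondegenerate hψ hdet) h1 T
      rw [← h2, LinearMap.BilinForm.mem_orthogonal_iff]
      intro z hz
      rw [LinearMap.BilinForm.mem_orthogonal_iff] at hz
      have hz' : ∀ w ∈ T, bil ψ z w = 0 := fun w hw ↦ by
        rw [bil_symm hψ]; exact hz w hw
      have h3 := bil_mulVec hg z u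
      rw [hfix z hz'] at h3
      change bil ψ z (g *ᵥ u) = 0
      rw [h3]
      exact hz' u huT
    -- the smaller subspace
    let T' : Submodule F (ι → F) := T ⊓ LinearMap.ker (bilF ψ u)
    have hT'mem : ∀ v, v ∈ T' ↔ v ∈ T ∧ bil ψ u v = 0 := fun v ↦ Iff.rfl
    have hsplit : ∀ v ∈ T, v - ((bil ψ u u)⁻¹ * bil ψ u v) • u ∈ T' := by
      intro v hv
      rw [hT'mem]
      refine ⟨T.sub_mem hv (T.smul_mem _ huT), ?_⟩
      rw [bil_sub_right, bil_smul_right]
      linear_combination (-bil ψ u v) * huinv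
    have hT'nd : ∀ v ∈ T', (∀ w ∈ T', bil ψ v w = 0) → v = 0 := by
      intro v hv h
      rw [hT'mem] at hv
      apply hnd v hv.1
      intro w hw
      have h1 := h _ (hsplit w hw)
      rw [bil_sub_right, bil_smul_right, bil_symm hψ v u, hv.2, mul_zero, sub_zero] at h1
      exact h1
    have hT'k : finrank F T' = k := by
      have h1 : T = T' ⊔ Submodule.span F {u} := by
        apply le_antisymm
        · intro v hv
          have := hsplit v hv
          have h2 : v = (v - ((bil ψ u u)⁻¹ * bil ψ u v) • u) + ((bil ψ u u)⁻¹ * bil ψ u v) • u := by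
            abel
          rw [h2]
          exact Submodule.add_mem_sup this
            (Submodule.smul_mem _ _ (Submodule.mem_span_singleton_self u))
        · refine sup_le inf_le_left ?_
          rw [Submodule.span_singleton_le_iff_mem]; exact huT
      have h2 : T' ⊓ Submodule.span F {u} = ⊥ := by
        rw [eq_bot_iff]
        rintro v ⟨hv1, hv2⟩
        obtain ⟨a, rfl⟩ := Submodule.mem_span_singleton.mp hv2
        have h3 := ((hT'mem _).mp hv1).2
        rw [bil_smul_right] at h3
        have : a = 0 := (mul_eq_zero.mp h3).resolve_right hu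
        rw [this, zero_smul]; exact Submodule.zero_mem _
      have hu0 : u ≠ 0 := by rintro rfl; apply hu; simp [bil]
      have h3 := Submodule.finrank_sup_add_finrank_inf_eq T' (Submodule.span F {u})
      rw [← h1, h2, finrank_bot, hT, finrank_span_singleton hu0] at h3
      omega
    -- key: an isometry fixing `u` and the orthogonal of `T` fixes the orthogonal of `T'`
    have hkey : ∀ g' : Matrix ι ι F, g' *ᵥ u = u → (∀ v, (∀ w ∈ T, bil ψ v w = 0) → g' *ᵥ v = v) →
        ∀ v, (∀ w ∈ T', bil ψ v w = 0) → g' *ᵥ v = v := by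
      intro g' hg'u hg' v hv
      set a := (bil ψ u u)⁻¹ * bil ψ u v with ha
      have h1 : ∀ w ∈ T, bil ψ (v - a • u) w = 0 := by
        intro w hw
        have h2 := hv _ (hsplit w hw)
        rw [bil_sub_right, bil_smul_right] at h2
        rw [bil_sub_left, bil_smul_left, ha]
        rw [bil_symm hψ v u] at h2
        linear_combination h2
      have h2 : v = (v - a • u) + a • u := by abel
      rw [h2, mulVec_add, mulVec_smul, hg' _ h1, hg'u]
    -- reflections in vectors of `T` fix the orthogonal of `T`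
    have hreflfix : ∀ z ∈ T, ∀ v, (∀ w ∈ T, bil ψ v w = 0) → reflA ψ z *ᵥ v = v := by
      intro z hz v hv
      rw [reflA, refl_mulVec hψ, bil_symm hψ z v, hv z hz, mul_zero, zero_smul, sub_zero]
    have hiso : ∀ z, bil ψ z z ≠ 0 → ∀ g' : Matrix ι ι F, g'ᵀ * ψ * g' = ψ →
        (reflA ψ z * g')ᵀ * ψ * (reflA ψ z * g') = ψ := by
      intro z hz g' hg'
      have h1 := refl_isom hψ (inv_mul_cancel₀ hz)
      calc (reflA ψ z * g')ᵀ * ψ * (reflA ψ z * g')
          = g'ᵀ * ((reflA ψ z)ᵀ * ψ * reflA ψ z) * g' := by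
            rw [Matrix.transpose_mul]; simp only [Matrix.mul_assoc]
        _ = ψ := by rw [reflA, h1, hg']
    have hinvol : ∀ z, bil ψ z z ≠ 0 → reflA ψ z * reflA ψ z = 1 := fun z hz ↦
      refl_mul_self hψ (inv_mul_cancel₀ hz)
    have hBgu : bil ψ (g *ᵥ u) (g *ᵥ u) = bil ψ u u := bil_mulVec hg u u
    set a := u - g *ᵥ u with ha
    set b := u + g *ᵥ u with hb
    have haT : a ∈ T := T.sub_mem huT hguT
    have hbT : b ∈ T := T.add_mem huT hguT
    by_cases haa : bil ψ a a ≠ 0
    · -- first case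
      have h1 : reflA ψ a *ᵥ (g *ᵥ u) = u := by
        rw [reflA, refl_mulVec hψ]
        have h2 : bil ψ a a = -(2 * bil ψ a (g *ᵥ u)) := by
          rw [ha]
          simp only [bil_sub_left, bil_sub_right, hBgu, bil_symm hψ (g *ᵥ u) u]
          ring
        have h3 : 2 * (bil ψ a a)⁻¹ * bil ψ a (g *ᵥ u) = -1 := by
          have h4 : bil ψ a (g *ᵥ u) = -(2⁻¹ * bil ψ a a) := by rw [h2]; ring
          rw [h4]
          field_simp
        rw [h3, neg_one_smul, sub_neg_eq_add, ha]
        abel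
      have h2 : (reflA ψ a * g) *ᵥ u = u := by rw [← mulVec_mulVec, h1]
      obtain ⟨l, hl, hl'⟩ := ih T' hT'k hT'nd (reflA ψ a * g) (hiso a haa g hg)
        (hkey _ h2 (fun v hv ↦ by rw [← mulVec_mulVec, hfix v hv, hreflfix a haT v hv]))
      refine ⟨a :: l, ?_, ?_⟩
      · intro z hz
        rcases List.mem_cons.mp hz with rfl | hz
        · exact ⟨haT, haa⟩
        · exact ⟨((hT'mem _).mp (hl z hz).1).1, (hl z hz).2⟩
      · rw [List.map_cons, List.prod_cons, ← hl', ← Matrix.mul_assoc, hinvol a haa, Matrix.one_mul]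
    · -- second case
      rw [not_not] at haa
      have hbb : bil ψ b b ≠ 0 := by
        intro hbb
        have h1 : bil ψ a a + bil ψ b b = 4 * bil ψ u u := by
          rw [ha, hb]
          simp only [bil_sub_left, bil_sub_right, bil_add_left, bil_add_right, hBgu]
          ring
        rw [haa, hbb, add_zero] at h1
        have h4 : (4 : F) ≠ 0 := by norm_num
        exact hu ((mul_eq_zero.mp h1.symm).resolve_left h4)
      have h1 : reflA ψ b *ᵥ (g *ᵥ u) = -u := by
        rw [reflA, refl_mulVec hψ]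
        have h2 : bil ψ b b = 2 * bil ψ b (g *ᵥ u) := by
          rw [hb]
          simp only [bil_add_left, bil_add_right, hBgu, bil_symm hψ (g *ᵥ u) u]
          ring
        have h3 : 2 * (bil ψ b b)⁻¹ * bil ψ b (g *ᵥ u) = 1 := by
          have h4 : bil ψ b (g *ᵥ u) = 2⁻¹ * bil ψ b b := by rw [h2]; ring
          rw [h4]
          field_simp
        rw [h3, one_smul, hb]
        abel
      have h1' : reflA ψ u *ᵥ (-u) = u := by
        rw [reflA, refl_mulVec hψ]
        have h3 : 2 * (bil ψ u u)⁻¹ * bil ψ u (-u) = -2 := by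
          have : bil ψ u (-u) = - bil ψ u u := by
            rw [← neg_one_smul F u, bil_smul_right]; ring
          rw [this]
          field_simp
        rw [h3]
        module
      have h2 : (reflA ψ u * (reflA ψ b * g)) *ᵥ u = u := by
        rw [← mulVec_mulVec, ← mulVec_mulVec, h1, h1']
      obtain ⟨l, hl, hl'⟩ := ih T' hT'k hT'nd (reflA ψ u * (reflA ψ b * g))
        (hiso u hu _ (hiso b hbb g hg))
        (hkey _ h2 (fun v hv ↦ by
          rw [← mulVec_mulVec, ← mulVec_mulVec, hfix v hv, hreflfix b hbT v hv,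
            hreflfix u huT v hv]))
      refine ⟨b :: u :: l, ?_, ?_⟩
      · intro z hz
        rcases List.mem_cons.mp hz with rfl | hz
        · exact ⟨hbT, hbb⟩
        rcases List.mem_cons.mp hz with rfl | hz
        · exact ⟨huT, hu⟩
        · exact ⟨((hT'mem _).mp (hl z hz).1).1, (hl z hz).2⟩
      · rw [List.map_cons, List.map_cons, List.prod_cons, List.prod_cons, ← hl',
          ← Matrix.mul_assoc (reflA ψ u), hinvol u hu, Matrix.one_mul, ← Matrix.mul_assoc,
          hinvol b hbb, Matrix.one_mul]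

/-- Induction over products of an even number of reflections. -/
lemma evM_refl_prod {ψ : Matrix ι ι F} (hψ : ψᵀ = ψ) (hdet : ψ.det ≠ 0) {N : Set (ι → F)}
    {𝓘 : Set (MvPolynomial (ι × ι) F)} (hstab : ∀ x ∈ soT ψ N, ∀ f ∈ 𝓘, der x f ∈ 𝓘) (m : ℕ) :
    ∀ l : List (ι → F), l.length = 2 * m →
      (∀ u ∈ l, bil ψ u u ≠ 0 ∧ ∀ w ∈ N, bil ψ u w = 0) →
      ∀ M₀ : Matrix ι ι F, (∀ f ∈ 𝓘, evM M₀ f = 0) →
      ∀ f ∈ 𝓘, evM (M₀ * (l.map (reflA ψ)).prod) f = 0 := by
  induction m with
  | zero =>
    intro l hl _ M₀ hM₀ f hf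
    rw [mul_zero, List.length_eq_zero_iff] at hl
    rw [hl, List.map_nil, List.prod_nil, mul_one]
    exact hM₀ f hf
  | succ m ih =>
    intro l hl hlN M₀ hM₀ f hf
    match l, hl, hlN with
    | u :: v :: l, hl, hlN =>
      have hu := hlN u (by simp)
      have hv := hlN v (by simp)
      have h1 := evM_refl_refl hψ hdet hstab hM₀ hu.1 hv.1 hu.2 hv.2
      have h2 := ih l (by simp only [List.length_cons] at hl; omega)
        (fun z hz ↦ hlN z (by simp [hz])) _ h1 f hf
      rw [List.map_cons, List.map_cons, List.prod_cons, List.prod_cons, ← mul_assoc (reflA ψ u),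
        ← mul_assoc M₀]
      exact h2

/-- The key lemma: polynomials of a family stable under all invariant derivations along the
orthogonal Lie algebra and vanishing at the identity vanish on the special orthogonal group. -/
lemma evM_eq_zero_of_mem_SOT {ψ : Matrix ι ι F} (hψ : ψᵀ = ψ) (hdet : ψ.det ≠ 0)
    {N : Submodule F (ι → F)} (hN : ∀ v ∈ N, (∀ w ∈ N, bil ψ v w = 0) → v = 0)
    {𝓘 : Set (MvPolynomial (ι × ι) F)}
    (hstab : ∀ x ∈ soT ψ (N : Set (ι → F)), ∀ f ∈ 𝓘, der x f ∈ 𝓘)
    (h1 : ∀ f ∈ 𝓘, evM (1 : Matrix ι ι F) f = 0) {g : Matrix ι ι F}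
    (hg : g ∈ SOT ψ (N : Set (ι → F))) :
    ∀ f ∈ 𝓘, evM g f = 0 := by
  obtain ⟨hg1, hg2, hg3⟩ := hg
  have hrefl : (bilF ψ).IsRefl := fun x y h ↦ by
    rw [bilF_apply] at h ⊢; rw [bil_symm hψ, h]
  set T := (bilF ψ).orthogonal N with hT
  have hTmem : ∀ v, v ∈ T ↔ ∀ w ∈ N, bil ψ w v = 0 := fun v ↦ by
    rw [hT, LinearMap.BilinForm.mem_orthogonal_iff]; rfl
  have hTT : (bilF ψ).orthogonal T = N :=
    LinearMap.BilinForm.orthogonal_orthogonal (bilF_nondegenerate hψ hdet) hrefl N
  have hTorth : ∀ v, (∀ w ∈ T, bil ψ v w = 0) → v ∈ N := by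
    intro v hv
    rw [← hTT, LinearMap.BilinForm.mem_orthogonal_iff]
    intro w hw
    change bil ψ w v = 0
    rw [bil_symm hψ]; exact hv w hw
  have hTnd : ∀ v ∈ T, (∀ w ∈ T, bil ψ v w = 0) → v = 0 := by
    intro v hv h
    have hvN := hTorth v h
    apply hN v hvN
    intro w hw
    rw [bil_symm hψ]
    exact (hTmem v).mp hv w hw
  obtain ⟨l, hl, hgl⟩ := exists_refl_prod hψ hdet (finrank F T) T rfl hTnd g hg1
    (fun v hv ↦ hg3 v (hTorth v hv))
  -- the length is even
  have hlen : Even l.length := by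
    have h2 : ∀ l : List (ι → F), (∀ u ∈ l, bil ψ u u ≠ 0) →
        ((l.map (reflA ψ)).prod).det = (-1) ^ l.length := by
      intro l
      induction l with
      | nil => intro _; simp
      | cons u l ih =>
        intro h
        rw [List.map_cons, List.prod_cons, Matrix.det_mul,
          ih (fun z hz ↦ h z (List.mem_cons_of_mem _ hz)), List.length_cons, pow_succ', reflA,
          det_refl hψ (inv_mul_cancel₀ (h u (by simp)))]
    have h3 := h2 l (fun u hu ↦ (hl u hu).2)
    rw [← hgl, hg2] at h3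
    by_contra hodd
    rw [Nat.not_even_iff_odd] at hodd
    rw [hodd.neg_one_pow] at h3
    have : (2 : F) = 0 := by linear_combination h3
    exact two_ne_zero this
  obtain ⟨m, hm⟩ := hlen
  intro f hf
  have h4 := evM_refl_prod hψ hdet hstab m l (by omega)
    (fun u hu ↦ ⟨(hl u hu).2, fun w hw ↦ by
      rw [bil_symm hψ]; exact (hTmem u).mp (hl u hu).1 w hw⟩) 1 h1 f hf
  rw [one_mul, ← hgl] at h4
  exact h4

end Pool.Agent.Helper88.MT
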