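import Mathlib
import Pool.Agent.Helper88.MT.CartanD

/-!
# Field extensions
-/

set_option linter.unusedSectionVars false

namespace Pool.Agent.Helper88.MT

open Matrix Module

variable {ι : Type*} [Fintype ι] [DecidableEq ι]
variable {k F : Type*} [Field k] [Field F] [Algebra k F]

section Vec

/-- The coordinates of a vector over a larger field. -/
noncomputable def vcoord {B : Type*} (b : Basis B k F) {κ : Type*} (j : B) :
    (κ → F) →ₗ[k] (κ → k) where
  toFun v := fun i ↦ b.repr (v i) j
  map_add' v w := by ext i; simp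
  map_smul' c v := by ext i; simp

variable {B : Type*} (b : Basis B k F)

lemma vcoord_apply {κ : Type*} (j : B) (v : κ → F) (i : κ) : vcoord b j v i = b.repr (v i) j := rfl

lemma vcoord_smul_vmap {κ : Type*} (j : B) (c : F) (v : κ → k) :
    vcoord b j (c • vmap F v) = (b.repr c j) • v := by
  ext i
  rw [vcoord_apply, Pi.smul_apply, smul_eq_mul, vmap, mul_comm, ← Algebra.smul_def]
  simp [mul_comm]

lemma eq_zero_of_vcoord {κ : Type*} {v : κ → F} (h : ∀ j, vcoord b j v = 0) : v = 0 := by
  ext i
  rw [Pi.zero_apply]
  apply b.repr.injective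
  ext j
  have := congrFun (h j) i
  rw [vcoord_apply] at this
  simpa using this

/-- A vector is the combination of its coordinates. -/
lemma mem_span_vcoord {κ : Type*} [Finite κ] (v : κ → F) {W : Submodule F (κ → F)}
    (h : ∀ j, vmap F (vcoord b j v) ∈ W) : v ∈ W := by
  classical
  have : Fintype κ := Fintype.ofFinite κ
  set s : Finset B := Finset.univ.biUnion (fun i : κ ↦ (b.repr (v i)).support) with hs
  have h1 : v = ∑ j ∈ s, b j • vmap F (vcoord b j v) := by
    ext i
    rw [Finset.sum_apply]
    conv_lhs => rw [← b.linearCombination_repr (v i), Finsupp.linearCombination_apply]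
    rw [Finsupp.sum_of_support_subset (s := s)]
    · refine Finset.sum_congr rfl fun j _ ↦ ?_
      rw [Pi.smul_apply, smul_eq_mul, vmap, vcoord_apply, Algebra.smul_def, mul_comm]
    · intro j hj
      rw [hs, Finset.mem_biUnion]
      exact ⟨i, Finset.mem_univ i, hj⟩
    · intro j _
      rw [zero_smul]
  rw [h1]
  exact W.sum_mem fun j _ ↦ W.smul_mem _ (h j)

lemma vmap_mem_smap {κ : Type*} {N : Submodule k (κ → k)} {v : κ → k} (hv : v ∈ N) :
    vmap F v ∈ smap F N := Submodule.subset_span ⟨v, hv, rfl⟩

lemma vcoord_smul_mem {κ : Type*} {N : Submodule k (κ → k)} {v : κ → F} (hv : v ∈ smap F N) :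
    ∀ (a : F) (j : B), vcoord b j (a • v) ∈ N := by
  induction hv using Submodule.span_induction with
  | mem x hx =>
    intro a j
    obtain ⟨n, hn, rfl⟩ := hx
    rw [vcoord_smul_vmap]
    exact N.smul_mem _ hn
  | zero => intro a j; rw [smul_zero, map_zero]; exact N.zero_mem
  | add x y _ _ hx hy => intro a j; rw [smul_add, map_add]; exact N.add_mem (hx a j) (hy a j)
  | smul c x _ hx => intro a j; rw [smul_smul]; exact hx _ _

lemma vcoord_mem {κ : Type*} {N : Submodule k (κ → k)} {v : κ → F} (hv : v ∈ smap F N) (j : B) :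
    vcoord b j v ∈ N := by
  have := vcoord_smul_mem b hv 1 j
  rwa [one_smul] at this

lemma mem_smap_iff {κ : Type*} [Finite κ] {N : Submodule k (κ → k)} {v : κ → F} :
    v ∈ smap F N ↔ ∀ j, vcoord b j v ∈ N :=
  ⟨fun h j ↦ vcoord_mem b h j, fun h ↦ mem_span_vcoord b v fun j ↦ vmap_mem_smap (h j)⟩

lemma vmap_injective {κ : Type*} : Function.Injective (vmap F : (κ → k) → (κ → F)) := by
  intro v w h
  ext i
  exact (algebraMap k F).injective (congrFun h i)

lemma vmap_add {κ : Type*} (v w : κ → k) : vmap F (v + w) = vmap F v + vmap F w := by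
  ext i; simp [vmap]

lemma vmap_smul {κ : Type*} (c : k) (v : κ → k) :
    vmap F (c • v) = algebraMap k F c • vmap F v := by
  ext i; simp [vmap]

lemma bil_vmap (ψ : Matrix ι ι k) (v w : ι → k) :
    bil (ψ.map (algebraMap k F)) (vmap F v) (vmap F w) = algebraMap k F (bil ψ v w) :=
  (bil_map (ψ := ψ) (algebraMap k F) v w).symm

lemma vcoord_mulVec (j : B) (x : Matrix ι ι k) (v : ι → F) :
    vcoord b j (x.map (algebraMap k F) *ᵥ v) = x *ᵥ vcoord b j v := by
  ext i
  rw [vcoord_apply, mulVec, dotProduct, mulVec, dotProduct, map_sum, Finsupp.finsetSum_apply]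
  refine Finset.sum_congr rfl fun l _ ↦ ?_
  rw [Matrix.map_apply, ← Algebra.smul_def, map_smul, Finsupp.smul_apply, smul_eq_mul,
    vcoord_apply]

lemma repr_bil (j : B) (ψ : Matrix ι ι k) (v : ι → F) (w : ι → k) :
    b.repr (bil (ψ.map (algebraMap k F)) v (vmap F w)) j = bil ψ (vcoord b j v) w := by
  have h1 : ψ.map (algebraMap k F) *ᵥ vmap F w = vmap F (ψ *ᵥ w) := by
    ext i
    simp [mulVec, dotProduct, vmap]
  unfold bil
  rw [h1, dotProduct, dotProduct, map_sum, Finsupp.finsetSum_apply]
  refine Finset.sum_congr rfl fun l _ ↦ ?_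
  rw [vmap, mul_comm, ← Algebra.smul_def, map_smul, Finsupp.smul_apply, smul_eq_mul, mul_comm,
    vcoord_apply]

/-- Nondegeneracy on a subspace is preserved by field extensions. -/
lemma nondeg_smap [CharZero k] {ψ : Matrix ι ι k} {N : Submodule k (ι → k)}
    (hN : ∀ v ∈ N, (∀ w ∈ N, bil ψ v w = 0) → v = 0) :
    ∀ v ∈ smap F N, (∀ w ∈ smap F N, bil (ψ.map (algebraMap k F)) v w = 0) → v = 0 := by
  intro v hv h
  let b := Basis.ofVectorSpace k F
  apply eq_zero_of_vcoord b
  intro j
  apply hN _ (vcoord_mem b hv j)
  intro w hw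
  rw [← repr_bil, h _ (vmap_mem_smap hw)]
  simp

lemma mem_orthS {ψ : Matrix ι ι F} {N : Submodule F (ι → F)} {v : ι → F} :
    v ∈ orthS ψ N ↔ ∀ w ∈ N, bil ψ v w = 0 := Iff.rfl

lemma orthS_smap (ψ : Matrix ι ι k) (N : Submodule k (ι → k)) :
    orthS (ψ.map (algebraMap k F)) (smap F N) = smap F (orthS ψ N) := by
  let b := Basis.ofVectorSpace k F
  ext v
  rw [mem_smap_iff b]
  constructor
  · intro h j w hw
    rw [← repr_bil, h _ (vmap_mem_smap hw)]
    simp
  · intro h w hw
    induction hw using Submodule.span_induction with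
    | mem x hx =>
      obtain ⟨n, hn, rfl⟩ := hx
      apply b.repr.injective
      ext j
      rw [repr_bil, h j n hn]
      simp
    | zero => simp [bil]
    | add x y _ _ hx hy => rw [bil_add_right, hx, hy, add_zero]
    | smul a x _ hx => rw [bil_smul_right, hx, mul_zero]

/-- Linear independence over a larger field. -/
lemma linearIndependent_vmap {κ J : Type*} [Finite κ] {t : J → (κ → k)}
    (ht : LinearIndependent k t) : LinearIndependent F (fun j ↦ vmap F (t j)) := by
  classical
  let b := Basis.ofVectorSpace k F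
  rw [linearIndependent_iff']
  intro s c hc i hi
  apply b.repr.injective
  ext j
  rw [map_zero, Finsupp.zero_apply]
  have h1 := congrArg (vcoord b j) hc
  rw [map_sum, map_zero] at h1
  simp only [vcoord_smul_vmap] at h1
  exact (linearIndependent_iff'.mp ht) s (fun i ↦ b.repr (c i) j) h1 i hi

lemma finrank_smap {κ : Type*} [Finite κ] (N : Submodule k (κ → k)) :
    finrank F (smap F N) = finrank k N := by
  classical
  have : Module.Finite k (κ → k) := inferInstance
  let t := Module.finBasis k N
  have hli : LinearIndependent k (fun i ↦ (t i : κ → k)) :=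
    t.linearIndependent.map' N.subtype (Submodule.ker_subtype N)
  have h1 : smap F N = Submodule.span F (Set.range fun i ↦ vmap F (t i : κ → k)) := by
    apply le_antisymm
    · rw [smap, Submodule.span_le]
      rintro _ ⟨n, hn, rfl⟩
      have h2 : n = ∑ i, t.repr ⟨n, hn⟩ i • (t i : κ → k) := by
        have := t.sum_repr ⟨n, hn⟩
        have h3 := congrArg (Submodule.subtype N) this
        rw [map_sum] at h3
        simp only [map_smul, Submodule.subtype_apply] at h3
        exact h3.symm
      have h3 : vmap F n = ∑ i, algebraMap k F (t.repr ⟨n, hn⟩ i) • vmap F (t i : κ → k) := by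
        conv_lhs => rw [h2]
        ext i
        simp only [vmap, Finset.sum_apply, Pi.smul_apply, smul_eq_mul, map_sum, map_mul]
      rw [h3]
      exact Submodule.sum_mem _ fun i _ ↦ Submodule.smul_mem _ _
        (Submodule.subset_span ⟨i, rfl⟩)
    · rw [Submodule.span_le]
      rintro _ ⟨i, rfl⟩
      exact vmap_mem_smap (t i).2
  rw [h1, finrank_span_eq_card (linearIndependent_vmap hli)]
  simp

end Vec

section Poly

variable {σ : Type*} {B : Type*} (b : Basis B k F)

/-- Every polynomial is a combination of polynomials over the small field. -/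
lemma exists_poly_decomp (f : MvPolynomial σ F) : ∃ G : B →₀ MvPolynomial σ k,
    f = G.sum fun j p ↦ b j • MvPolynomial.map (algebraMap k F) p := by
  classical
  induction f using MvPolynomial.induction_on' with
  | monomial m a =>
    refine ⟨(b.repr a).mapRange (fun c ↦ MvPolynomial.monomial m c) (by simp), ?_⟩
    rw [Finsupp.sum_mapRange_index (by simp)]
    conv_lhs => rw [← b.linearCombination_repr a, Finsupp.linearCombination_apply]
    rw [Finsupp.sum, Finsupp.sum, map_sum]
    refine Finset.sum_congr rfl fun j _ ↦ ?_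
    rw [MvPolynomial.map_monomial, MvPolynomial.smul_monomial, Algebra.smul_def, smul_eq_mul,
      mul_comm]
  | add p q hp hq =>
    obtain ⟨G, hG⟩ := hp
    obtain ⟨G', hG'⟩ := hq
    refine ⟨G + G', ?_⟩
    rw [Finsupp.sum_add_index', ← hG, ← hG']
    · intro j; simp
    · intro j p q; simp

lemma evM_map (M : Matrix ι ι k) (p : MvPolynomial (ι × ι) k) :
    evM (M.map (algebraMap k F)) (MvPolynomial.map (algebraMap k F) p) =
      algebraMap k F (evM M p) := by
  induction p using MvPolynomial.induction_on with
  | C a => simp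
  | add p q hp hq => rw [map_add, map_add, hp, hq, map_add, map_add]
  | mul_X p i hp => rw [map_mul, map_mul, hp, map_mul, map_mul]; simp

lemma der_map (x : Matrix ι ι k) (p : MvPolynomial (ι × ι) k) :
    der (x.map (algebraMap k F)) (MvPolynomial.map (algebraMap k F) p) =
      MvPolynomial.map (algebraMap k F) (der x p) := by
  induction p using MvPolynomial.induction_on with
  | C a =>
    rw [MvPolynomial.map_C]
    have h1 : der (x.map (algebraMap k F)) (MvPolynomial.C (algebraMap k F a)) = 0 :=
      Derivation.map_algebraMap _ _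
    have h2 : der x (MvPolynomial.C a) = 0 := Derivation.map_algebraMap _ _
    rw [h1, h2, map_zero]
  | add p q hp hq => rw [map_add, map_add, hp, hq, map_add, map_add]
  | mul_X p i hp =>
    rw [map_mul, Derivation.leibniz, hp, Derivation.leibniz, map_add, smul_eq_mul, smul_eq_mul,
      smul_eq_mul, smul_eq_mul, map_mul, map_mul, MvPolynomial.map_X, der_X, der_X, map_sum]
    congr 2
    refine Finset.sum_congr rfl fun j _ ↦ ?_
    simp

/-- The polynomials vanishing on a set of matrices with entries in a subfield. -/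
def van (F : Type*) [Field F] [Algebra k F] (S : Set (Matrix ι ι k)) :
    Submodule F (MvPolynomial (ι × ι) F) where
  carrier := {f | ∀ M ∈ S, evM (M.map (algebraMap k F)) f = 0}
  add_mem' := by
    intro f g hf hg M hM
    rw [map_add, hf M hM, hg M hM, add_zero]
  zero_mem' := by
    intro M _
    rw [map_zero]
  smul_mem' := by
    intro c f hf M hM
    rw [map_smul, hf M hM, smul_zero]

lemma mem_van {S : Set (Matrix ι ι k)} {f : MvPolynomial (ι × ι) F} :
    f ∈ van F S ↔ ∀ M ∈ S, evM (M.map (algebraMap k F)) f = 0 := Iff.rfl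

lemma mem_van_self {S : Set (Matrix ι ι k)} {f : MvPolynomial (ι × ι) k} :
    f ∈ van k S ↔ ∀ M ∈ S, evM M f = 0 := by
  rw [mem_van]
  have : ∀ M : Matrix ι ι k, M.map (algebraMap k k) = M := by
    intro M; ext i j; simp
  simp only [this]

lemma coeffs_zero {G : B →₀ k} (h : (G.sum fun j c ↦ b j * algebraMap k F c) = 0) (j : B) :
    G j = 0 := by
  have h1 : (G.sum fun j c ↦ b j * algebraMap k F c) = Finsupp.linearCombination k b G := by
    rw [Finsupp.linearCombination_apply]
    refine Finset.sum_congr rfl fun j _ ↦ ?_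
    change b j * algebraMap k F (G j) = G j • b j
    rw [Algebra.smul_def, mul_comm]
  rw [h1] at h
  have h2 := congrArg b.repr h
  rw [b.repr_linearCombination, map_zero] at h2
  rw [h2]; rfl

/-- The vanishing space is stable under an invariant derivation over the large field if it is so
over the small field. -/
lemma der_mem_van {S : Set (Matrix ι ι k)} {x : Matrix ι ι k}
    (hx : ∀ f ∈ van k S, der x f ∈ van k S) :
    ∀ f ∈ van F S, der (x.map (algebraMap k F)) f ∈ van F S := by
  classical
  intro f hf M hM
  let b := Basis.ofVectorSpace k F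
  obtain ⟨G, rfl⟩ := exists_poly_decomp b f
  -- each coefficient vanishes on `S`
  have h1 : ∀ j, G j ∈ van k S := by
    intro j
    rw [mem_van_self]
    intro M' hM'
    have h2 := hf M' hM'
    rw [Finsupp.sum, map_sum] at h2
    simp only [map_smul, evM_map, smul_eq_mul] at h2
    have h3 : ((G.mapRange (fun p ↦ evM M' p) (by simp)).sum
        fun j c ↦ b j * algebraMap k F c) = 0 := by
      rw [Finsupp.sum_mapRange_index (by simp)]
      exact h2
    have := coeffs_zero b h3 j
    rwa [Finsupp.mapRange_apply] at this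
  rw [Finsupp.sum, map_sum, map_sum]
  refine Finset.sum_eq_zero fun j _ ↦ ?_
  rw [Derivation.map_smul, map_smul, der_map, evM_map]
  have := mem_van_self.mp (hx _ (h1 j)) M hM
  rw [this, map_zero, smul_zero]

end Poly

end Pool.Agent.Helper88.MT
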