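import Mathlib
import Pool.Agent.Helper88.MT.BaseChange

/-!
# Automorphisms of algebraically closed fields and descent
-/

set_option linter.unusedSectionVars false

namespace Pool.Agent.Helper88.MT

open Module Polynomial

section Fixed

variable {k K : Type*} [Field k] [Field K] [Algebra k K]

/-- An element of a purely transcendental extension which is algebraic over the base field lies in
the base field. -/
lemma mem_range_of_isAlgebraic_of_mem_adjoin {ι : Type*} {x : ι → K}
    (hx : AlgebraicIndependent k x) {z : K} (hz : IsAlgebraic k z)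
    (hz' : z ∈ IntermediateField.adjoin k (Set.range x)) : z ∈ Set.range (algebraMap k K) := by
  have hx' : AlgebraicIndependent (algebraicClosure k K) x := hx.algebraicClosure
  obtain ⟨a, ha, b, hb, hab⟩ := IntermediateField.mem_adjoin_iff_div.mp hz'
  have hrange : ∀ a ∈ Algebra.adjoin k (Set.range x), ∃ p : MvPolynomial ι k,
      MvPolynomial.aeval x p = a := by
    intro a ha
    rw [Algebra.adjoin_range_eq_range_aeval] at ha
    exact ha
  obtain ⟨p, rfl⟩ := hrange a ha
  obtain ⟨q, rfl⟩ := hrange b hb
  by_cases hq : q = 0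
  · rw [hq, map_zero, div_zero] at hab
    exact ⟨0, by rw [map_zero, hab]⟩
  have hq' : MvPolynomial.aeval x q ≠ 0 := fun h ↦ hq (hx.eq_zero_of_aeval_eq_zero q h)
  have h1 : z * MvPolynomial.aeval x q = MvPolynomial.aeval x p := by
    rw [hab, div_mul_cancel₀ _ hq']
  -- move to the algebraic closure
  let E := algebraicClosure k K
  let z' : E := ⟨z, mem_algebraicClosure_iff.mpr hz⟩
  have haev : ∀ p : MvPolynomial ι k, MvPolynomial.aeval x (MvPolynomial.map (algebraMap k E) p) =
      MvPolynomial.aeval x p := by
    intro p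
    rw [MvPolynomial.aeval_map_algebraMap]
  have h2 : MvPolynomial.aeval x (MvPolynomial.C z' * MvPolynomial.map (algebraMap k E) q -
      MvPolynomial.map (algebraMap k E) p) = 0 := by
    rw [map_sub, map_mul, haev, haev, MvPolynomial.aeval_C]
    change z * _ - _ = 0
    rw [h1, sub_self]
  have h3 := hx'.eq_zero_of_aeval_eq_zero _ h2
  rw [sub_eq_zero] at h3
  obtain ⟨m, hm⟩ : ∃ m, MvPolynomial.coeff m q ≠ 0 := by
    by_contra! h
    exact hq (MvPolynomial.ext _ _ (by simpa using h))
  have h4 := congrArg (MvPolynomial.coeff m) h3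
  rw [MvPolynomial.coeff_C_mul, MvPolynomial.coeff_map, MvPolynomial.coeff_map] at h4
  have h5 : z * algebraMap k K (MvPolynomial.coeff m q) = algebraMap k K (MvPolynomial.coeff m p) :=
    congrArg (algebraMap E K) h4
  refine ⟨MvPolynomial.coeff m p / MvPolynomial.coeff m q, ?_⟩
  rw [map_div₀, ← h5, mul_div_assoc, div_self, mul_one]
  rw [Ne, map_eq_zero]
  exact hm

variable [IsAlgClosed K] [CharZero k]

lemma exists_algEquiv_of_isAlgebraic {z : K} (hz : IsAlgebraic k z)
    (hz' : z ∉ Set.range (algebraMap k K)) : ∃ σ : K ≃ₐ[k] K, σ z ≠ z := by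
  obtain ⟨ι, x, hx⟩ := exists_isTranscendenceBasis' k K
  by_contra! h
  let E := IntermediateField.adjoin k (Set.range x)
  have : Algebra.IsAlgebraic E K := hx.isAlgebraic_field
  have : CharZero E := charZero_of_injective_algebraMap (algebraMap k E).injective
  have : IsAlgClosure E K := ⟨inferInstance, inferInstance⟩
  have hn : Normal E K := IsAlgClosure.normal E K
  have : IsGalois E K := ⟨⟩
  apply hz'
  have h1 : z ∈ E := by
    have h2 : z ∈ Set.range (algebraMap E K) := by
      rw [InfiniteGalois.mem_range_algebraMap_iff_fixed]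
      intro σ
      exact h (σ.restrictScalars k)
    obtain ⟨y, rfl⟩ := h2
    exact y.2
  exact mem_range_of_isAlgebraic_of_mem_adjoin hx.1 hz h1

/-- The field fixed by all automorphisms of an algebraically closed field over a subfield. -/
lemma exists_algEquiv_ne {z : K} (hz' : z ∉ Set.range (algebraMap k K)) :
    ∃ σ : K ≃ₐ[k] K, σ z ≠ z := by
  by_cases hz : IsAlgebraic k z
  · exact exists_algEquiv_of_isAlgebraic hz hz'
  · have htr : Transcendental k z := hz
    let E := IntermediateField.adjoin k ({z ^ 2} : Set K)
    have : CharZero E := charZero_of_injective_algebraMap (algebraMap k E).injective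
    have hzE : IsAlgebraic E z := by
      refine ⟨X ^ 2 - C (⟨z ^ 2, IntermediateField.mem_adjoin_simple_self k (z ^ 2)⟩ : E), ?_, ?_⟩
      · exact X_pow_sub_C_ne_zero (by norm_num) _
      · rw [map_sub, map_pow, aeval_X, aeval_C]
        exact sub_self _
    have hzE' : z ∉ Set.range (algebraMap E K) := by
      rintro ⟨y, hy⟩
      have h1 : z ∈ E := by
        have h0 : (algebraMap E K) y ∈ E := y.2
        rwa [hy] at h0
      rw [IntermediateField.mem_adjoin_simple_iff] at h1
      obtain ⟨p, q, hpq⟩ := h1
      by_cases hq : aeval (z ^ 2) q = 0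
      · rw [hq, div_zero] at hpq
        apply hz'
        exact ⟨0, by rw [map_zero, hpq]⟩
      · have h2 : aeval z (X * (q.comp (X ^ 2)) - p.comp (X ^ 2)) = 0 := by
          rw [map_sub, map_mul, aeval_comp, aeval_comp, map_pow, aeval_X, sub_eq_zero]
          conv_lhs => rw [show z * aeval (z ^ 2) q = (aeval (z ^ 2) p / aeval (z ^ 2) q) *
            aeval (z ^ 2) q from by rw [← hpq]]
          rw [div_mul_cancel₀ _ hq]
        have h3 : X * (q.comp (X ^ 2)) - p.comp (X ^ 2) = 0 := by
          by_contra h
          exact htr ⟨_, h, h2⟩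
        rw [sub_eq_zero] at h3
        have hq0 : q ≠ 0 := by rintro rfl; exact hq (map_zero _)
        have h4 : p ≠ 0 := by
          rintro rfl
          rw [zero_comp] at h3
          have : q.comp (X ^ 2) ≠ 0 := by
            intro h
            rw [comp_eq_zero_iff] at h
            rcases h with h | ⟨_, h⟩
            · exact hq0 h
            · have := congrArg natDegree h
              rw [natDegree_X_pow, natDegree_C] at this
              omega
          exact this ((mul_eq_zero.mp h3).resolve_left X_ne_zero)
        have h5 := congrArg natDegree h3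
        have h6 : q.comp (X ^ 2) ≠ 0 := by
          intro h
          rw [h, mul_zero] at h3
          have h7 := h3.symm
          rw [comp_eq_zero_iff] at h7
          rcases h7 with h7 | ⟨_, h7⟩
          · exact h4 h7
          · have := congrArg natDegree h7
            rw [natDegree_X_pow, natDegree_C] at this
            omega
        rw [natDegree_mul X_ne_zero h6, natDegree_X, natDegree_comp, natDegree_comp,
          natDegree_X_pow] at h5
        omega
    obtain ⟨σ, hσ⟩ := exists_algEquiv_of_isAlgebraic hzE hzE'
    exact ⟨σ.restrictScalars k, hσ⟩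

lemma mem_range_of_fixed {z : K} (h : ∀ σ : K ≃ₐ[k] K, σ z = z) :
    z ∈ Set.range (algebraMap k K) := by
  by_contra hz
  obtain ⟨σ, hσ⟩ := exists_algEquiv_ne hz
  exact hσ (h σ)

/-- Galois descent for subspaces. -/
lemma mem_smap_of_stable {κ : Type*} [Finite κ] {W : Submodule K (κ → K)}
    (hW : ∀ σ : K ≃ₐ[k] K, ∀ w ∈ W, (fun i ↦ σ (w i)) ∈ W) {N : Submodule k (κ → k)}
    (hN : ∀ v, vmap K v ∈ W → v ∈ N) :
    W ≤ smap K N := by
  classical
  have : Fintype κ := Fintype.ofFinite κ
  have key : ∀ n : ℕ, ∀ w ∈ W, (Finset.univ.filter fun i ↦ w i ≠ 0).card = n → w ∈ smap K N := by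
    intro n
    induction n using Nat.strong_induction_on with
    | _ n ih =>
      intro w hw hn
      by_cases hw0 : w = 0
      · rw [hw0]; exact Submodule.zero_mem _
      -- a nonzero vector of minimal support inside the support of `w`
      let P : ℕ → Prop := fun m ↦ ∃ u ∈ W, u ≠ 0 ∧ (∀ i, w i = 0 → u i = 0) ∧
        (Finset.univ.filter fun i ↦ u i ≠ 0).card = m
      have hP : ∃ m, P m := ⟨_, w, hw, hw0, fun i h ↦ h, rfl⟩
      obtain ⟨u, huW, hu0, hsub, hcard⟩ := Nat.find_spec hP
      have hmin : ∀ m, P m → Nat.find hP ≤ m := fun m hm ↦ Nat.find_min' hP hm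
      obtain ⟨i, hi⟩ : ∃ i, u i ≠ 0 := by
        by_contra! h
        exact hu0 (funext h)
      -- normalise
      let u' := (u i)⁻¹ • u
      have hu'W : u' ∈ W := W.smul_mem _ huW
      have hu'i : u' i = 1 := inv_mul_cancel₀ hi
      have hsupp : ∀ j, u' j = 0 ↔ u j = 0 := by
        intro j
        change (u i)⁻¹ * u j = 0 ↔ _
        rw [mul_eq_zero]
        exact ⟨fun h ↦ h.resolve_left (inv_ne_zero hi), Or.inr⟩
      have hfix : ∀ σ : K ≃ₐ[k] K, ∀ j, σ (u' j) = u' j := by
        intro σ
        by_contra! hcon
        obtain ⟨j, hj⟩ := hcon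
        have h1 : (fun j ↦ σ (u' j)) - u' ∈ W := W.sub_mem (hW σ _ hu'W) hu'W
        have h2 : (fun j ↦ σ (u' j)) - u' ≠ 0 := by
          intro h
          exact hj (sub_eq_zero.mp (congrFun h j))
        have h3 := hmin _ ⟨_, h1, h2, ?_, rfl⟩
        · have h4 : (Finset.univ.filter fun j ↦ ((fun j ↦ σ (u' j)) - u') j ≠ 0).card <
              (Finset.univ.filter fun j ↦ u j ≠ 0).card := by
            apply Finset.card_lt_card
            rw [Finset.ssubset_iff_of_subset]
            · refine ⟨i, by simpa using hi, ?_⟩
              rw [Finset.mem_filter, not_and, not_not]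
              intro _
              rw [Pi.sub_apply, hu'i, map_one, sub_self]
            · intro l hl
              rw [Finset.mem_filter] at hl ⊢
              refine ⟨Finset.mem_univ _, fun h ↦ hl.2 ?_⟩
              rw [Pi.sub_apply, (hsupp l).mpr h, map_zero, sub_self]
          omega
        · intro l hl
          rw [Pi.sub_apply, (hsupp l).mpr (hsub l hl), map_zero, sub_self]
      have hrat : ∀ j, ∃ c : k, algebraMap k K c = u' j := fun j ↦
        mem_range_of_fixed fun σ ↦ hfix σ j
      choose c hc using hrat
      have hu'c : vmap K c = u' := funext hc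
      have hcN : c ∈ N := hN c (by rw [hu'c]; exact hu'W)
      have hu'N : u' ∈ smap K N := by rw [← hu'c]; exact vmap_mem_smap hcN
      have h5 : w - w i • u' ∈ smap K N := by
        refine ih _ ?_ _ (W.sub_mem hw (W.smul_mem _ hu'W)) rfl
        rw [← hn]
        apply Finset.card_lt_card
        rw [Finset.ssubset_iff_of_subset]
        · refine ⟨i, ?_, ?_⟩
          · rw [Finset.mem_filter]
            exact ⟨Finset.mem_univ _, fun h ↦ hi (hsub i h)⟩
          · rw [Finset.mem_filter, not_and, not_not]
            intro _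
            rw [Pi.sub_apply, Pi.smul_apply, hu'i, smul_eq_mul, mul_one, sub_self]
        · intro l hl
          rw [Finset.mem_filter] at hl ⊢
          refine ⟨Finset.mem_univ _, fun h ↦ hl.2 ?_⟩
          rw [Pi.sub_apply, Pi.smul_apply, (hsupp l).mpr (hsub l h), smul_zero, h, sub_zero]
      have h6 : w = (w - w i • u') + w i • u' := by rw [sub_add_cancel]
      rw [h6]
      exact Submodule.add_mem _ h5 (Submodule.smul_mem _ _ hu'N)
  intro w hw
  exact key _ w hw rfl

end Fixed

end Pool.Agent.Helper88.MT
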