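import Mathlib
import Pool.Agent.Helper88.MT.FixedField

/-!
# Orthogonal decompositions and spans of rational matrices
-/

set_option linter.unusedSectionVars false

namespace Pool.Agent.Helper88.MT

open Matrix Module

variable {ι : Type*} [Fintype ι] [DecidableEq ι]

section Orth

variable {F : Type*} [Field F] [CharZero F]

lemma exists_orth_decomp {ψ : Matrix ι ι F} (hψ : ψᵀ = ψ) {N : Submodule F (ι → F)}
    (hN : ∀ v ∈ N, (∀ w ∈ N, bil ψ v w = 0) → v = 0) (v : ι → F) :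
    ∃ a ∈ N, ∃ b ∈ orthS ψ N, v = a + b := by
  have hrefl : (bilF ψ).IsRefl := fun x y h ↦ by
    rw [bilF_apply] at h ⊢; rw [bil_symm hψ, h]
  have hnd : ((bilF ψ).restrict N).Nondegenerate := by
    refine ⟨?_, ?_⟩
    · rintro ⟨v, hv⟩ h
      rw [Submodule.mk_eq_zero]
      exact hN v hv fun w hw ↦ h ⟨w, hw⟩
    · rintro ⟨v, hv⟩ h
      rw [Submodule.mk_eq_zero]
      exact hN v hv fun w hw ↦ by rw [bil_symm hψ]; exact h ⟨w, hw⟩
  have hc := LinearMap.BilinForm.isCompl_orthogonal_of_restrict_nondegenerate hrefl hnd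
  have hv : v ∈ N ⊔ (bilF ψ).orthogonal N := hc.sup_eq_top ▸ Submodule.mem_top
  obtain ⟨a, ha, b, hb, rfl⟩ := Submodule.mem_sup.mp hv
  refine ⟨a, ha, b, ?_, rfl⟩
  intro w hw
  rw [bil_symm hψ]
  exact LinearMap.BilinForm.mem_orthogonal_iff.mp hb w hw

lemma nondeg_orthS {ψ : Matrix ι ι F} (hψ : ψᵀ = ψ) (hdet : ψ.det ≠ 0) {N : Submodule F (ι → F)}
    (hN : ∀ v ∈ N, (∀ w ∈ N, bil ψ v w = 0) → v = 0) :
    ∀ v ∈ orthS ψ N, (∀ w ∈ orthS ψ N, bil ψ v w = 0) → v = 0 := by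
  intro v hv h
  apply eq_zero_of_bil hψ hdet
  intro w
  obtain ⟨a, ha, b, hb, rfl⟩ := exists_orth_decomp hψ hN w
  rw [bil_add_right, hv a ha, h b hb, add_zero]

lemma soT_mulVec_mem {ψ : Matrix ι ι F} {N : Submodule F (ι → F)} {x : Matrix ι ι F}
    (hx : x ∈ soT ψ (N : Set (ι → F))) (v : ι → F) : x *ᵥ v ∈ orthS ψ N := by
  intro w hw
  have h1 : bil ψ (x *ᵥ v) w + bil ψ v (x *ᵥ w) = 0 := by
    have h2 : v ⬝ᵥ ((xᵀ * ψ + ψ * x) *ᵥ w) = 0 := by rw [hx.1, zero_mulVec, dotProduct_zero]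
    rw [add_mulVec, dotProduct_add, ← Matrix.mulVec_mulVec, ← Matrix.mulVec_mulVec,
      Matrix.dotProduct_mulVec, ← Matrix.mulVec_transpose, transpose_transpose] at h2
    exact h2
  rw [hx.2 w hw] at h1
  have h3 : bil ψ v 0 = 0 := by simp [bil]
  rw [h3, add_zero] at h1
  exact h1

lemma soT_skew {ψ : Matrix ι ι F} {N : Set (ι → F)} {x : Matrix ι ι F}
    (hx : x ∈ soT ψ N) (v w : ι → F) : bil ψ (x *ᵥ v) w = - bil ψ v (x *ᵥ w) := by
  have h2 : v ⬝ᵥ ((xᵀ * ψ + ψ * x) *ᵥ w) = 0 := by rw [hx.1, zero_mulVec, dotProduct_zero]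
  rw [add_mulVec, dotProduct_add, ← Matrix.mulVec_mulVec, ← Matrix.mulVec_mulVec,
    Matrix.dotProduct_mulVec, ← Matrix.mulVec_transpose, transpose_transpose] at h2
  exact eq_neg_of_add_eq_zero_left h2

lemma mem_soT_of_skew {ψ : Matrix ι ι F} {N : Set (ι → F)} {x : Matrix ι ι F}
    (hskew : ∀ v w, bil ψ (x *ᵥ v) w = - bil ψ v (x *ᵥ w)) (hN : ∀ w ∈ N, x *ᵥ w = 0) :
    x ∈ soT ψ N := by
  refine ⟨?_, hN⟩
  apply eq_of_forall_mulVec
  intro w
  rw [zero_mulVec]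
  ext i
  have h := hskew (Pi.single i 1) w
  have h1 : (Pi.single i 1 : ι → F) ⬝ᵥ ((xᵀ * ψ + ψ * x) *ᵥ w) = 0 := by
    rw [add_mulVec, dotProduct_add, ← Matrix.mulVec_mulVec, ← Matrix.mulVec_mulVec,
      Matrix.dotProduct_mulVec, ← Matrix.mulVec_transpose, transpose_transpose]
    change bil ψ _ _ + bil ψ _ _ = 0
    rw [h, neg_add_cancel]
  rw [single_dotProduct, one_mul] at h1
  exact h1

end Orth

section Span

variable {k K : Type*} [Field k] [Field K] [Algebra k K]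

lemma mem_of_vmap_mem {κ : Type*} {N : Submodule k (κ → k)} {v : κ → k}
    (h : vmap K v ∈ smap K N) : v ∈ N := by
  let b := Basis.ofVectorSpace k K
  have h1 : ∃ j, b.repr 1 j ≠ 0 := by
    by_contra! hcon
    have : b.repr 1 = 0 := Finsupp.ext hcon
    rw [map_eq_zero_iff _ b.repr.injective] at this
    exact one_ne_zero this
  obtain ⟨j, hj⟩ := h1
  have h2 := vcoord_mem b h j
  have h3 := vcoord_smul_vmap b j (1 : K) v
  rw [one_smul] at h3
  rw [h3] at h2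
  have h4 := N.smul_mem (b.repr 1 j)⁻¹ h2
  rwa [smul_smul, inv_mul_cancel₀ hj, one_smul] at h4

/-- The span of a space of matrices over a larger field. -/
def mspan (K : Type*) [Field K] [Algebra k K] (𝔤 : Submodule k (Matrix ι ι k)) :
    Submodule K (Matrix ι ι K) :=
  Submodule.span K ((fun x : Matrix ι ι k ↦ x.map (algebraMap k K)) '' (𝔤 : Set (Matrix ι ι k)))

lemma map_mem_mspan {𝔤 : Submodule k (Matrix ι ι k)} {x : Matrix ι ι k} (hx : x ∈ 𝔤) :
    x.map (algebraMap k K) ∈ mspan K 𝔤 := Submodule.subset_span ⟨x, hx, rfl⟩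

/-- Matrices as functions of pairs. -/
def unc (F : Type*) [Field F] : Matrix ι ι F ≃ₗ[F] (ι × ι → F) :=
  (LinearEquiv.curry F F ι ι).symm

@[simp] lemma unc_apply {F : Type*} [Field F] (x : Matrix ι ι F) (p : ι × ι) :
    unc F x p = x p.1 p.2 := rfl

lemma mspan_map {𝔤 : Submodule k (Matrix ι ι k)} {y : Matrix ι ι K} :
    y ∈ mspan K 𝔤 ↔ unc K y ∈ smap K (𝔤.map (unc k).toLinearMap) := by
  have h1 : (mspan K 𝔤).map (unc K).toLinearMap = smap K (𝔤.map (unc k).toLinearMap) := by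
    rw [mspan, smap, Submodule.map_span]
    congr 1
    ext w
    constructor
    · rintro ⟨_, ⟨x, hx, rfl⟩, rfl⟩
      exact ⟨unc k x, ⟨x, hx, rfl⟩, rfl⟩
    · rintro ⟨_, ⟨x, hx, rfl⟩, rfl⟩
      exact ⟨_, ⟨x, hx, rfl⟩, rfl⟩
  rw [← h1]
  constructor
  · intro h
    exact ⟨y, h, rfl⟩
  · rintro ⟨y', hy', h⟩
    have : y' = y := (unc K).injective h
    rwa [← this]

lemma mem_of_map_mem_mspan {𝔤 : Submodule k (Matrix ι ι k)} {x : Matrix ι ι k}
    (h : x.map (algebraMap k K) ∈ mspan K 𝔤) : x ∈ 𝔤 := by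
  rw [mspan_map] at h
  have h1 : unc K (x.map (algebraMap k K)) = vmap K (unc k x) := rfl
  rw [h1] at h
  obtain ⟨y, hy, hxy⟩ := mem_of_vmap_mem h
  have : y = x := (unc k).injective hxy
  rwa [← this]

variable [IsAlgClosed K] [CharZero k]

lemma le_mspan_of_stable {W : Submodule K (Matrix ι ι K)}
    (hW : ∀ σ : K ≃ₐ[k] K, ∀ w ∈ W, w.map σ ∈ W) {𝔤 : Submodule k (Matrix ι ι k)}
    (hg : ∀ x : Matrix ι ι k, x.map (algebraMap k K) ∈ W → x ∈ 𝔤) : W ≤ mspan K 𝔤 := by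
  intro w hw
  rw [mspan_map]
  refine mem_smap_of_stable (k := k) (W := W.map (unc K).toLinearMap) ?_ ?_ ⟨w, hw, rfl⟩
  · rintro σ _ ⟨y, hy, rfl⟩
    exact ⟨y.map σ, hW σ y hy, rfl⟩
  · intro v hv
    obtain ⟨y, hy, hyv⟩ := hv
    refine ⟨(unc k).symm v, ?_, (unc k).apply_symm_apply v⟩
    apply hg
    have : ((unc k).symm v).map (algebraMap k K) = y := by
      apply (unc K).injective
      rw [show (unc K) y = vmap K v from hyv]
      rfl
    rw [this]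
    exact hy

end Span

end Pool.Agent.Helper88.MT
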