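import Mathlib
import Pool.Agent.Helper88.MT.Split

/-!
# Dual numbers, tangent vectors and curves
-/

set_option linter.unusedSectionVars false

namespace Pool.Agent.Helper88.MT

open Matrix Module

variable {ι : Type*} [Fintype ι] [DecidableEq ι]
variable {F : Type*} [Field F]

/-- The matrix `M (1 + ε x)`. -/
def dualM (M x : Matrix ι ι F) : Matrix ι ι (DualNumber F) :=
  fun i j ↦ TrivSqZeroExt.inl (M i j) + TrivSqZeroExt.inr ((M * x) i j)

/-- Evaluation at a tangent vector. -/
lemma evM_dualM (M x : Matrix ι ι F) (f : MvPolynomial (ι × ι) F) :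
    evM (dualM M x) f =
      TrivSqZeroExt.inl (evM M f) + TrivSqZeroExt.inr (evM M (der x f)) := by
  induction f using MvPolynomial.induction_on with
  | C a =>
    have h2 : der x (MvPolynomial.C a) = 0 := Derivation.map_algebraMap _ _
    rw [h2, map_zero, TrivSqZeroExt.inr_zero, add_zero]
    have h3 : evM (dualM M x) (MvPolynomial.C a) = algebraMap F (DualNumber F) a :=
      MvPolynomial.aeval_C _ _
    have h4 : evM M (MvPolynomial.C a) = algebraMap F F a := MvPolynomial.aeval_C _ _
    rw [h3, h4]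
    rfl
  | add p q hp hq =>
    rw [map_add, map_add, map_add, map_add, hp, hq, TrivSqZeroExt.inl_add, TrivSqZeroExt.inr_add]
    abel
  | mul_X p i hp =>
    have h1 : evM M (der x (MvPolynomial.X i)) = (M * x) i.1 i.2 := by
      rw [evM_der_X]
      congr 1
    rw [map_mul, hp, map_mul, Derivation.leibniz, map_add, smul_eq_mul, smul_eq_mul, map_mul,
      map_mul, h1, evM_X, evM_X, dualM]
    ext
    · simp
    · simp
      ring

/-- A curve argument: if a rational curve lies in the zero set of `f` then so does its tangent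
vector. -/
lemma evM_der_eq_zero_of_curve {f : MvPolynomial (ι × ι) F} {Z : Set F} (hZ : Z.Infinite)
    {δ : Polynomial F} {b : Matrix ι ι (Polynomial F)} (hδ : ∀ s ∈ Z, δ.eval s ≠ 0)
    (hf : ∀ s ∈ Z, ∀ M : Matrix ι ι F, (∀ i j, (b i j).eval s = δ.eval s * M i j) → evM M f = 0)
    {s₀ : F} (hδ₀ : δ.eval s₀ ≠ 0) {g x : Matrix ι ι F}
    (hb : ∀ i j, Polynomial.aeval (TrivSqZeroExt.inl s₀ + TrivSqZeroExt.inr 1 : DualNumber F)
      (b i j) = Polynomial.aeval (TrivSqZeroExt.inl s₀ + TrivSqZeroExt.inr 1 : DualNumber F) δ *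
        dualM g x i j) : evM g (der x f) = 0 := by
  obtain ⟨m, fh, hfh⟩ := exists_homog f
  set P : Polynomial F := MvPolynomial.aeval
    (fun o : Option (ι × ι) ↦ o.elim δ (fun p ↦ b p.1 p.2)) fh with hP
  have hP0 : P = 0 := by
    refine Polynomial.eq_zero_of_infinite_isRoot P (hZ.mono ?_)
    intro s hs
    rw [Set.mem_ofPred_eq, Polynomial.IsRoot.def]
    have h1 : P.eval s = MvPolynomial.aeval
        (fun o : Option (ι × ι) ↦ o.elim (δ.eval s) (fun p ↦ (b p.1 p.2).eval s)) fh := by
      have h2 : P.eval s = Polynomial.aeval s P := by rw [Polynomial.coe_aeval_eq_eval]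
      rw [h2, hP, MvPolynomial.comp_aeval_apply]
      congr 2
      ext o
      cases o with
      | none => simp [Polynomial.coe_aeval_eq_eval]
      | some p => simp [Polynomial.coe_aeval_eq_eval]
    let M : Matrix ι ι F := fun i j ↦ (δ.eval s)⁻¹ * (b i j).eval s
    have h3 : ∀ i j, (b i j).eval s = δ.eval s * M i j := by
      intro i j
      change _ = _ * (_ * _)
      rw [← mul_assoc, mul_inv_cancel₀ (hδ s hs), one_mul]
    rw [h1, hfh (δ.eval s) (fun p : ι × ι ↦ M p.1 p.2) _ (fun p ↦ h3 p.1 p.2)]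
    have h4 := hf s hs M h3
    unfold evM at h4
    rw [h4, mul_zero]
  set e : DualNumber F := TrivSqZeroExt.inl s₀ + TrivSqZeroExt.inr 1 with he
  have h5 : Polynomial.aeval e P = MvPolynomial.aeval
      (fun o : Option (ι × ι) ↦ o.elim (Polynomial.aeval e δ)
        (fun p ↦ Polynomial.aeval e (b p.1 p.2))) fh := by
    rw [hP, MvPolynomial.comp_aeval_apply]
    congr 2
    funext o
    cases o <;> rfl
  rw [hP0, map_zero, hfh (Polynomial.aeval e δ) (fun p : ι × ι ↦ dualM g x p.1 p.2) _
    (fun p ↦ hb p.1 p.2)] at h5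
  have hfst : (Polynomial.aeval e δ).fst = δ.eval s₀ := by
    have h6 : (Polynomial.aeval e δ).fst = Polynomial.aeval e.fst δ :=
      (Polynomial.aeval_algHom_apply (TrivSqZeroExt.fstHom F F F) e δ).symm
    rw [h6, Polynomial.coe_aeval_eq_eval, he]
    simp
  have hunit : IsUnit (Polynomial.aeval e δ) := by
    rw [TrivSqZeroExt.isUnit_iff_isUnit_fst, hfst]
    exact isUnit_iff_ne_zero.mpr hδ₀
  have h7 : evM (dualM g x) f = 0 := by
    have := (hunit.pow m).mul_right_eq_zero.mp h5.symm
    exact this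
  rw [evM_dualM] at h7
  have h8 := congrArg TrivSqZeroExt.snd h7
  simpa using h8

/-- Left translation. -/
lemma exists_translate (M : Matrix ι ι F) (f : MvPolynomial (ι × ι) F) :
    ∃ f' : MvPolynomial (ι × ι) F, ∀ {R : Type _} [CommRing R] [Algebra F R] (A : Matrix ι ι R),
      evM A f' = evM (M.map (algebraMap F R) * A) f := by
  refine ⟨MvPolynomial.aeval (fun p : ι × ι ↦ ∑ j, MvPolynomial.C (M p.1 j) *
    MvPolynomial.X (j, p.2)) f, ?_⟩
  intro R _ _ A
  unfold evM
  rw [MvPolynomial.comp_aeval_apply]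
  congr 2
  ext p
  simp [Matrix.mul_apply]

end Pool.Agent.Helper88.MT
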