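import Mathlib
import Pool.Agent.Helper88.Auto
import Pool.Agent.Helper88.MT.Split

/-!
# The Lie algebra theorem over a subfield
-/

set_option linter.unusedSectionVars false

namespace Pool.Agent.Helper88.MT

open Matrix Module LieModule

attribute [local instance 100] LieRing.ofAssociativeRing

variable {ι : Type*} [Fintype ι] [DecidableEq ι]
variable {k K : Type*} [Field k] [Field K] [Algebra k K]

section Basic

variable {𝔤 : Submodule k (Matrix ι ι k)}

lemma mspan_lie (hg : ∀ x ∈ 𝔤, ∀ y ∈ 𝔤, x * y - y * x ∈ 𝔤) {x y : Matrix ι ι K}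
    (hx : x ∈ mspan K 𝔤) (hy : y ∈ mspan K 𝔤) : x * y - y * x ∈ mspan K 𝔤 := by
  unfold mspan at hx hy
  induction hx using Submodule.span_induction with
  | mem x hx =>
    induction hy using Submodule.span_induction with
    | mem y hy =>
      obtain ⟨a, ha, rfl⟩ := hx
      obtain ⟨b, hb, rfl⟩ := hy
      have := map_mem_mspan (K := K) (hg a ha b hb)
      rw [Matrix.map_sub _ (map_sub _), Matrix.map_mul, Matrix.map_mul] at this
      exact this
    | zero => simp
    | add y z _ _ hy hz =>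
      have := Submodule.add_mem _ hy hz
      convert this using 1
      noncomm_ring
    | smul c y _ hy =>
      have := Submodule.smul_mem _ c hy
      convert this using 1
      rw [Matrix.mul_smul, Matrix.smul_mul, smul_sub]
  | zero => simp
  | add x z _ _ hx hz =>
    have := Submodule.add_mem _ hx hz
    convert this using 1
    noncomm_ring
  | smul c x _ hx =>
    have := Submodule.smul_mem _ c hx
    convert this using 1
    rw [Matrix.mul_smul, Matrix.smul_mul, smul_sub]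

lemma mspan_map_algEquiv (σ : K ≃ₐ[k] K) {x : Matrix ι ι K} (hx : x ∈ mspan K 𝔤) :
    x.map σ ∈ mspan K 𝔤 := by
  unfold mspan at hx
  induction hx using Submodule.span_induction with
  | mem x hx =>
    obtain ⟨a, ha, rfl⟩ := hx
    have : (a.map (algebraMap k K)).map σ = a.map (algebraMap k K) := by
      ext i j; simp
    rw [this]
    exact map_mem_mspan ha
  | zero =>
    have : (0 : Matrix ι ι K).map σ = 0 := by ext i j; simp
    rw [this]
    exact Submodule.zero_mem _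
  | add x z _ _ hx hz =>
    have : (x + z).map σ = x.map σ + z.map σ := by ext i j; simp
    rw [this]
    exact Submodule.add_mem _ hx hz
  | smul c x _ hx =>
    have : (c • x).map σ = σ c • x.map σ := by ext i j; simp
    rw [this]
    exact Submodule.smul_mem _ _ hx

/-- `soT` over a field extension. -/
lemma map_mem_soT {ψ : Matrix ι ι k} {N : Submodule k (ι → k)} {x : Matrix ι ι k}
    (hx : x ∈ soT ψ (N : Set (ι → k))) :
    x.map (algebraMap k K) ∈ soT (ψ.map (algebraMap k K)) (smap K N : Set (ι → K)) := by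
  refine ⟨?_, ?_⟩
  · rw [← Matrix.transpose_map, ← Matrix.map_mul, ← Matrix.map_mul, ← Matrix.map_add _ (map_add _),
      hx.1]
    ext i j; simp
  · intro w hw
    have hw' : w ∈ smap K N := hw
    clear hw
    unfold smap at hw'
    induction hw' using Submodule.span_induction with
    | mem w h =>
      obtain ⟨n, hn, rfl⟩ := h
      have h1 : x.map (algebraMap k K) *ᵥ vmap K n = vmap K (x *ᵥ n) := by
        ext i; simp [mulVec, dotProduct, vmap]
      rw [h1, hx.2 n hn]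
      ext i; simp [vmap]
    | zero => rw [mulVec_zero]
    | add v w _ _ hv hw => rw [mulVec_add, hv, hw, add_zero]
    | smul c v _ hv => rw [mulVec_smul, hv, smul_zero]

/-- `soT` is a subspace. -/
def soTS {F : Type*} [Field F] (ψ : Matrix ι ι F) (N : Set (ι → F)) :
    Submodule F (Matrix ι ι F) where
  carrier := soT ψ N
  add_mem' := by
    intro x y hx hy
    refine ⟨?_, fun w hw ↦ by rw [add_mulVec, hx.2 w hw, hy.2 w hw, add_zero]⟩
    rw [transpose_add, add_mul, mul_add]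
    have := congrArg₂ (· + ·) hx.1 hy.1
    simp only [add_zero] at this
    rw [← this]
    abel
  zero_mem' := by
    refine ⟨by simp, fun w _ ↦ by simp⟩
  smul_mem' := by
    intro c x hx
    refine ⟨?_, fun w hw ↦ by rw [smul_mulVec, hx.2 w hw, smul_zero]⟩
    rw [transpose_smul, smul_mul_assoc, mul_smul_comm, ← smul_add, hx.1, smul_zero]

lemma mspan_le_soTS {ψ : Matrix ι ι k} {N : Submodule k (ι → k)}
    (hgs : ∀ x ∈ 𝔤, x ∈ soT ψ (N : Set (ι → k))) :
    mspan K 𝔤 ≤ soTS (ψ.map (algebraMap k K)) (smap K N : Set (ι → K)) := by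
  rw [mspan, Submodule.span_le]
  rintro _ ⟨x, hx, rfl⟩
  exact map_mem_soT (hgs x hx)

end Basic

section Rep

variable {T : Submodule K (ι → K)}

/-- The matrix `x` restricts to the operator `y` of `T`. -/
def Rep (x : Matrix ι ι K) (y : Module.End K T) : Prop :=
  ∀ v : T, ((y v : T) : ι → K) = x *ᵥ (v : ι → K)

lemma Rep.add {x x' : Matrix ι ι K} {y y' : Module.End K T} (h : Rep x y) (h' : Rep x' y') :
    Rep (x + x') (y + y') := fun v ↦ by
  rw [LinearMap.add_apply, Submodule.coe_add, h, h', add_mulVec]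

lemma Rep.zero : Rep (0 : Matrix ι ι K) (0 : Module.End K T) := fun v ↦ by simp

lemma Rep.smul {x : Matrix ι ι K} {y : Module.End K T} (h : Rep x y) (c : K) :
    Rep (c • x) (c • y) := fun v ↦ by
  rw [LinearMap.smul_apply, Submodule.coe_smul, h, smul_mulVec]

lemma Rep.lie {x x' : Matrix ι ι K} {y y' : Module.End K T} (h : Rep x y) (h' : Rep x' y') :
    Rep (x * x' - x' * x) (y * y' - y' * y) := fun v ↦ by
  rw [LinearMap.sub_apply, Submodule.coe_sub, Module.End.mul_apply,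
    Module.End.mul_apply, h, h', h', h, sub_mulVec, ← Matrix.mulVec_mulVec,
    ← Matrix.mulVec_mulVec]

lemma Rep.unique {x : Matrix ι ι K} {y y' : Module.End K T} (h : Rep x y) (h' : Rep x y') :
    y = y' := by
  ext1 v
  apply Subtype.ext
  rw [h, h']

/-- The Lie algebra of restrictions. -/
def lieOf (T : Submodule K (ι → K)) (G : Submodule K (Matrix ι ι K))
    (hG : ∀ x ∈ G, ∀ y ∈ G, x * y - y * x ∈ G) : LieSubalgebra K (Module.End K T) where
  carrier := {y | ∃ x ∈ G, Rep x y}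
  add_mem' := by
    rintro y z ⟨x, hx, hxy⟩ ⟨x', hx', hxy'⟩
    exact ⟨x + x', Submodule.add_mem _ hx hx', hxy.add hxy'⟩
  zero_mem' := ⟨0, Submodule.zero_mem _, Rep.zero⟩
  smul_mem' := by
    rintro c y ⟨x, hx, hxy⟩
    exact ⟨c • x, Submodule.smul_mem _ c hx, hxy.smul c⟩
  lie_mem' := by
    rintro y z ⟨x, hx, hxy⟩ ⟨x', hx', hxy'⟩
    refine ⟨x * x' - x' * x, hG x hx x' hx', ?_⟩
    rw [Ring.lie_def]
    exact hxy.lie hxy'

variable {G : Submodule K (Matrix ι ι K)} {hG : ∀ x ∈ G, ∀ y ∈ G, x * y - y * x ∈ G}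

lemma mem_lieOf {y : Module.End K T} : y ∈ lieOf T G hG ↔ ∃ x ∈ G, Rep x y := Iff.rfl

lemma lieOf_lie (y : lieOf T G hG) (v : T) : ⁅y, v⁆ = y.1 v := rfl

lemma exists_lieOf (hT : ∀ x ∈ G, ∀ v ∈ T, x *ᵥ v ∈ T) {x : Matrix ι ι K} (hx : x ∈ G) :
    ∃ y : lieOf T G hG, Rep x y.1 :=
  ⟨⟨(Matrix.toLin' x).restrict (p := T) (q := T)
      (fun v hv ↦ by rw [Matrix.toLin'_apply]; exact hT x hx v hv), x, hx, fun _ ↦ rfl⟩,
    fun _ ↦ rfl⟩

instance : LieModule.IsFaithful K (lieOf T G hG) T := by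
  refine (LieModule.isFaithful_iff K (lieOf T G hG) T).mpr ?_
  intro a b hab
  apply Subtype.ext
  exact hab

lemma irreducible_lieOf [Nontrivial T] (hT : ∀ x ∈ G, ∀ v ∈ T, x *ᵥ v ∈ T)
    (hirr : ∀ W : Submodule K (ι → K), W ≤ T → (∀ x ∈ G, ∀ w ∈ W, x *ᵥ w ∈ W) → W = ⊥ ∨ W = T) :
    LieModule.IsIrreducible K (lieOf T G hG) T := by
  refine LieModule.IsIrreducible.mk fun M hM ↦ ?_
  have hst : ∀ x ∈ G, ∀ w ∈ M.toSubmodule.map T.subtype, x *ᵥ w ∈ M.toSubmodule.map T.subtype := by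
    rintro x hx _ ⟨m, hm, rfl⟩
    obtain ⟨y, hy⟩ := exists_lieOf (hG := hG) hT hx
    exact ⟨⁅y, m⁆, M.lie_mem hm, hy m⟩
  rcases hirr _ (Submodule.map_subtype_le _ _) hst with h1 | h1
  · exfalso
    apply hM
    rw [LieSubmodule.eq_bot_iff]
    intro m hm
    have : (m : ι → K) ∈ M.toSubmodule.map T.subtype := ⟨m, hm, rfl⟩
    rw [h1, Submodule.mem_bot] at this
    exact Subtype.ext this
  · rw [eq_top_iff]
    intro v _
    have : (v : ι → K) ∈ M.toSubmodule.map T.subtype := by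
      rw [h1]; exact v.2
    obtain ⟨m, hm, hmv⟩ := this
    have : m = v := Subtype.ext hmv
    rw [← this]; exact hm

/-- Semilinear automorphisms coming from automorphisms of the field. -/
lemma exists_semiAut (σ : K ≃+* K) (h1 : ∀ v ∈ T, (fun i ↦ σ (v i)) ∈ T)
    (h2 : ∀ v ∈ T, (fun i ↦ σ.symm (v i)) ∈ T) (h3 : ∀ x ∈ G, x.map σ ∈ G)
    (h4 : ∀ x ∈ G, x.map σ.symm ∈ G) :
    ∃ s : SemiAut K (lieOf T G hG) T, ∀ (x : Matrix ι ι K) (y : lieOf T G hG), Rep x y.1 →
      Rep (x.map σ) (s.t y).1 := by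
  have hmul : ∀ (σ : K ≃+* K) (x : Matrix ι ι K) (v : ι → K),
      (fun i ↦ σ ((x *ᵥ v) i)) = x.map σ *ᵥ fun i ↦ σ (v i) := by
    intro σ x v
    ext i
    simp [mulVec, dotProduct]
  let S : T ≃+ T :=
    { toFun := fun v ↦ ⟨fun i ↦ σ (v.1 i), h1 v.1 v.2⟩
      invFun := fun v ↦ ⟨fun i ↦ σ.symm (v.1 i), h2 v.1 v.2⟩
      left_inv := by intro v; ext i; simp
      right_inv := by intro v; ext i; simp
      map_add' := by intro v w; ext i; simp }
  have hS : ∀ v : T, ((S v : T) : ι → K) = fun i ↦ σ (v.1 i) := fun v ↦ rfl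
  have hS' : ∀ v : T, ((S.symm v : T) : ι → K) = fun i ↦ σ.symm (v.1 i) := fun v ↦ rfl
  have hSs : ∀ (c : K) (v : T), S (c • v) = σ c • S v := by
    intro c v
    apply Subtype.ext
    ext i
    change σ (c * v.1 i) = σ c * σ (v.1 i)
    rw [map_mul]
  have hSs' : ∀ (c : K) (v : T), S.symm (c • v) = σ.symm c • S.symm v := by
    intro c v
    apply Subtype.ext
    ext i
    change σ.symm (c * v.1 i) = σ.symm c * σ.symm (v.1 i)
    rw [map_mul]
  let cj : Module.End K T → Module.End K T := fun y ↦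
    { toFun := fun v ↦ S (y (S.symm v))
      map_add' := by intro v w; rw [map_add, map_add, map_add]
      map_smul' := by
        intro c v
        rw [hSs', map_smul, hSs, RingEquiv.apply_symm_apply, RingHom.id_apply] }
  have hcj : ∀ (x : Matrix ι ι K) (y : Module.End K T), Rep x y → Rep (x.map σ) (cj y) := by
    intro x y hxy v
    change ((S (y (S.symm v)) : T) : ι → K) = _
    rw [hS, hxy, hmul, hS']
    congr 1
    ext i
    simp
  let ci : Module.End K T → Module.End K T := fun y ↦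
    { toFun := fun v ↦ S.symm (y (S v))
      map_add' := by intro v w; rw [map_add, map_add, map_add]
      map_smul' := by
        intro c v
        rw [hSs, map_smul, hSs', RingEquiv.symm_apply_apply, RingHom.id_apply] }
  have hci : ∀ (x : Matrix ι ι K) (y : Module.End K T), Rep x y → Rep (x.map σ.symm) (ci y) := by
    intro x y hxy v
    change ((S.symm (y (S v)) : T) : ι → K) = _
    rw [hS', hxy, hmul, hS]
    congr 1
    ext i
    simp
  let τ : lieOf T G hG → lieOf T G hG := fun y ↦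
    ⟨cj y.1, by
      obtain ⟨x, hx, hxy⟩ := mem_lieOf.mp y.2
      exact ⟨x.map σ, h3 x hx, hcj x _ hxy⟩⟩
  refine ⟨⟨σ, S, τ, hSs, ?_, ?_⟩, fun x y hxy ↦ hcj x _ hxy⟩
  · intro x v
    change S (x.1 v) = S (x.1 (S.symm (S v)))
    rw [AddEquiv.symm_apply_apply]
  · intro y
    refine ⟨⟨ci y.1, ?_⟩, ?_⟩
    · obtain ⟨x, hx, hxy⟩ := mem_lieOf.mp y.2
      exact ⟨x.map σ.symm, h4 x hx, hci x _ hxy⟩
    · apply Subtype.ext
      ext1 v
      change S (S.symm (y.1 (S (S.symm v)))) = y.1 v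
      rw [AddEquiv.apply_symm_apply, AddEquiv.apply_symm_apply]

end Rep

section Descent

variable [IsAlgClosed K] [CharZero k]

/-- An ideal stable under all automorphisms over the subfield comes from the subfield. -/
lemma exists_semiAut_not_mem {𝔤 : Submodule k (Matrix ι ι k)} {T : Submodule K (ι → K)}
    (hG : ∀ x ∈ mspan K 𝔤, ∀ y ∈ mspan K 𝔤, x * y - y * x ∈ mspan K 𝔤)
    (hT : ∀ x ∈ mspan K 𝔤, ∀ v ∈ T, x *ᵥ v ∈ T)
    (hTσ : ∀ (σ : K ≃ₐ[k] K), ∀ v ∈ T, (fun i ↦ σ (v i)) ∈ T)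
    {h : Matrix ι ι K} (hh : h ∈ mspan K 𝔤)
    (hgen : ∀ 𝔞 : Submodule k (Matrix ι ι k), 𝔞 ≤ 𝔤 →
        (∀ x ∈ 𝔤, ∀ y ∈ 𝔞, x * y - y * x ∈ 𝔞) → h ∈ mspan K 𝔞 → 𝔞 = 𝔤)
    {t : lieOf T (mspan K 𝔤) hG} (ht : Rep h t.1)
    (I : LieIdeal K (lieOf T (mspan K 𝔤) hG)) (htI : t ∈ I) (hItop : I ≠ ⊤) :
    ∃ σ : SemiAut K (lieOf T (mspan K 𝔤) hG) T, ∃ x ∈ I, σ.t x ∉ I := by
  by_contra! hcon
  apply hItop
  let W : Submodule K (Matrix ι ι K) :=
    { carrier := {x | x ∈ mspan K 𝔤 ∧ ∃ y ∈ I, Rep x y.1}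
      add_mem' := by
        rintro x y ⟨hx, z, hz, hxz⟩ ⟨hy, w, hw, hyw⟩
        exact ⟨Submodule.add_mem _ hx hy, z + w, I.add_mem hz hw, hxz.add hyw⟩
      zero_mem' := ⟨Submodule.zero_mem _, 0, I.zero_mem, Rep.zero⟩
      smul_mem' := by
        rintro c x ⟨hx, z, hz, hxz⟩
        exact ⟨Submodule.smul_mem _ c hx, c • z, I.smul_mem c hz, hxz.smul c⟩ }
  have hWmem : ∀ x, x ∈ W ↔ x ∈ mspan K 𝔤 ∧ ∃ y ∈ I, Rep x y.1 := fun x ↦ Iff.rfl
  have hWst : ∀ σ : K ≃ₐ[k] K, ∀ w ∈ W, w.map σ ∈ W := by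
    rintro σ x ⟨hx, z, hz, hxz⟩
    obtain ⟨s, hs⟩ := exists_semiAut (hG := hG) (T := T) σ.toRingEquiv (fun v hv ↦ hTσ σ v hv)
      (fun v hv ↦ hTσ σ.symm v hv) (fun x hx ↦ mspan_map_algEquiv σ hx)
      (fun x hx ↦ mspan_map_algEquiv σ.symm hx)
    exact ⟨mspan_map_algEquiv σ hx, s.t z, hcon s z hz, hs x z hxz⟩
  let 𝔞 : Submodule k (Matrix ι ι k) :=
    { carrier := {x | x.map (algebraMap k K) ∈ W}
      add_mem' := by
        intro x y hx hy
        change (x + y).map (algebraMap k K) ∈ W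
        rw [Matrix.map_add _ (map_add _)]
        exact W.add_mem hx hy
      zero_mem' := by
        change (0 : Matrix ι ι k).map (algebraMap k K) ∈ W
        rw [Matrix.map_zero _ (map_zero _)]
        exact W.zero_mem
      smul_mem' := by
        intro c x hx
        change (c • x).map (algebraMap k K) ∈ W
        have : (c • x).map (algebraMap k K) = algebraMap k K c • x.map (algebraMap k K) := by
          ext i j; simp
        rw [this]
        exact W.smul_mem _ hx }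
  have h𝔞 : ∀ x, x ∈ 𝔞 ↔ x.map (algebraMap k K) ∈ W := fun x ↦ Iff.rfl
  have hWa : W ≤ mspan K 𝔞 := le_mspan_of_stable hWst fun x hx ↦ hx
  have h𝔞le : 𝔞 ≤ 𝔤 := fun x hx ↦ mem_of_map_mem_mspan ((hWmem _).mp ((h𝔞 x).mp hx)).1
  have h𝔞eq : 𝔞 = 𝔤 := by
    refine hgen 𝔞 h𝔞le ?_ (hWa ((hWmem h).mpr ⟨hh, t, htI, ht⟩))
    intro x hx y hy
    obtain ⟨hy1, z, hz, hyz⟩ := (hWmem _).mp ((h𝔞 y).mp hy)
    have hx1 := map_mem_mspan (K := K) hx
    obtain ⟨u, hu⟩ := exists_lieOf (hG := hG) hT hx1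
    rw [h𝔞, Matrix.map_sub _ (map_sub _), Matrix.map_mul, Matrix.map_mul, hWmem]
    exact ⟨hG _ hx1 _ hy1, ⁅u, z⁆, lie_mem_right K _ I u z hz, hu.lie hyz⟩
  have hmW : mspan K 𝔤 ≤ W := by
    rw [mspan, Submodule.span_le]
    rintro _ ⟨x, hx, rfl⟩
    rw [← h𝔞eq] at hx
    exact hx
  rw [eq_top_iff]
  rintro y _
  obtain ⟨x, hx, hxy⟩ := mem_lieOf.mp y.2
  obtain ⟨_, z, hz, hxz⟩ := (hWmem x).mp (hmW hx)
  have : y = z := Subtype.ext (hxy.unique hxz)
  rw [this]
  exact hz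

end Descent

section Main

variable [IsAlgClosed K] [CharZero k]

lemma map_mem_orthS_smap (ψ : Matrix ι ι k) (N : Submodule k (ι → k)) (σ : K ≃ₐ[k] K) (v : ι → K)
    (hv : v ∈ orthS (ψ.map (algebraMap k K)) (smap K N)) :
    (fun i ↦ σ (v i)) ∈ orthS (ψ.map (algebraMap k K)) (smap K N) := by
  rw [orthS_smap] at hv ⊢
  unfold smap at hv
  induction hv using Submodule.span_induction with
  | mem v hv =>
    obtain ⟨a, ha, rfl⟩ := hv
    have : (fun i ↦ σ (vmap K a i)) = vmap K a := by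
      ext i; exact σ.commutes _
    rw [this]
    exact vmap_mem_smap ha
  | zero => simp only [Pi.zero_apply, map_zero]; exact Submodule.zero_mem _
  | add v w _ _ hv hw =>
    have : (fun i ↦ σ ((v + w) i)) = (fun i ↦ σ (v i)) + fun i ↦ σ (w i) := by
      ext i; simp
    rw [this]
    exact Submodule.add_mem _ hv hw
  | smul c v _ hv =>
    have : (fun i ↦ σ ((c • v) i)) = σ c • fun i ↦ σ (v i) := by
      ext i; simp
    rw [this]
    exact Submodule.smul_mem _ _ hv

/-- The Lie algebra theorem over a subfield. -/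
theorem soT_le_of_irreducible {ψ : Matrix ι ι k} (hψ : ψᵀ = ψ) (hdet : ψ.det ≠ 0)
    {N : Submodule k (ι → k)} (hN : ∀ v ∈ N, (∀ w ∈ N, bil ψ v w = 0) → v = 0)
    {𝔤 : Submodule k (Matrix ι ι k)} (hg : ∀ x ∈ 𝔤, ∀ y ∈ 𝔤, x * y - y * x ∈ 𝔤)
    (hgs : ∀ x ∈ 𝔤, x ∈ soT ψ (N : Set (ι → k)))
    {h : Matrix ι ι K} (hh : h ∈ mspan K 𝔤) (hcube : h ^ 3 = h)
    (hirr : ∀ W : Submodule K (ι → K),
      W ≤ orthS (ψ.map (algebraMap k K)) (smap K N) →
      (∀ x ∈ 𝔤, ∀ w ∈ W, x.map (algebraMap k K) *ᵥ w ∈ W) →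
      W = ⊥ ∨ W = orthS (ψ.map (algebraMap k K)) (smap K N))
    (hpos : 0 < finrank K (Module.End.eigenspace (Matrix.toLin' h) 1))
    (hlarge : finrank K (Module.End.eigenspace (Matrix.toLin' h) 1) ^ 2 +
      2 * finrank K (Module.End.eigenspace (Matrix.toLin' h) 1) < finrank k (orthS ψ N))
    (hodd : Odd (finrank k (orthS ψ N)))
    (hgen : (∀ 𝔞 : Submodule k (Matrix ι ι k), 𝔞 ≤ 𝔤 →
        (∀ x ∈ 𝔤, ∀ y ∈ 𝔞, x * y - y * x ∈ 𝔞) → h ∈ mspan K 𝔞 → 𝔞 = 𝔤) ∨
      Nat.Coprime (finrank k (orthS ψ N)) (finrank K (Module.End.eigenspace (Matrix.toLin' h) 1))) :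
    ∀ x ∈ soT ψ (N : Set (ι → k)), x ∈ 𝔤 := by
  have hKchar : CharZero K := charZero_of_injective_algebraMap (algebraMap k K).injective
  have hψ' : (ψ.map (algebraMap k K))ᵀ = ψ.map (algebraMap k K) := by
    rw [← Matrix.transpose_map, hψ]
  have hdet' : (ψ.map (algebraMap k K)).det ≠ 0 := by
    have : (ψ.map (algebraMap k K)).det = algebraMap k K ψ.det := (RingHom.map_det _ _).symm
    rw [this]
    simpa using hdet
  have hNK' : ∀ v ∈ smap K N, (∀ w ∈ smap K N, bil (ψ.map (algebraMap k K)) v w = 0) → v = 0 :=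
    nondeg_smap hN
  have hndT := nondeg_orthS hψ' hdet' hNK'
  have hms : ∀ x ∈ mspan K 𝔤, x ∈ soT (ψ.map (algebraMap k K)) (smap K N : Set (ι → K)) :=
    fun x hx ↦ mspan_le_soTS hgs hx
  have hfr : finrank K (orthS (ψ.map (algebraMap k K)) (smap K N)) = finrank k (orthS ψ N) := by
    rw [orthS_smap, finrank_smap]
  have hTσ := map_mem_orthS_smap (K := K) ψ N
  generalize hT' : orthS (ψ.map (algebraMap k K)) (smap K N) = T at *
  have hT : ∀ x ∈ mspan K 𝔤, ∀ v ∈ T, x *ᵥ v ∈ T := by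
    intro x hx v _
    rw [← hT']
    exact soT_mulVec_mem (hms x hx) v
  have hG : ∀ x ∈ mspan K 𝔤, ∀ y ∈ mspan K 𝔤, x * y - y * x ∈ mspan K 𝔤 :=
    fun x hx y hy ↦ mspan_lie hg hx hy
  have hVpos : 0 < finrank K T := by omega
  have hVnt : Nontrivial T := Module.nontrivial_of_finrank_pos hVpos
  have hI : LieModule.IsIrreducible K (lieOf T (mspan K 𝔤) hG) T := by
    refine irreducible_lieOf hT fun W hW hst ↦ hirr W hW fun x hx w hw ↦ ?_
    exact hst _ (map_mem_mspan hx) w hw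
  -- the form
  let B : LinearMap.BilinForm K T := (bilF (ψ.map (algebraMap k K))).restrict T
  have hBapp : ∀ v w : T, B v w = bil (ψ.map (algebraMap k K)) v w := fun v w ↦ rfl
  have hB' : ∀ v, (∀ w, B v w = 0) → v = 0 := by
    intro v hv
    apply Subtype.ext
    exact hndT v v.2 fun w hw ↦ hv ⟨w, hw⟩
  have hs : ∀ v w, B v w = B w v := fun v w ↦ bil_symm hψ' _ _
  have hskew : ∀ (x : Matrix ι ι K)
      (_ : x ∈ soT (ψ.map (algebraMap k K)) (smap K N : Set (ι → K)))
      (y : Module.End K T) (_ : Rep x y) (v w : T), B (y v) w = - B v (y w) := by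
    intro x hx y hxy v w
    rw [hBapp, hBapp, hxy, hxy]
    exact soT_skew hx _ _
  have hinv : ∀ (y : lieOf T (mspan K 𝔤) hG) (v w : T), B ⁅y, v⁆ w = - B v ⁅y, w⁆ := by
    intro y v w
    obtain ⟨x, hx, hxy⟩ := mem_lieOf.mp y.2
    exact hskew x (hms x hx) _ hxy v w
  obtain ⟨t, ht⟩ := exists_lieOf (hG := hG) hT hh
  have htv : ∀ v : T, ((⁅t, v⁆ : T) : ι → K) = h *ᵥ v := ht
  have htrip : IsTripotentOn T t := by
    intro v
    apply Subtype.ext
    rw [htv, htv, htv, mulVec_mulVec, mulVec_mulVec]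
    congr 1
    rw [← pow_two, ← pow_succ, hcube]
  have hker' : ∀ x : lieOf T (mspan K 𝔤) hG, ∃ v : T, v ≠ 0 ∧ ⁅x, v⁆ = 0 := by
    intro x
    exact exists_ker_of_odd hB' (hfr ▸ hodd) (y := x.1) (fun v w ↦ hinv x v w)
  have heig : finrank K ((toEnd K (lieOf T (mspan K 𝔤) hG) T t).eigenspace 1) =
      finrank K (Module.End.eigenspace (Matrix.toLin' h) 1) := by
    have h1 : ((toEnd K (lieOf T (mspan K 𝔤) hG) T t).eigenspace 1).map T.subtype =
        Module.End.eigenspace (Matrix.toLin' h) 1 := by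
      ext v
      rw [Module.End.mem_eigenspace_iff, Matrix.toLin'_apply, one_smul]
      constructor
      · rintro ⟨w, hw, rfl⟩
        have := Module.End.mem_eigenspace_iff.mp hw
        rw [one_smul, toEnd_apply_apply] at this
        rw [Submodule.subtype_apply, ← htv, this]
      · intro hv
        have hvT : v ∈ T := by
          rw [← hv, ← hT']; exact soT_mulVec_mem (hms h hh) v
        refine ⟨⟨v, hvT⟩, ?_, rfl⟩
        apply Module.End.mem_eigenspace_iff.mpr
        rw [one_smul, toEnd_apply_apply]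
        apply Subtype.ext
        rw [htv, hv]
    rw [← h1]
    exact (LinearEquiv.finrank_eq (Submodule.equivMapOfInjective _
      (Submodule.injective_subtype _) _))
  -- the conclusion follows from the equality of Lie algebras
  have hfin : (∀ y : Module.End K T, (∀ v w, B (y v) w = - B v (y w)) →
      ∃ x : lieOf T (mspan K 𝔤) hG, toEnd K _ T x = y) →
      ∀ x ∈ soT ψ (N : Set (ι → k)), x ∈ 𝔤 := by
    intro H x hx
    have hx' : x.map (algebraMap k K) ∈
      soT (ψ.map (algebraMap k K)) (smap K N : Set (ι → K)) := map_mem_soT hx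
    let y₀ : Module.End K T := (Matrix.toLin' (x.map (algebraMap k K))).restrict (p := T) (q := T)
      (fun v hv ↦ by rw [Matrix.toLin'_apply, ← hT']; exact soT_mulVec_mem hx' v)
    have hy₀ : Rep (x.map (algebraMap k K)) y₀ := fun v ↦ rfl
    obtain ⟨y, hy⟩ := H y₀ (hskew _ hx' _ hy₀)
    obtain ⟨x', hx'm, hyx'⟩ := mem_lieOf.mp y.2
    apply mem_of_map_mem_mspan (K := K)
    have h1 : x' = x.map (algebraMap k K) := by
      apply eq_of_forall_mulVec
      intro v
      obtain ⟨a, ha, b, hb, rfl⟩ := exists_orth_decomp hψ' hNK' v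
      rw [hT'] at hb
      rw [mulVec_add, mulVec_add, (hms _ hx'm).2 a ha, hx'.2 a ha, ← hyx' ⟨b, hb⟩,
        ← hy₀ ⟨b, hb⟩, ← hy]
      rfl
    rw [← h1]
    exact hx'm
  apply hfin
  intro y hy
  rcases hgen with hgen | hcop
  · refine exists_toEnd_eq_of_semiAut hB' hs hinv hker' htrip ?_ (by rw [heig]; exact hpos)
      (by rw [heig, hfr]; nlinarith [hlarge]) hy
    intro I htI hItop
    exact exists_semiAut_not_mem hG hT (fun σ v hv ↦ hTσ σ v hv) hh hgen ht I htI hItop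
  · refine exists_toEnd_eq_of_large hB' hs hinv hker' htrip ?_ (by rw [heig]; exact hpos)
      (by rw [heig, hfr]; nlinarith [hlarge]) hy
    intro I J hIJ hsup htI
    refine eq_bot_of_coprime hB' hinv hIJ hsup htI ?_
    rw [heig, hfr]
    exact hcop

end Main

end Pool.Agent.Helper88.MT
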