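import Mathlib
import Pool.Agent.Helper88.MT.Dual
import Pool.Agent.Helper88.MT.OverField

/-!
# Rational points are dense in the special orthogonal group
-/

set_option linter.unusedSectionVars false

namespace Pool.Agent.Helper88.MT

open Matrix Module

variable {ι : Type*} [Fintype ι] [DecidableEq ι]
variable {k : Type*} [Field k] [CharZero k]

section Cayley

variable {ψ : Matrix ι ι k} {N : Set (ι → k)}

lemma cayley_mem (hdet : ψ.det ≠ 0) {x : Matrix ι ι k} (hx : x ∈ soT ψ N) {s : k}
    (hs : (1 + s • x).det ≠ 0) {M : Matrix ι ι k} (hM : M ∈ SOT ψ N) {M' : Matrix ι ι k}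
    (hM' : M' * (1 + s • x) = M * (1 - s • x)) : M' ∈ SOT ψ N := by
  obtain ⟨hM1, hM2, hM3⟩ := hM
  set A := 1 + s • x with hA
  set B := 1 - s • x with hB
  have hx1 : xᵀ * ψ = - (ψ * x) := eq_neg_of_add_eq_zero_left hx.1
  have hAψ : Aᵀ * ψ = ψ * B := by
    rw [hA, hB, transpose_add, transpose_one, transpose_smul, add_mul, one_mul, smul_mul_assoc,
      hx1, mul_sub, mul_one, mul_smul_comm, smul_neg, sub_eq_add_neg]
  have hBψ : Bᵀ * ψ = ψ * A := by
    rw [hA, hB, transpose_sub, transpose_one, transpose_smul, sub_mul, one_mul, smul_mul_assoc,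
      hx1, mul_add, mul_one, mul_smul_comm, smul_neg, sub_neg_eq_add]
  have hAB : A * B = B * A := by
    rw [hA, hB]
    generalize s • x = y
    noncomm_ring
  have hdetAB : B.det = A.det := by
    have h := congrArg Matrix.det hBψ
    rw [det_mul, det_mul, det_transpose, mul_comm] at h
    exact mul_left_cancel₀ hdet h
  have hAu : IsUnit A := (Matrix.isUnit_iff_isUnit_det A).mpr (isUnit_iff_ne_zero.mpr hs)
  have hAtu : IsUnit Aᵀ := (Matrix.isUnit_iff_isUnit_det _).mpr
    (by rw [det_transpose]; exact isUnit_iff_ne_zero.mpr hs)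
  refine ⟨?_, ?_, ?_⟩
  · have h1 : Aᵀ * (M'ᵀ * ψ * M') * A = Aᵀ * ψ * A := by
      have h2 : Aᵀ * (M'ᵀ * ψ * M') * A = (M' * A)ᵀ * ψ * (M' * A) := by
        rw [transpose_mul]; simp only [mul_assoc]
      rw [h2, hM', transpose_mul]
      have h3 : Bᵀ * Mᵀ * ψ * (M * B) = Bᵀ * (Mᵀ * ψ * M) * B := by simp only [mul_assoc]
      rw [h3, hM1, hBψ, hAψ, mul_assoc, mul_assoc, hAB]
    have h4 : (Aᵀ * (M'ᵀ * ψ * M')) = Aᵀ * ψ := hAu.mul_right_cancel h1
    exact hAtu.mul_left_cancel h4
  · have h := congrArg Matrix.det hM'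
    rw [det_mul, det_mul, hM2, one_mul, hdetAB] at h
    exact mul_right_cancel₀ hs (by rw [h, one_mul])
  · intro w hw
    have hAw : A *ᵥ w = w := by
      rw [hA, add_mulVec, one_mulVec, smul_mulVec, hx.2 w hw, smul_zero, add_zero]
    have hBw : B *ᵥ w = w := by
      rw [hB, sub_mulVec, one_mulVec, smul_mulVec, hx.2 w hw, smul_zero, sub_zero]
    have h := congrArg (fun Z ↦ Z *ᵥ w) hM'
    simp only [← Matrix.mulVec_mulVec] at h
    rw [hAw, hBw, hM3 w hw] at h
    exact h

/-- The vanishing ideal of the special orthogonal group is stable under the invariant derivations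
along the orthogonal Lie algebra. -/
lemma der_mem_van_SOT (hdet : ψ.det ≠ 0) {x : Matrix ι ι k} (hx : x ∈ soT ψ N) :
    ∀ f ∈ van k (SOT ψ N), der x f ∈ van k (SOT ψ N) := by
  intro f hf
  rw [mem_van_self] at hf ⊢
  intro M hM
  have hinf : Infinite k := inferInstance
  set xC : Matrix ι ι (Polynomial k) := x.map Polynomial.C with hxC
  set A : Matrix ι ι (Polynomial k) := 1 + (Polynomial.X : Polynomial k) • xC with hA
  set B : Matrix ι ι (Polynomial k) := 1 - (Polynomial.X : Polynomial k) • xC with hB
  set b : Matrix ι ι (Polynomial k) := M.map Polynomial.C * (B * A.adjugate) with hb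
  -- evaluation
  have hev : ∀ {R : Type _} [CommRing R] [Algebra k R] (e : R),
      A.map (Polynomial.aeval e) = 1 + e • x.map (algebraMap k R) ∧
      B.map (Polynomial.aeval e) = 1 - e • x.map (algebraMap k R) := by
    intro R _ _ e
    constructor
    · ext i j
      simp only [hA, hxC, Matrix.map_apply, Matrix.add_apply, Matrix.smul_apply, smul_eq_mul,
        map_add, map_mul, Polynomial.aeval_X, Polynomial.aeval_C]
      congr 1
      by_cases hij : i = j
      · subst hij; simp
      · simp [Matrix.one_apply_ne hij]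
    · ext i j
      simp only [hB, hxC, Matrix.map_apply, Matrix.sub_apply, Matrix.smul_apply, smul_eq_mul,
        map_sub, map_mul, Polynomial.aeval_X, Polynomial.aeval_C]
      congr 1
      by_cases hij : i = j
      · subst hij; simp
      · simp [Matrix.one_apply_ne hij]
  have hevb : ∀ {R : Type _} [CommRing R] [Algebra k R] (e : R),
      b.map (Polynomial.aeval e) = M.map (algebraMap k R) *
        ((1 - e • x.map (algebraMap k R)) * (1 + e • x.map (algebraMap k R)).adjugate) := by
    intro R _ _ e
    obtain ⟨h1, h2⟩ := hev e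
    have h3 : b.map (Polynomial.aeval e) = (Polynomial.aeval e).toRingHom.mapMatrix b := rfl
    rw [h3, hb, map_mul, map_mul, RingHom.map_adjugate]
    have h4 : (Polynomial.aeval e).toRingHom.mapMatrix A = 1 + e • x.map (algebraMap k R) := h1
    have h5 : (Polynomial.aeval e).toRingHom.mapMatrix B = 1 - e • x.map (algebraMap k R) := h2
    rw [h4, h5]
    congr 1
    ext i j
    simp
  have hevd : ∀ {R : Type _} [CommRing R] [Algebra k R] (e : R),
      Polynomial.aeval e A.det = (1 + e • x.map (algebraMap k R)).det := by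
    intro R _ _ e
    obtain ⟨h1, h2⟩ := hev e
    have h3 := (Polynomial.aeval e).toRingHom.map_det A
    have h4 : (Polynomial.aeval e).toRingHom.mapMatrix A = 1 + e • x.map (algebraMap k R) := h1
    rw [h4] at h3
    exact h3
  have hxk : x.map (algebraMap k k) = x := by ext i j; simp
  have hMk : M.map (algebraMap k k) = M := by ext i j; simp
  have hdA : A.det ≠ 0 := by
    intro h
    have h1 := hevd (0 : k)
    rw [h, map_zero, zero_smul, add_zero, det_one] at h1
    exact zero_ne_one h1
  have key := evM_der_eq_zero_of_curve (f := f) (Z := {s : k | A.det.eval s ≠ 0}) ?_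
    (δ := A.det) (b := b) (fun s hs ↦ hs) ?_ (s₀ := 0) ?_ (g := M) (x := (-2 : k) • x) ?_
  · rw [der_smul, Derivation.smul_apply, map_smul, smul_eq_mul] at key
    exact (mul_eq_zero.mp key).resolve_left (by norm_num)
  · have h1 : {s : k | A.det.eval s ≠ 0} = {s : k | A.det.IsRoot s}ᶜ := by
      ext s; rfl
    rw [h1]
    exact Set.Finite.infinite_compl (Polynomial.finite_setOfPred_isRoot hdA)
  · intro s hs M' hM'
    apply hf
    refine cayley_mem hdet hx (s := s) ?_ hM ?_
    · have h1 := hevd s
      rw [hxk, Polynomial.coe_aeval_eq_eval] at h1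
      rw [← h1]
      exact hs
    · have h1 := hevd s
      rw [hxk, Polynomial.coe_aeval_eq_eval] at h1
      have h2 := hevb s
      rw [hxk, hMk] at h2
      have h3 : b.map (Polynomial.aeval s) = (1 + s • x).det • M' := by
        ext i j
        rw [Matrix.map_apply, Polynomial.coe_aeval_eq_eval, hM' i j, Matrix.smul_apply,
          smul_eq_mul, ← h1]
      rw [h3] at h2
      have h4 := congrArg (fun Z ↦ Z * (1 + s • x)) h2
      simp only [smul_mul_assoc, mul_assoc, adjugate_mul, mul_smul_comm, mul_one] at h4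
      have hs' : (1 + s • x).det ≠ 0 := by rw [← h1]; exact hs
      have h5 := congrArg (fun Z ↦ ((1 + s • x).det)⁻¹ • Z) h4
      simp only [smul_smul, inv_mul_cancel₀ hs', one_smul] at h5
      exact h5
  · have h1 := hevd (0 : k)
    rw [Polynomial.coe_aeval_eq_eval, zero_smul, add_zero, det_one] at h1
    rw [h1]
    exact one_ne_zero
  · intro i j
    set e : DualNumber k := TrivSqZeroExt.inl 0 + TrivSqZeroExt.inr 1 with he
    have hee : e * e = 0 := by
      rw [he]
      ext <;> simp
    have h2 : b.map (Polynomial.aeval e) i j = _ := congrFun (congrFun (hevb e) i) j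
    rw [Matrix.map_apply] at h2
    rw [h2, hevd e]
    set X := x.map (algebraMap k (DualNumber k)) with hX
    have h3 : (1 + e • X) * (1 - e • X) = 1 := by
      have : (e • X) * (e • X) = 0 := by
        rw [smul_mul_smul_comm, hee, zero_smul]
      generalize e • X = Y at this ⊢
      calc (1 + Y) * (1 - Y) = 1 - Y * Y := by noncomm_ring
        _ = 1 := by rw [this, sub_zero]
    have h4 : (1 + e • X).adjugate = (1 + e • X).det • (1 - e • X) := by
      calc (1 + e • X).adjugate = (1 + e • X).adjugate * ((1 + e • X) * (1 - e • X)) := by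
            rw [h3, mul_one]
        _ = ((1 + e • X).adjugate * (1 + e • X)) * (1 - e • X) := by rw [mul_assoc]
        _ = _ := by rw [adjugate_mul, smul_mul_assoc, one_mul]
    have h5 : (1 - e • X) * (1 - e • X) = 1 - (e + e) • X := by
      have : (e • X) * (e • X) = 0 := by
        rw [smul_mul_smul_comm, hee, zero_smul]
      have h6 : (e + e) • X = e • X + e • X := add_smul e e X
      rw [h6]
      generalize e • X = Y at this ⊢
      calc (1 - Y) * (1 - Y) = 1 - (Y + Y) + Y * Y := by noncomm_ring
        _ = _ := by rw [this, add_zero]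
    rw [h4, mul_smul_comm, h5, mul_smul_comm, Matrix.smul_apply, smul_eq_mul]
    congr 1
    rw [mul_sub, mul_one, mul_smul_comm, Matrix.sub_apply, Matrix.smul_apply, smul_eq_mul, dualM,
      hX, ← Matrix.map_mul, Matrix.map_apply, Matrix.map_apply, mul_smul_comm, Matrix.smul_apply,
      smul_eq_mul, he]
    have hal : ∀ a : k, algebraMap k (DualNumber k) a = TrivSqZeroExt.inl a := fun a ↦ rfl
    rw [hal, hal]
    ext
    · simp
    · simp
      ring

end Cayley

section Density

variable {F : Type*} [Field F] [Algebra k F]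

/-- The orthogonal Lie algebra over a larger field is spanned by rational elements. -/
lemma soT_smap_le {ψ : Matrix ι ι k} {N : Submodule k (ι → k)} {x : Matrix ι ι F}
    (hx : x ∈ soT (ψ.map (algebraMap k F)) (smap F N : Set (ι → F))) :
    x ∈ mspan F (soTS ψ (N : Set (ι → k))) := by
  let b := Basis.ofVectorSpace k F
  rw [mspan_map, mem_smap_iff b]
  intro j
  let xj : Matrix ι ι k := fun i l ↦ b.repr (x i l) j
  refine ⟨xj, ?_, rfl⟩
  have hcoord : ∀ w : ι → k, vcoord b j (x *ᵥ vmap F w) = xj *ᵥ w := by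
    intro w
    ext i
    rw [vcoord_apply, mulVec, dotProduct, mulVec, dotProduct, map_sum, Finsupp.finsetSum_apply]
    refine Finset.sum_congr rfl fun l _ ↦ ?_
    rw [vmap, mul_comm, ← Algebra.smul_def, map_smul, Finsupp.smul_apply, smul_eq_mul, mul_comm]
  refine ⟨?_, ?_⟩
  · ext i l
    have h1 := congrFun (congrFun hx.1 i) l
    have h2 := congrArg (fun c ↦ b.repr c j) h1
    simp only [Matrix.add_apply, Matrix.mul_apply, Matrix.transpose_apply, Matrix.map_apply,
      Matrix.zero_apply, map_add, map_sum, Finsupp.add_apply, Finsupp.finsetSum_apply, map_zero,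
      Finsupp.zero_apply] at h2
    simp only [Matrix.add_apply, Matrix.mul_apply, Matrix.transpose_apply, Matrix.zero_apply]
    rw [← h2]
    congr 1
    · refine Finset.sum_congr rfl fun m _ ↦ ?_
      change b.repr (x m i) j * _ = _
      rw [mul_comm (x m i), ← Algebra.smul_def, map_smul, Finsupp.smul_apply, smul_eq_mul,
        mul_comm]
    · refine Finset.sum_congr rfl fun m _ ↦ ?_
      change _ * b.repr (x m l) j = _
      rw [← Algebra.smul_def, map_smul, Finsupp.smul_apply, smul_eq_mul]
  · intro w hw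
    rw [← hcoord, hx.2 _ (vmap_mem_smap hw), map_zero]

/-- If a space of polynomials over `F` is stable under the derivations along rational elements, it
is stable under the derivations along their span. -/
lemma der_mem_of_mspan {𝔤 : Submodule k (Matrix ι ι k)}
    {𝓘 : Submodule F (MvPolynomial (ι × ι) F)}
    (h : ∀ x ∈ 𝔤, ∀ f ∈ 𝓘, der (x.map (algebraMap k F)) f ∈ 𝓘) {x : Matrix ι ι F}
    (hx : x ∈ mspan F 𝔤) : ∀ f ∈ 𝓘, der x f ∈ 𝓘 := by
  unfold mspan at hx
  induction hx using Submodule.span_induction with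
  | mem x hx =>
    obtain ⟨y, hy, rfl⟩ := hx
    exact h y hy
  | zero =>
    intro f _
    rw [der_zero, Derivation.zero_apply]
    exact 𝓘.zero_mem
  | add x y _ _ hx hy =>
    intro f hf
    rw [der_add, Derivation.add_apply]
    exact 𝓘.add_mem (hx f hf) (hy f hf)
  | smul c x _ hx =>
    intro f hf
    rw [der_smul, Derivation.smul_apply]
    exact 𝓘.smul_mem c (hx f hf)

lemma one_mem_SOT (ψ : Matrix ι ι k) (N : Set (ι → k)) : (1 : Matrix ι ι k) ∈ SOT ψ N :=
  ⟨by simp, by simp, by simp⟩

/-- Rational points are dense. -/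
lemma evM_eq_zero_of_mem_van_SOT {ψ : Matrix ι ι k} (hψ : ψᵀ = ψ) (hdet : ψ.det ≠ 0)
    {N : Submodule k (ι → k)} (hN : ∀ v ∈ N, (∀ w ∈ N, bil ψ v w = 0) → v = 0)
    {f : MvPolynomial (ι × ι) F} (hf : f ∈ van F (SOT ψ (N : Set (ι → k))))
    {g : Matrix ι ι F} (hg : g ∈ SOT (ψ.map (algebraMap k F)) (smap F N : Set (ι → F))) :
    evM g f = 0 := by
  have hFchar : CharZero F := charZero_of_injective_algebraMap (algebraMap k F).injective
  have hψ' : (ψ.map (algebraMap k F))ᵀ = ψ.map (algebraMap k F) := by
    rw [← Matrix.transpose_map, hψ]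
  have hdet' : (ψ.map (algebraMap k F)).det ≠ 0 := by
    have : (ψ.map (algebraMap k F)).det = algebraMap k F ψ.det := (RingHom.map_det _ _).symm
    rw [this]
    simpa using hdet
  refine evM_eq_zero_of_mem_SOT hψ' hdet' (nondeg_smap hN)
    (𝓘 := (van F (SOT ψ (N : Set (ι → k))) : Set (MvPolynomial (ι × ι) F))) ?_ ?_ hg f hf
  · intro x hx f hf
    refine der_mem_of_mspan (𝔤 := soTS ψ (N : Set (ι → k))) ?_ (soT_smap_le hx) f hf
    intro y hy f hf
    exact der_mem_van (der_mem_van_SOT hdet hy) f hf
  · intro f hf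
    have := hf 1 (one_mem_SOT ψ _)
    rwa [Matrix.map_one _ (map_zero _) (map_one _)] at this

end Density

end Pool.Agent.Helper88.MT
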