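import Mathlib
import Pool.Agent.Helper88.MT.Rational

/-!
# Irreducibility of the orthogonal Lie algebra, tangent vectors
-/

set_option linter.unusedSectionVars false

namespace Pool.Agent.Helper88.MT

open Matrix Module

variable {ι : Type*} [Fintype ι] [DecidableEq ι]

section Irr

variable {F : Type*} [Field F] [CharZero F]

/-- The elementary skew-adjoint matrices. -/
def skewM (ψ : Matrix ι ι F) (a b : ι → F) : Matrix ι ι F :=
  vecMulVec b (ψ *ᵥ a) - vecMulVec a (ψ *ᵥ b)

lemma skewM_mulVec {ψ : Matrix ι ι F} (hψ : ψᵀ = ψ) (a b v : ι → F) :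
    skewM ψ a b *ᵥ v = bil ψ a v • b - bil ψ b v • a := by
  unfold skewM
  rw [sub_mulVec, vecMulVec_mulVec, vecMulVec_mulVec, mulVec_dotProduct_eq hψ,
    mulVec_dotProduct_eq hψ, op_smul_eq_smul, op_smul_eq_smul]

lemma skewM_mem {ψ : Matrix ι ι F} (hψ : ψᵀ = ψ) {N : Submodule F (ι → F)} {a b : ι → F}
    (ha : a ∈ orthS ψ N) (hb : b ∈ orthS ψ N) : skewM ψ a b ∈ soT ψ (N : Set (ι → F)) := by
  apply mem_soT_of_skew
  · intro v w
    rw [skewM_mulVec hψ, skewM_mulVec hψ, bil_sub_left, bil_smul_left, bil_smul_left,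
      bil_sub_right, bil_smul_right, bil_smul_right, bil_symm hψ v b, bil_symm hψ v a]
    ring
  · intro w hw
    rw [skewM_mulVec hψ, ha w hw, hb w hw, zero_smul, zero_smul, sub_zero]

/-- The orthogonal Lie algebra acts irreducibly if the dimension is at least three. -/
lemma soT_irreducible {ψ : Matrix ι ι F} (hψ : ψᵀ = ψ) (hdet : ψ.det ≠ 0)
    {N : Submodule F (ι → F)} (hN : ∀ v ∈ N, (∀ w ∈ N, bil ψ v w = 0) → v = 0)
    (hdim : 3 ≤ finrank F (orthS ψ N)) {W : Submodule F (ι → F)} (hWT : W ≤ orthS ψ N)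
    (hW : ∀ x ∈ soT ψ (N : Set (ι → F)), ∀ w ∈ W, x *ᵥ w ∈ W) : W = ⊥ ∨ W = orthS ψ N := by
  by_cases hW0 : W = ⊥
  · exact Or.inl hW0
  right
  set T := orthS ψ N with hT
  have hTnd := nondeg_orthS hψ hdet hN
  -- if `v ∈ W` is nonzero then the orthogonal of `v` lies in `W`
  have key : ∀ v ∈ W, v ≠ 0 → ∃ a ∈ T, bil ψ a v = 1 ∧ ∀ b ∈ T, bil ψ b v = 0 → b ∈ W := by
    intro v hv hv0
    obtain ⟨w, hw, hvw⟩ : ∃ w ∈ T, bil ψ v w ≠ 0 := by
      by_contra! h
      exact hv0 (hTnd v (hWT hv) h)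
    refine ⟨(bil ψ v w)⁻¹ • w, T.smul_mem _ hw, ?_, ?_⟩
    · rw [bil_smul_left, bil_symm hψ w v, inv_mul_cancel₀ hvw]
    · intro b hb hbv
      have h1 := hW _ (skewM_mem hψ (T.smul_mem (bil ψ v w)⁻¹ hw) hb) v hv
      rw [skewM_mulVec hψ, hbv, zero_smul, sub_zero, bil_smul_left, bil_symm hψ w v,
        inv_mul_cancel₀ hvw, one_smul] at h1
      exact h1
  obtain ⟨v, hv, hv0⟩ := (Submodule.ne_bot_iff _).mp hW0
  obtain ⟨a, ha, hav, hperp⟩ := key v hv hv0
  -- a vector orthogonal to `v` which is not a multiple of `v`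
  obtain ⟨v', hv'T, hv'v, hv'⟩ : ∃ v' ∈ T, bil ψ v' v = 0 ∧ ∀ c : F, v' ≠ c • v := by
    by_contra! hcon
    have h1 : T ≤ Submodule.span F {a, v} := by
      intro u hu
      obtain ⟨c, hc⟩ := hcon (u - bil ψ u v • a) (T.sub_mem hu (T.smul_mem _ ha)) (by
        rw [bil_sub_left, bil_smul_left, hav, mul_one, sub_self])
      have h2 : u = bil ψ u v • a + c • v := by rw [← hc]; abel
      rw [h2]
      exact Submodule.add_mem _ (Submodule.smul_mem _ _ (Submodule.subset_span (by simp)))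
        (Submodule.smul_mem _ _ (Submodule.subset_span (by simp)))
    have h2 := Submodule.finrank_mono h1
    have h3 : finrank F (Submodule.span F ({a, v} : Set (ι → F))) ≤ 2 := by
      classical
      have h4 := finrank_span_finset_le_card (R := F) ({a, v} : Finset (ι → F))
      rw [Finset.coe_pair] at h4
      exact h4.trans Finset.card_le_two
    omega
  have hv'W : v' ∈ W := hperp v' hv'T hv'v
  have hv'0 : v' ≠ 0 := by
    have := hv' 0
    rwa [zero_smul] at this
  obtain ⟨a', ha', hav', hperp'⟩ := key v' hv'W hv'0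
  obtain ⟨c, hc, hcv, hcv'⟩ : ∃ c ∈ T, bil ψ c v = 0 ∧ bil ψ c v' ≠ 0 := by
    by_contra! hcon
    apply hv' (bil ψ a v')
    rw [← sub_eq_zero]
    apply hTnd _ (T.sub_mem hv'T (T.smul_mem _ (hWT hv)))
    intro u hu
    have h1 := hcon (u - bil ψ u v • a) (T.sub_mem hu (T.smul_mem _ ha)) (by
      rw [bil_sub_left, bil_smul_left, hav, mul_one, sub_self])
    rw [bil_sub_left, bil_smul_left] at h1
    rw [bil_sub_left, bil_smul_left, bil_symm hψ v' u, bil_symm hψ v u]
    linear_combination h1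
  apply le_antisymm hWT
  intro u hu
  have h1 : u = (u - (bil ψ u v' / bil ψ c v') • c) + (bil ψ u v' / bil ψ c v') • c := by abel
  rw [h1]
  refine W.add_mem (hperp' _ (T.sub_mem hu (T.smul_mem _ hc)) ?_)
    (W.smul_mem _ (hperp c hc hcv))
  rw [bil_sub_left, bil_smul_left, div_mul_cancel₀ _ hcv', sub_self]

end Irr

section Tangent

variable {F : Type*} [Field F]

/-- The generic matrix. -/
noncomputable def genM (ι F : Type*) [Field F] : Matrix ι ι (MvPolynomial (ι × ι) F) :=
  fun i j ↦ MvPolynomial.X (i, j)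

lemma genM_map {R : Type*} [CommRing R] [Algebra F R] (M : Matrix ι ι R) :
    (evM (F := F) M).toRingHom.mapMatrix (genM ι F) = M := by
  ext i j
  exact evM_X M (i, j)

lemma const_map {R : Type*} [CommRing R] [Algebra F R] (M : Matrix ι ι R) (ψ : Matrix ι ι F) :
    (evM (F := F) M).toRingHom.mapMatrix (ψ.map MvPolynomial.C) = ψ.map (algebraMap F R) := by
  ext i j
  exact evM_C M (ψ i j)

/-- The equations of the isometry group. -/
noncomputable def eqIsom (ψ : Matrix ι ι F) : Matrix ι ι (MvPolynomial (ι × ι) F) :=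
  (genM ι F)ᵀ * ψ.map MvPolynomial.C * genM ι F - ψ.map MvPolynomial.C

lemma evM_eqIsom {R : Type*} [CommRing R] [Algebra F R] (M : Matrix ι ι R) (ψ : Matrix ι ι F)
    (i j : ι) : evM (F := F) M (eqIsom ψ i j) =
      (Mᵀ * ψ.map (algebraMap F R) * M - ψ.map (algebraMap F R)) i j := by
  have h : (evM (F := F) M).toRingHom.mapMatrix (eqIsom ψ) =
      Mᵀ * ψ.map (algebraMap F R) * M - ψ.map (algebraMap F R) := by
    rw [eqIsom, map_sub, map_mul, map_mul, const_map, genM_map]
    have : (evM (F := F) M).toRingHom.mapMatrix (genM ι F)ᵀ = Mᵀ := by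
      rw [RingHom.mapMatrix_apply, Matrix.transpose_map]
      congr 1
      exact genM_map M
    rw [this]
  exact congrFun (congrFun h i) j

/-- The equations of the stabiliser of a vector. -/
noncomputable def eqFix (w : ι → F) : ι → MvPolynomial (ι × ι) F :=
  fun i ↦ ∑ j, genM ι F i j * MvPolynomial.C (w j) - MvPolynomial.C (w i)

lemma evM_eqFix {R : Type*} [CommRing R] [Algebra F R] (M : Matrix ι ι R) (w : ι → F)
    (i : ι) : evM (F := F) M (eqFix w i) =
      (M *ᵥ (fun j ↦ algebraMap F R (w j))) i - algebraMap F R (w i) := by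
  rw [eqFix, map_sub, map_sum, evM_C, mulVec, dotProduct]
  congr 1
  refine Finset.sum_congr rfl fun j _ ↦ ?_
  rw [map_mul, evM_C, genM, evM_X]

/-- The equation of the special linear group. -/
noncomputable def eqDet (ι F : Type*) [Field F] [Fintype ι] [DecidableEq ι] :
    MvPolynomial (ι × ι) F := (genM ι F).det - 1

lemma evM_eqDet {R : Type*} [CommRing R] [Algebra F R] (M : Matrix ι ι R) :
    evM (F := F) M (eqDet ι F) = M.det - 1 := by
  rw [eqDet, map_sub, map_one]
  congr 1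
  have h := (evM (F := F) M).toRingHom.map_det (genM ι F)
  rw [genM_map] at h
  exact h

/-- Tangent vectors of a set of isometries. -/
lemma mem_soT_of_tangent {R : Type*} [CommRing R] [Algebra F R] {ψ : Matrix ι ι F}
    {N : Set (ι → F)} {S : Set (Matrix ι ι R)}
    (h1 : ∀ M ∈ S, Mᵀ * ψ.map (algebraMap F R) * M = ψ.map (algebraMap F R))
    (h2 : ∀ M ∈ S, ∀ w ∈ N, M *ᵥ (fun j ↦ algebraMap F R (w j)) = fun j ↦ algebraMap F R (w j))
    {x : Matrix ι ι F}
    (hx : ∀ f : MvPolynomial (ι × ι) F, (∀ M ∈ S, evM M f = 0) →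
      evM (1 : Matrix ι ι F) (der x f) = 0) : x ∈ soT ψ N := by
  have hdual : ∀ f : MvPolynomial (ι × ι) F, (∀ M ∈ S, evM M f = 0) →
      (evM (dualM 1 x) f).snd = 0 := by
    intro f hf
    rw [evM_dualM, hx f hf]
    simp
  have hal : ∀ a : F, algebraMap F (DualNumber F) a = TrivSqZeroExt.inl a := fun a ↦ rfl
  refine ⟨?_, ?_⟩
  · set e : DualNumber F := TrivSqZeroExt.inr 1 with he
    set X := x.map (algebraMap F (DualNumber F)) with hX
    set Ψ := ψ.map (algebraMap F (DualNumber F)) with hΨ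
    have hee : e * e = 0 := by
      rw [he]
      ext <;> simp
    have hd : dualM 1 x = 1 + e • X := by
      ext i j
      all_goals
        rw [dualM, Matrix.add_apply, Matrix.smul_apply, hX, Matrix.map_apply, hal, one_mul, he]
        by_cases hij : i = j
        · subst hij; simp
        · simp [Matrix.one_apply_ne hij]
    have h4 : (1 + e • X)ᵀ * Ψ * (1 + e • X) - Ψ = e • (Xᵀ * Ψ + Ψ * X) := by
      have h5 : (e • Xᵀ) * Ψ * (e • X) = 0 := by
        rw [smul_mul_assoc, smul_mul_assoc, mul_smul_comm, smul_smul, hee, zero_smul]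
      rw [transpose_add, transpose_one, transpose_smul, smul_add, ← smul_mul_assoc,
        ← mul_smul_comm]
      generalize e • X = Y at h5 ⊢
      generalize e • Xᵀ = Z at h5 ⊢
      calc (1 + Z) * Ψ * (1 + Y) - Ψ = Z * Ψ + Ψ * Y + Z * Ψ * Y := by noncomm_ring
        _ = _ := by rw [h5, add_zero]
    ext i j
    have h3 := hdual (eqIsom ψ i j) (fun M hM ↦ by
      rw [evM_eqIsom, h1 M hM, sub_self, Matrix.zero_apply])
    rw [evM_eqIsom, hd, h4] at h3
    have h6 : Xᵀ * Ψ + Ψ * X = (xᵀ * ψ + ψ * x).map (algebraMap F (DualNumber F)) := by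
      rw [Matrix.map_add _ (map_add _), Matrix.map_mul, Matrix.map_mul, Matrix.transpose_map]
    rw [h6, Matrix.smul_apply, Matrix.map_apply, hal, he] at h3
    rw [Matrix.zero_apply, ← h3]
    simp
  · intro w hw
    ext i
    have h3 := hdual (eqFix w i) (fun M hM ↦ by
      rw [evM_eqFix, h2 M hM w hw, sub_self])
    rw [evM_eqFix, TrivSqZeroExt.snd_sub, hal, TrivSqZeroExt.snd_inl, sub_zero, mulVec,
      dotProduct, TrivSqZeroExt.snd_sum] at h3
    rw [mulVec, dotProduct, Pi.zero_apply, ← h3]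
    refine Finset.sum_congr rfl fun j _ ↦ ?_
    rw [dualM, hal, one_mul]
    simp

end Tangent

end Pool.Agent.Helper88.MT
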