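import Mathlib
import Pool.Agent.Helper88.MT.SoIrr

/-!
# Algebraic groups over a subfield containing a level one cocharacter
-/

set_option linter.unusedSectionVars false

namespace Pool.Agent.Helper88.MT

open Matrix Module

variable {ι : Type*} [Fintype ι] [DecidableEq ι]

section Density2

variable {k : Type*} [Field k] {V : Type*} [AddCommGroup V] [Module k V]
  [FiniteDimensional k V]

/-- Density: an irreducible algebra of operators with scalar commutant is everything. -/
lemma subalgebra_eq_top_of_commutant [Nontrivial V] (D : Subalgebra k (Module.End k V))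
    (hirr : ∀ W : Submodule k V, (∀ a ∈ D, ∀ w ∈ W, a w ∈ W) → W = ⊥ ∨ W = ⊤)
    (hcomm : ∀ φ : Module.End k V, (∀ a ∈ D, ∀ v, φ (a v) = a (φ v)) →
      ∃ c : k, ∀ v, φ v = c • v) : D = ⊤ := by
  classical
  have hsimp : IsSimpleModule D V := by
    rw [isSimpleModule_iff]
    refine { exists_pair_ne := ⟨⊥, ⊤, bot_ne_top⟩, eq_bot_or_eq_top := fun N ↦ ?_ }
    rcases hirr (N.restrictScalars k) (fun a ha w hw ↦ N.smul_mem (⟨a, ha⟩ : D) hw) with h | h
    · left
      rw [eq_bot_iff]
      intro w hw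
      have : w ∈ N.restrictScalars k := hw
      rw [h] at this
      exact this
    · right
      rw [eq_top_iff]
      intro w _
      have : w ∈ N.restrictScalars k := h ▸ Submodule.mem_top
      exact this
  rw [eq_top_iff]
  intro f _
  let f' : Module.End (Module.End D V) V :=
    { toFun := f
      map_add' := map_add f
      map_smul' := by
        intro φ v
        obtain ⟨c, hc⟩ := hcomm (φ.restrictScalars k) (fun a ha v ↦ φ.map_smul (⟨a, ha⟩ : D) v)
        have h1 : ∀ v, φ v = c • v := hc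
        change f (φ v) = φ (f v)
        rw [h1, h1, map_smul] }
  let b := Module.finBasis k V
  obtain ⟨r, hr⟩ := jacobson_density (R := D) f' (Finset.univ.image b)
  have h2 : f = r.1 := by
    apply b.ext
    intro i
    exact hr (b i) (Finset.mem_image_of_mem _ (Finset.mem_univ i))
  rw [h2]
  exact r.2

end Density2

section Maps

variable {k K : Type*} [Field k] [Field K]

lemma der_mapHom (φ : k →+* K) (x : Matrix ι ι k) (p : MvPolynomial (ι × ι) k) :
    der (x.map φ) (MvPolynomial.map φ p) = MvPolynomial.map φ (der x p) := by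
  let _ : Algebra k K := φ.toAlgebra
  exact der_map (F := K) x p

lemma evM_mapHom (φ : k →+* K) (M : Matrix ι ι k) (p : MvPolynomial (ι × ι) k) :
    evM (M.map φ) (MvPolynomial.map φ p) = φ (evM M p) := by
  let _ : Algebra k K := φ.toAlgebra
  exact evM_map (F := K) M p

variable [Algebra k K]

lemma evM_mapAlg (M : Matrix ι ι K) (p : MvPolynomial (ι × ι) k) :
    evM (F := K) M (MvPolynomial.map (algebraMap k K) p) = evM (F := k) M p := by
  unfold evM
  rw [MvPolynomial.aeval_map_algebraMap]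

lemma evM_algEquiv (σ : K ≃ₐ[k] K) (M : Matrix ι ι K) (p : MvPolynomial (ι × ι) k) :
    evM (F := k) (M.map σ) p = σ (evM (F := k) M p) := by
  unfold evM
  exact (MvPolynomial.comp_aeval_apply (fun q : ι × ι ↦ M q.1 q.2) σ.toAlgHom p).symm

end Maps

section Rational

variable {k K : Type*} [Field k] [CharZero k] [Field K] [Algebra k K]

lemma smap_agree {T : Submodule k (ι → k)} {x y : Matrix ι ι k}
    (h : ∀ v ∈ T, x *ᵥ v = y *ᵥ v) {w : ι → K} (hw : w ∈ smap K T) :
    x.map (algebraMap k K) *ᵥ w = y.map (algebraMap k K) *ᵥ w := by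
  have hv : ∀ (z : Matrix ι ι k) (v : ι → k),
      z.map (algebraMap k K) *ᵥ vmap K v = vmap K (z *ᵥ v) := by
    intro z v
    ext i; simp [mulVec, dotProduct, vmap]
  unfold smap at hw
  induction hw using Submodule.span_induction with
  | mem w hw =>
    obtain ⟨v, hvT, rfl⟩ := hw
    rw [hv, hv, h v hvT]
  | zero => simp
  | add v w _ _ h1 h2 => rw [mulVec_add, mulVec_add, h1, h2]
  | smul c v _ h1 => rw [mulVec_smul, mulVec_smul, h1]

/-- A representation over a subfield with scalar commutant is absolutely irreducible. -/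
lemma irreducible_of_rational {ψ : Matrix ι ι k} (hψ : ψᵀ = ψ) (hdet : ψ.det ≠ 0)
    {N : Submodule k (ι → k)} (hN : ∀ v ∈ N, (∀ w ∈ N, bil ψ v w = 0) → v = 0)
    (hTne : orthS ψ N ≠ ⊥)
    {𝔤 : Submodule k (Matrix ι ι k)} (hgs : ∀ x ∈ 𝔤, x ∈ soT ψ (N : Set (ι → k)))
    (hsimple : ∀ W : Submodule k (ι → k), W ≤ orthS ψ N → (∀ x ∈ 𝔤, ∀ w ∈ W, x *ᵥ w ∈ W) →
      W = ⊥ ∨ W = orthS ψ N)
    (hend : ∀ φ : Matrix ι ι k, (∀ x ∈ 𝔤, φ * x = x * φ) →
      ∃ c : k, ∀ v ∈ orthS ψ N, φ *ᵥ v = c • v)
    {W : Submodule K (ι → K)} (hWT : W ≤ orthS (ψ.map (algebraMap k K)) (smap K N))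
    (hW : ∀ x ∈ 𝔤, ∀ w ∈ W, x.map (algebraMap k K) *ᵥ w ∈ W) :
    W = ⊥ ∨ W = orthS (ψ.map (algebraMap k K)) (smap K N) := by
  have hKchar : CharZero K := charZero_of_injective_algebraMap (algebraMap k K).injective
  have hψ' : (ψ.map (algebraMap k K))ᵀ = ψ.map (algebraMap k K) := by
    rw [← Matrix.transpose_map, hψ]
  have hdet' : (ψ.map (algebraMap k K)).det ≠ 0 := by
    have : (ψ.map (algebraMap k K)).det = algebraMap k K ψ.det := (RingHom.map_det _ _).symm
    rw [this]
    simpa using hdet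
  have hndK := nondeg_orthS hψ' hdet' (nondeg_smap (F := K) hN)
  set T := orthS ψ N with hT
  have hnd : ∀ v ∈ T, (∀ w ∈ T, bil ψ v w = 0) → v = 0 := nondeg_orthS hψ hdet hN
  have hVnt : Nontrivial T := (Submodule.nontrivial_iff_ne_bot).mpr hTne
  let gen : Set (Module.End k T) := {y | ∃ x ∈ 𝔤, Rep x y}
  have hres : ∀ x ∈ 𝔤, ∃ y ∈ gen, Rep x y := by
    intro x hx
    exact ⟨(Matrix.toLin' x).restrict (p := T) (q := T)
      (fun v _ ↦ by rw [Matrix.toLin'_apply]; exact soT_mulVec_mem (hgs x hx) v),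
      ⟨x, hx, fun _ ↦ rfl⟩, fun _ ↦ rfl⟩
  have hcompl : IsCompl T N := by
    constructor
    · rw [Submodule.disjoint_def]
      intro v hv hvN
      exact hN v hvN hv
    · rw [codisjoint_iff, eq_top_iff]
      intro v _
      obtain ⟨a, ha, b, hb, rfl⟩ := exists_orth_decomp hψ hN v
      rw [add_comm]
      exact Submodule.add_mem_sup hb ha
  have htop : Algebra.adjoin k gen = ⊤ := by
    apply subalgebra_eq_top_of_commutant
    · intro W₀ hW₀
      have hst : ∀ x ∈ 𝔤, ∀ w ∈ W₀.map T.subtype, x *ᵥ w ∈ W₀.map T.subtype := by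
        rintro x hx _ ⟨m, hm, rfl⟩
        obtain ⟨y, hy, hxy⟩ := hres x hx
        exact ⟨y m, hW₀ y (Algebra.subset_adjoin hy) m hm, hxy m⟩
      rcases hsimple _ (Submodule.map_subtype_le _ _) hst with h1 | h1
      · left
        rw [eq_bot_iff]
        intro m hm
        have : (m : ι → k) ∈ W₀.map T.subtype := ⟨m, hm, rfl⟩
        rw [h1, Submodule.mem_bot] at this
        exact Subtype.ext this
      · right
        rw [eq_top_iff]
        intro v _
        have : (v : ι → k) ∈ W₀.map T.subtype := by rw [h1]; exact v.2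
        obtain ⟨m, hm, hmv⟩ := this
        have : m = v := Subtype.ext hmv
        rw [← this]; exact hm
    · intro φ hφ
      let f : (ι → k) →ₗ[k] (ι → k) :=
        T.subtype ∘ₗ φ ∘ₗ (Submodule.projectionOnto T N hcompl)
      have hfT : ∀ v : T, f v = φ v := by
        intro v
        change T.subtype (φ (Submodule.projectionOnto T N hcompl v)) = φ v
        rw [Submodule.projectionOnto_apply_left]
        rfl
      have hfN : ∀ v ∈ N, f v = 0 := by
        intro v hv
        change T.subtype (φ (Submodule.projectionOnto T N hcompl v)) = 0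
        rw [Submodule.projectionOnto_apply_of_mem_right hcompl hv, map_zero, map_zero]
      have hΦ : ∀ v, LinearMap.toMatrix' f *ᵥ v = f v := by
        intro v
        rw [← Matrix.toLin'_apply, Matrix.toLin'_toMatrix']
      obtain ⟨c, hc⟩ := hend (LinearMap.toMatrix' f) (fun x hx ↦ by
        obtain ⟨y, hy, hxy⟩ := hres x hx
        apply eq_of_forall_mulVec
        intro v
        obtain ⟨a, ha, b, hb, rfl⟩ := exists_orth_decomp hψ hN v
        rw [← Matrix.mulVec_mulVec, ← Matrix.mulVec_mulVec, mulVec_add, (hgs x hx).2 a ha,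
          zero_add, hΦ, hΦ, map_add, hfN a ha, zero_add]
        have h1 := hxy ⟨b, hb⟩
        have h2 := hfT ⟨b, hb⟩
        have h3 := hφ y (Algebra.subset_adjoin hy) ⟨b, hb⟩
        have h4 := hfT (y ⟨b, hb⟩)
        have h5 := hxy (φ ⟨b, hb⟩)
        rw [← h1, h4, h3, h5, ← h2])
      refine ⟨c, fun v ↦ ?_⟩
      apply Subtype.ext
      rw [← hfT, ← hΦ, hc v v.2]
      rfl
  -- all operators preserve `W`
  have hall : ∀ y : Module.End k T, ∃ x : Matrix ι ι k, Rep x y ∧
      ∀ w ∈ W, x.map (algebraMap k K) *ᵥ w ∈ W := by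
    intro y
    have hy : y ∈ Algebra.adjoin k gen := htop ▸ Algebra.mem_top
    induction hy using Algebra.adjoin_induction with
    | mem y hy =>
      obtain ⟨x, hx, hxy⟩ := hy
      exact ⟨x, hxy, hW x hx⟩
    | algebraMap c =>
      refine ⟨c • 1, ?_, ?_⟩
      · intro v
        rw [Module.algebraMap_end_apply, smul_mulVec, one_mulVec]
        rfl
      · intro w hw
        have : (c • (1 : Matrix ι ι k)).map (algebraMap k K) =
            algebraMap k K c • (1 : Matrix ι ι K) := by
          ext i j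
          by_cases hij : i = j
          · subst hij; simp
          · simp [Matrix.one_apply_ne hij]
        rw [this, smul_mulVec, one_mulVec]
        exact W.smul_mem _ hw
    | add y z _ _ hy hz =>
      obtain ⟨x, hx, hx'⟩ := hy
      obtain ⟨x₂, hx₂, hx₂'⟩ := hz
      refine ⟨x + x₂, hx.add hx₂, fun w hw ↦ ?_⟩
      rw [Matrix.map_add _ (map_add _), add_mulVec]
      exact W.add_mem (hx' w hw) (hx₂' w hw)
    | mul y z _ _ hy hz =>
      obtain ⟨x, hx, hx'⟩ := hy
      obtain ⟨x₂, hx₂, hx₂'⟩ := hz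
      refine ⟨x * x₂, ?_, fun w hw ↦ ?_⟩
      · intro v
        rw [Module.End.mul_apply, hx, hx₂, Matrix.mulVec_mulVec]
      · rw [Matrix.map_mul, ← Matrix.mulVec_mulVec]
        exact hx' _ (hx₂' w hw)
  by_cases hW0 : W = ⊥
  · exact Or.inl hW0
  right
  obtain ⟨w, hw, hw0⟩ := (Submodule.ne_bot_iff _).mp hW0
  have hwT : w ∈ smap K T := by rw [← orthS_smap]; exact hWT hw
  obtain ⟨a, ha, haw⟩ : ∃ a ∈ T, bil (ψ.map (algebraMap k K)) w (vmap K a) ≠ 0 := by
    by_contra! hcon
    apply hw0
    apply hndK w (hWT hw)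
    intro u hu
    rw [orthS_smap] at hu
    unfold smap at hu
    induction hu using Submodule.span_induction with
    | mem u hu =>
      obtain ⟨v, hv, rfl⟩ := hu
      exact hcon v hv
    | zero => simp [bil]
    | add u v _ _ h1 h2 => rw [bil_add_right, h1, h2, add_zero]
    | smul c v _ h1 => rw [bil_smul_right, h1, mul_zero]
  apply le_antisymm hWT
  rw [orthS_smap, smap, Submodule.span_le]
  rintro _ ⟨b, hb, rfl⟩
  -- a rank one operator
  have hR : ∀ v : ι → k, vecMulVec b (ψ *ᵥ a) *ᵥ v = bil ψ a v • b := by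
    intro v
    rw [vecMulVec_mulVec, mulVec_dotProduct_eq hψ, op_smul_eq_smul]
  let y : Module.End k T := (Matrix.toLin' (vecMulVec b (ψ *ᵥ a))).restrict (p := T) (q := T)
    (fun v _ ↦ by rw [Matrix.toLin'_apply, hR]; exact T.smul_mem _ hb)
  obtain ⟨x, hx, hx'⟩ := hall y
  have h1 : x.map (algebraMap k K) *ᵥ w = (vecMulVec b (ψ *ᵥ a)).map (algebraMap k K) *ᵥ w := by
    apply smap_agree _ hwT
    intro v hv
    rw [← hx ⟨v, hv⟩]
    rfl
  have h2 : (vecMulVec b (ψ *ᵥ a)).map (algebraMap k K) *ᵥ w =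
      bil (ψ.map (algebraMap k K)) w (vmap K a) • vmap K b := by
    have h3 : (vecMulVec b (ψ *ᵥ a)).map (algebraMap k K) =
        vecMulVec (vmap K b) (ψ.map (algebraMap k K) *ᵥ vmap K a) := by
      ext i j
      simp [vecMulVec_apply, vmap, mulVec, dotProduct]
    rw [h3, vecMulVec_mulVec, mulVec_dotProduct_eq hψ', op_smul_eq_smul, bil_symm hψ']
  have h4 := hx' w hw
  rw [h1, h2] at h4
  have h5 := W.smul_mem (bil (ψ.map (algebraMap k K)) w (vmap K a))⁻¹ h4
  rwa [smul_smul, inv_mul_cancel₀ haw, one_smul] at h5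

end Rational

end Pool.Agent.Helper88.MT
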