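import Mathlib
import Pool.Agent.Helper88.MT.HodgeSide

/-!
# Algebraic groups over a subfield containing a level one cocharacter: the main lemma
-/

set_option linter.unusedSectionVars false

namespace Pool.Agent.Helper88.MT

open Matrix Module

variable {ι : Type*} [Fintype ι] [DecidableEq ι]

/-- The value at `u` of the cocharacter attached to `D` with `D ^ 3 = D`. -/
noncomputable def hodM {K : Type*} [Field K] (D : Matrix ι ι K) (u : K) : Matrix ι ι K :=
  (1 - D ^ 2) + u • ((2 : K)⁻¹ • (D ^ 2 + D)) + u⁻¹ • ((2 : K)⁻¹ • (D ^ 2 - D))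

section Curve

variable {K : Type*} [Field K] [CharZero K]

lemma evM_der_hodM {D : Matrix ι ι K} {Z : Set K} (hZ : Z.Infinite) (hZ0 : (0 : K) ∉ Z)
    {f : MvPolynomial (ι × ι) K} {g : Matrix ι ι K}
    (hf : ∀ u ∈ Z, evM (g * hodM D u) f = 0) : evM g (der D f) = 0 := by
  set P₀ := g * (1 - D ^ 2) with hP₀
  set P₁ := g * ((2 : K)⁻¹ • (D ^ 2 + D)) with hP₁
  set P₂ := g * ((2 : K)⁻¹ • (D ^ 2 - D)) with hP₂
  let b : Matrix ι ι (Polynomial K) := fun i j ↦
    Polynomial.C (P₀ i j) * Polynomial.X + Polynomial.C (P₁ i j) * Polynomial.X ^ 2 +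
      Polynomial.C (P₂ i j)
  have hmul : ∀ u : K, g * hodM D u = P₀ + u • P₁ + u⁻¹ • P₂ := by
    intro u
    rw [hodM, mul_add, mul_add, mul_smul_comm, mul_smul_comm (u⁻¹)]
  refine evM_der_eq_zero_of_curve (f := f) hZ (δ := Polynomial.X) (b := b) (s₀ := 1) ?_ ?_ ?_ ?_
  · intro s hs
    rw [Polynomial.eval_X]
    rintro rfl
    exact hZ0 hs
  · intro s hs M hM
    have hs0 : s ≠ 0 := by rintro rfl; exact hZ0 hs
    have h1 : M = g * hodM D s := by
      rw [hmul]
      ext i j
      have h2 := hM i j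
      simp only [b, Polynomial.eval_add, Polynomial.eval_mul, Polynomial.eval_C,
        Polynomial.eval_X, Polynomial.eval_pow] at h2
      simp only [Matrix.add_apply, Matrix.smul_apply, smul_eq_mul]
      field_simp
      linear_combination - h2
    rw [h1]
    exact hf s hs
  · simp
  · intro i j
    have hal : ∀ a : K, algebraMap K (DualNumber K) a = TrivSqZeroExt.inl a := fun a ↦ rfl
    have h1 : (P₀ + P₁ + P₂) i j = g i j := by
      have : P₀ + P₁ + P₂ = g := by
        rw [hP₀, hP₁, hP₂, ← mul_add, ← mul_add]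
        have h2 : (1 - D ^ 2) + (2 : K)⁻¹ • (D ^ 2 + D) + (2 : K)⁻¹ • (D ^ 2 - D) = 1 := by
          rw [add_assoc, ← smul_add]
          have h3 : D ^ 2 + D + (D ^ 2 - D) = (2 : K) • D ^ 2 := by
            rw [two_smul]; abel
          rw [h3, smul_smul, inv_mul_cancel₀ (by norm_num), one_smul]
          abel
        rw [h2, mul_one]
      rw [this]
    have h2 : (P₀ + (2 : K) • P₁) i j = g i j + (g * D) i j := by
      have : P₀ + (2 : K) • P₁ = g + g * D := by
        rw [hP₀, hP₁, ← mul_smul_comm, smul_smul, mul_inv_cancel₀ (by norm_num), one_smul,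
          ← mul_add]
        have h3 : 1 - D ^ 2 + (D ^ 2 + D) = 1 + D := by abel
        rw [h3, mul_add, mul_one]
      rw [this, Matrix.add_apply]
    simp only [Matrix.add_apply, Matrix.smul_apply, smul_eq_mul] at h1 h2
    simp only [b, map_add, map_mul, map_pow, Polynomial.aeval_C, Polynomial.aeval_X, hal, dualM]
    ext
    · simp
      linear_combination h1
    · simp [pow_two]
      linear_combination h2

end Curve

section Main

variable {k K : Type*} [Field k] [CharZero k] [Field K] [Algebra k K] [IsAlgClosed K]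

/-- The main lemma: an algebraic subgroup defined over the subfield and containing the
cocharacter contains the special orthogonal group. -/
theorem SOT_subset_of_hodM {ψ : Matrix ι ι k} (hψ : ψᵀ = ψ) (hdet : ψ.det ≠ 0)
    {N : Submodule k (ι → k)} (hN : ∀ v ∈ N, (∀ w ∈ N, bil ψ v w = 0) → v = 0)
    {D : Matrix ι ι K} (hcube : D ^ 3 = D)
    (hsimple : ∀ W : Submodule k (ι → k), W ≤ orthS ψ N →
      (∀ w ∈ W, D *ᵥ vmap K w ∈ smap K W) → W = ⊥ ∨ W = orthS ψ N)
    (hend : ∀ φ : Matrix ι ι k, φ.map (algebraMap k K) * D = D * φ.map (algebraMap k K) →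
      ∃ c : k, ∀ v ∈ orthS ψ N, φ *ᵥ v = c • v)
    (hpos : 0 < finrank K (Module.End.eigenspace (Matrix.toLin' D) 1))
    (hlarge : finrank K (Module.End.eigenspace (Matrix.toLin' D) 1) ^ 2 +
      2 * finrank K (Module.End.eigenspace (Matrix.toLin' D) 1) < finrank k (orthS ψ N))
    (hodd : Odd (finrank k (orthS ψ N)))
    {S : Set (Matrix ι ι K)} {Q : Set (MvPolynomial (ι × ι) k)}
    (hS : ∀ M, M ∈ S ↔ ∀ q ∈ Q, evM M q = 0) (hS1 : (1 : Matrix ι ι K) ∈ S)
    (hmul : ∀ M ∈ S, ∀ M' ∈ S, M * M' ∈ S)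
    (hSisom : ∀ M ∈ S, Mᵀ * ψ.map (algebraMap k K) * M = ψ.map (algebraMap k K))
    (hSfix : ∀ M ∈ S, ∀ w ∈ N, M *ᵥ vmap K w = vmap K w)
    {Z : Set K} (hZ : Z.Infinite) (hZ0 : (0 : K) ∉ Z) (hhod : ∀ u ∈ Z, hodM D u ∈ S) :
    ∀ M ∈ SOT (ψ.map (algebraMap k K)) (smap K N : Set (ι → K)), M ∈ S := by
  have hKchar : CharZero K := charZero_of_injective_algebraMap (algebraMap k K).injective
  have hTne : orthS ψ N ≠ ⊥ := by
    intro h
    rw [h, finrank_bot] at hodd
    exact absurd hodd (by decide)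
  -- the ideal
  let 𝓘 : Submodule k (MvPolynomial (ι × ι) k) :=
    { carrier := {f | ∀ M ∈ S, evM (R := K) M f = 0}
      add_mem' := by
        intro f g hf hg M hM
        rw [map_add, hf M hM, hg M hM, add_zero]
      zero_mem' := by intro M _; rw [map_zero]
      smul_mem' := by intro c f hf M hM; rw [map_smul, hf M hM, smul_zero] }
  have h𝓘 : ∀ f, f ∈ 𝓘 ↔ ∀ M ∈ S, evM (R := K) M f = 0 := fun f ↦ Iff.rfl
  -- the Lie algebra
  let Lk : Submodule k (Matrix ι ι k) :=
    { carrier := {x | ∀ f ∈ 𝓘, der x f ∈ 𝓘}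
      add_mem' := by
        intro x y hx hy f hf
        rw [der_add, Derivation.add_apply]
        exact 𝓘.add_mem (hx f hf) (hy f hf)
      zero_mem' := by
        intro f _
        rw [der_zero, Derivation.zero_apply]
        exact 𝓘.zero_mem
      smul_mem' := by
        intro c x hx f hf
        rw [der_smul, Derivation.smul_apply]
        exact 𝓘.smul_mem c (hx f hf) }
  have hLk : ∀ x, x ∈ Lk ↔ ∀ f ∈ 𝓘, der x f ∈ 𝓘 := fun x ↦ Iff.rfl
  have hLlie : ∀ x ∈ Lk, ∀ y ∈ Lk, x * y - y * x ∈ Lk := by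
    intro x hx y hy f hf
    rw [der_comm]
    exact 𝓘.sub_mem (hx _ (hy f hf)) (hy _ (hx f hf))
  have hLso : ∀ x ∈ Lk, x ∈ soT ψ (N : Set (ι → k)) := by
    intro x hx
    refine mem_soT_of_tangent (R := K) (S := S) hSisom hSfix ?_
    intro f hf
    have h1 := (h𝓘 _).mp (hx f hf) 1 hS1
    have h2 : evM (F := k) (1 : Matrix ι ι K) (der x f) =
        algebraMap k K (evM (1 : Matrix ι ι k) (der x f)) := by
      rw [← evM_map, Matrix.map_one _ (map_zero _) (map_one _), evM_mapAlg]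
    rw [h2] at h1
    exact (map_eq_zero _).mp h1
  -- `D` lies in the span of the Lie algebra
  let LK : Submodule K (Matrix ι ι K) :=
    { carrier := {x | ∀ f ∈ 𝓘, ∀ M ∈ S,
        evM (F := K) M (der x (MvPolynomial.map (algebraMap k K) f)) = 0}
      add_mem' := by
        intro x y hx hy f hf M hM
        rw [der_add, Derivation.add_apply, map_add, hx f hf M hM, hy f hf M hM, add_zero]
      zero_mem' := by
        intro f _ M _
        rw [der_zero, Derivation.zero_apply, map_zero]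
      smul_mem' := by
        intro c x hx f hf M hM
        rw [der_smul, Derivation.smul_apply, map_smul, hx f hf M hM, smul_zero] }
  have hLK : ∀ x, x ∈ LK ↔ ∀ f ∈ 𝓘, ∀ M ∈ S,
      evM (F := K) M (der x (MvPolynomial.map (algebraMap k K) f)) = 0 := fun x ↦ Iff.rfl
  have hSσ : ∀ σ : K ≃ₐ[k] K, ∀ M ∈ S, M.map σ ∈ S := by
    intro σ M hM
    rw [hS] at hM ⊢
    intro q hq
    rw [evM_algEquiv, hM q hq, map_zero]
  have hLKσ : ∀ σ : K ≃ₐ[k] K, ∀ x ∈ LK, x.map σ ∈ LK := by
    intro σ x hx f hf M hM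
    have h1 := hx f hf (M.map σ.symm) (hSσ σ.symm M hM)
    have h2 := evM_mapHom (σ : K →+* K) (M.map σ.symm)
      (der x (MvPolynomial.map (algebraMap k K) f))
    rw [h1, map_zero, ← der_mapHom] at h2
    have h3 : (M.map σ.symm).map (σ : K →+* K) = M := by
      ext i j; simp
    have h4 : MvPolynomial.map (σ : K →+* K) (MvPolynomial.map (algebraMap k K) f) =
        MvPolynomial.map (algebraMap k K) f := by
      rw [MvPolynomial.map_map]
      have h5 : (σ : K →+* K).comp (algebraMap k K) = algebraMap k K := by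
        ext c
        simp
      rw [h5]
    rw [h3, h4] at h2
    exact h2
  have hLKk : LK ≤ mspan K Lk := by
    refine le_mspan_of_stable hLKσ ?_
    intro x hx f hf M hM
    have h1 := hx f hf M hM
    rw [der_map, evM_mapAlg] at h1
    exact h1
  have hDLK : D ∈ LK := by
    intro f hf M hM
    apply evM_der_hodM hZ hZ0
    intro u hu
    rw [evM_mapAlg]
    exact (h𝓘 f).mp hf _ (hmul M hM _ (hhod u hu))
  have hDL : D ∈ mspan K Lk := hLKk hDLK
  -- a minimal Lie algebra containing `D`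
  have hwf : WellFoundedLT (Submodule k (Matrix ι ι k)) := inferInstance
  obtain ⟨𝔤, ⟨h𝔤lie, h𝔤L, hD𝔤⟩, hmin⟩ := WellFounded.has_min hwf.wf
    {𝔞 : Submodule k (Matrix ι ι k) | (∀ x ∈ 𝔞, ∀ y ∈ 𝔞, x * y - y * x ∈ 𝔞) ∧ 𝔞 ≤ Lk ∧
      D ∈ mspan K 𝔞} ⟨Lk, hLlie, le_rfl, hDL⟩
  have hgs : ∀ x ∈ 𝔤, x ∈ soT ψ (N : Set (ι → k)) := fun x hx ↦ hLso x (h𝔤L hx)
  -- irreducibility
  have hirr : ∀ W : Submodule K (ι → K), W ≤ orthS (ψ.map (algebraMap k K)) (smap K N) →
      (∀ x ∈ 𝔤, ∀ w ∈ W, x.map (algebraMap k K) *ᵥ w ∈ W) →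
      W = ⊥ ∨ W = orthS (ψ.map (algebraMap k K)) (smap K N) := by
    intro W hWT hW
    refine irreducible_of_rational hψ hdet hN hTne hgs ?_ ?_ hWT hW
    · intro W₀ hW₀T hW₀
      refine hsimple W₀ hW₀T ?_
      intro w hw
      have h1 : ∀ x ∈ mspan K 𝔤, x *ᵥ vmap K w ∈ smap K W₀ := by
        intro x hx
        unfold mspan at hx
        induction hx using Submodule.span_induction with
        | mem x hx =>
          obtain ⟨y, hy, rfl⟩ := hx
          have h2 : y.map (algebraMap k K) *ᵥ vmap K w = vmap K (y *ᵥ w) := by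
            ext i; simp [mulVec, dotProduct, vmap]
          change y.map (algebraMap k K) *ᵥ vmap K w ∈ _
          rw [h2]
          exact vmap_mem_smap (hW₀ y hy w hw)
        | zero => rw [zero_mulVec]; exact Submodule.zero_mem _
        | add x y _ _ hx hy => rw [add_mulVec]; exact Submodule.add_mem _ hx hy
        | smul c x _ hx => rw [smul_mulVec]; exact Submodule.smul_mem _ _ hx
      exact h1 D hD𝔤
    · intro φ hφ
      refine hend φ ?_
      have h1 : ∀ x ∈ mspan K 𝔤, φ.map (algebraMap k K) * x = x * φ.map (algebraMap k K) := by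
        intro x hx
        unfold mspan at hx
        induction hx using Submodule.span_induction with
        | mem x hx =>
          obtain ⟨y, hy, rfl⟩ := hx
          change φ.map (algebraMap k K) * y.map (algebraMap k K) =
            y.map (algebraMap k K) * φ.map (algebraMap k K)
          rw [← Matrix.map_mul, ← Matrix.map_mul, hφ y hy]
        | zero => simp
        | add x y _ _ hx hy => rw [mul_add, add_mul, hx, hy]
        | smul c x _ hx => rw [mul_smul_comm, smul_mul_assoc, hx]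
      exact h1 D hD𝔤
  -- the Lie algebra is everything
  have hall : ∀ x ∈ soT ψ (N : Set (ι → k)), x ∈ 𝔤 := by
    refine soT_le_of_irreducible hψ hdet hN h𝔤lie hgs hD𝔤 hcube hirr hpos hlarge hodd (Or.inl ?_)
    intro 𝔞 h𝔞 hid hD𝔞
    by_contra hne
    refine hmin 𝔞 ⟨fun x hx y hy ↦ hid x (h𝔞 hx) y hy, h𝔞.trans h𝔤L, hD𝔞⟩ ?_
    exact lt_of_le_of_ne h𝔞 hne
  -- conclusion
  have h𝓘1 : ∀ f ∈ 𝓘, evM (1 : Matrix ι ι k) f = 0 := by
    intro f hf
    have h1 := (h𝓘 f).mp hf 1 hS1
    have h2 : evM (F := k) (1 : Matrix ι ι K) f = algebraMap k K (evM (1 : Matrix ι ι k) f) := by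
      rw [← evM_map, Matrix.map_one _ (map_zero _) (map_one _), evM_mapAlg]
    rw [h2] at h1
    exact (map_eq_zero _).mp h1
  have h𝓘van : ∀ g ∈ SOT ψ (N : Set (ι → k)), ∀ f ∈ 𝓘, evM g f = 0 := by
    intro g hg f hf
    exact evM_eq_zero_of_mem_SOT hψ hdet hN (𝓘 := (𝓘 : Set (MvPolynomial (ι × ι) k)))
      (fun x hx f hf ↦ (hLk x).mp (h𝔤L (hall x hx)) f hf) h𝓘1 hg f hf
  intro M hM
  rw [hS]
  intro q hq
  have hq𝓘 : q ∈ 𝓘 := fun M' hM' ↦ (hS M').mp hM' q hq
  have h1 : MvPolynomial.map (algebraMap k K) q ∈ van K (SOT ψ (N : Set (ι → k))) := by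
    intro g hg
    rw [evM_map, h𝓘van g hg q hq𝓘, map_zero]
  have h2 := evM_eq_zero_of_mem_van_SOT hψ hdet hN h1 hM
  rwa [evM_mapAlg] at h2

end Main

end Pool.Agent.Helper88.MT
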