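import Mathlib
import Pool.Agent.Helper88.MT.Defs
import Pool.Agent.Helper88.MT.HodgeMain

/-!
# Computation of the Mumford-Tate group
-/

set_option linter.unusedSectionVars false

namespace Pool.Agent.Helper88.MT

open Matrix Module

section HodM

variable {ι : Type*} [Fintype ι] [DecidableEq ι] {K : Type*} [Field K] [CharZero K]

lemma hodM_eq (D : Matrix ι ι K) (u : K) :
    hodM D u = 1 + ((u + u⁻¹) / 2 - 1) • (D * D) + ((u - u⁻¹) / 2) • D := by
  unfold hodM
  rw [pow_two]
  ext i j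
  simp only [Matrix.add_apply, Matrix.sub_apply, Matrix.smul_apply, smul_eq_mul]
  ring

lemma hodM_mul {D : Matrix ι ι K} (hD : D ^ 3 = D) {u v : K} (hu : u ≠ 0) (hv : v ≠ 0) :
    hodM D u * hodM D v = hodM D (u * v) := by
  have h3 : D * D * D = D := by rw [← pow_two, ← pow_succ]; exact hD
  have h4 : D * (D * D) = D := by rw [← mul_assoc]; exact h3
  have h5 : D * D * (D * D) = D * D := by rw [← mul_assoc, h3]
  rw [hodM_eq, hodM_eq, hodM_eq]
  have key : ∀ a b a' b' : K, (1 + a • (D * D) + b • D) * (1 + a' • (D * D) + b' • D) =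
      1 + (a + a' + a * a' + b * b') • (D * D) + (b + b' + a * b' + b * a') • D := by
    intro a b a' b'
    simp only [add_mul, mul_add, one_mul, mul_one, smul_mul_assoc, mul_smul_comm, h3, h4, h5]
    module
  rw [key]
  have huv : (u * v)⁻¹ = u⁻¹ * v⁻¹ := mul_inv u v
  have h6 : u * u⁻¹ = 1 := mul_inv_cancel₀ hu
  have h7 : v * v⁻¹ = 1 := mul_inv_cancel₀ hv
  rw [huv]
  congr 1
  · congr 1
    congr 1
    ring
  · congr 1
    ring

lemma hodM_one (D : Matrix ι ι K) : hodM D 1 = 1 := by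
  rw [hodM_eq]
  norm_num

lemma hodM_transpose {D ψ : Matrix ι ι K} (h : Dᵀ * ψ + ψ * D = 0) (u : K) :
    (hodM D u)ᵀ * ψ = ψ * hodM D u⁻¹ := by
  have h1 : Dᵀ * ψ = - (ψ * D) := eq_neg_of_add_eq_zero_left h
  have h2 : (D * D)ᵀ * ψ = ψ * (D * D) := by
    rw [transpose_mul, mul_assoc, h1, mul_neg, ← mul_assoc, h1, neg_mul, neg_neg, mul_assoc]
  rw [hodM_eq, hodM_eq, transpose_add, transpose_add, transpose_one, transpose_smul,
    transpose_smul, add_mul, add_mul, one_mul, smul_mul_assoc, smul_mul_assoc, h1, h2, mul_add,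
    mul_add, mul_one, mul_smul_comm, mul_smul_comm, inv_inv, smul_neg, ← neg_smul]
  congr 2
  · rw [add_comm u]
  · ring

lemma hodM_mem_SOT [IsAlgClosed K] {D ψ : Matrix ι ι K} (hdet : ψ.det ≠ 0) (hD : D ^ 3 = D)
    {N : Set (ι → K)} (hDN : D ∈ soT ψ N) {u : K} (hu : u ≠ 0) : hodM D u ∈ SOT ψ N := by
  have hisom : ∀ u : K, u ≠ 0 → (hodM D u)ᵀ * ψ * hodM D u = ψ := by
    intro u hu
    rw [hodM_transpose hDN.1, mul_assoc, hodM_mul hD (inv_ne_zero hu) hu, inv_mul_cancel₀ hu,
      hodM_one, mul_one]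
  refine ⟨hisom u hu, ?_, ?_⟩
  · obtain ⟨v, hv⟩ := IsAlgClosed.exists_pow_nat_eq u (n := 2) (by norm_num)
    have hv0 : v ≠ 0 := by rintro rfl; apply hu; rw [← hv]; norm_num
    have h1 := congrArg Matrix.det (hisom v hv0)
    rw [det_mul, det_mul, det_transpose] at h1
    have h2 : (hodM D v).det * (hodM D v).det = 1 := by
      have : ((hodM D v).det * (hodM D v).det) * ψ.det = 1 * ψ.det := by
        rw [one_mul]
        linear_combination h1
      exact mul_right_cancel₀ hdet this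
    rw [← hv, pow_two, ← hodM_mul hD hv0 hv0, det_mul, h2]
  · intro w hw
    have h1 := hDN.2 w hw
    rw [hodM_eq, add_mulVec, add_mulVec, one_mulVec, smul_mulVec, smul_mulVec,
      ← Matrix.mulVec_mulVec, h1, mulVec_zero, smul_zero, smul_zero, add_zero, add_zero]

lemma infinite_circle : {u : ℂ | ‖u‖ = 1}.Infinite := by
  have h0 : ∀ a : ℝ, (1 : ℂ) - a * Complex.I ≠ 0 := by
    intro a h
    have := congrArg Complex.re h
    simp at this
  refine Set.infinite_of_injective_forall_mem (f := fun n : ℕ ↦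
    (1 + ((n : ℝ) : ℂ) * Complex.I) / (1 - ((n : ℝ) : ℂ) * Complex.I)) ?_ ?_
  · intro m n hmn
    simp only at hmn
    rw [div_eq_div_iff (h0 _) (h0 _)] at hmn
    have := congrArg Complex.im hmn
    simp at this
    have h2 : (m : ℝ) = n := by linarith
    exact_mod_cast h2
  · intro n
    have h1 : ‖(1 : ℂ) + ((n : ℝ) : ℂ) * Complex.I‖ = ‖(1 : ℂ) - ((n : ℝ) : ℂ) * Complex.I‖ := by
      have : (1 : ℂ) - ((n : ℝ) : ℂ) * Complex.I =
          starRingEnd ℂ ((1 : ℂ) + ((n : ℝ) : ℂ) * Complex.I) := by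
        simp [sub_eq_add_neg]
      rw [this, Complex.norm_conj]
    change ‖_ / _‖ = 1
    rw [norm_div, h1, div_self]
    rw [norm_ne_zero_iff]
    exact h0 n

end HodM

section Lattice

variable {r : ℕ} (H : HodgeLattice r)

/-- The form over a field of characteristic zero. -/
def HodgeLattice.form (F : Type*) [Field F] : Matrix (Fin r) (Fin r) F :=
  H.ψ.map (Int.cast : ℤ → F)

lemma form_symm (F : Type*) [Field F] : (H.form F)ᵀ = H.form F := by
  rw [HodgeLattice.form, ← Matrix.transpose_map, H.symm]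

lemma form_det (F : Type*) [Field F] [CharZero F] : (H.form F).det ≠ 0 := by
  have h : (H.form F).det = ((H.ψ.det : ℤ) : F) := by
    have := (Int.castRingHom F).map_det H.ψ
    exact this.symm
  rw [h]
  exact_mod_cast H.det_ne_zero

lemma form_map {F F' : Type*} [Field F] [Field F'] [Algebra F F'] :
    (H.form F).map (algebraMap F F') = H.form F' := by
  ext i j
  simp [HodgeLattice.form]

lemma ratCast_eq_vmap {κ F : Type*} [Field F] [CharZero F] (v : κ → ℚ) :
    (fun i ↦ ((v i : ℚ) : F)) = vmap F v := by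
  ext i
  simp [vmap]

lemma extend_eq_smap (F : Type*) [Field F] [CharZero F] (W : Submodule ℚ (Fin r → ℚ)) :
    extend F W = smap F W := by
  unfold extend smap
  congr 1

lemma mem_N {v : Fin r → ℚ} : v ∈ H.N ↔ H.D *ᵥ vmap ℂ v = 0 := by
  rw [← ratCast_eq_vmap]
  exact Iff.rfl

lemma T_eq : H.T = orthS (H.form ℚ) H.N := rfl

lemma exists_integral {κ : Type*} [Finite κ] (v : κ → ℚ) :
    ∃ m : ℤ, m ≠ 0 ∧ ∃ w : κ → ℤ, ∀ i, ((w i : ℤ) : ℚ) = (m : ℚ) * v i := by
  classical
  have : Fintype κ := Fintype.ofFinite κ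
  refine ⟨∏ i, ((v i).den : ℤ), ?_, ?_⟩
  · exact Finset.prod_ne_zero_iff.mpr fun i _ ↦ by exact_mod_cast (v i).den_ne_zero
  · refine ⟨fun i ↦ (∏ j ∈ Finset.univ.erase i, ((v j).den : ℤ)) * (v i).num, fun i ↦ ?_⟩
    rw [← Finset.mul_prod_erase Finset.univ (fun i ↦ ((v i).den : ℤ)) (Finset.mem_univ i)]
    push_cast
    have h1 : ((v i).den : ℚ) * v i = (v i).num := by
      rw [mul_comm]; exact Rat.mul_den_eq_num (v i)
    rw [mul_comm ((v i).den : ℚ), mul_assoc, h1]

lemma nondeg_N : ∀ v ∈ H.N, (∀ w ∈ H.N, bil (H.form ℚ) v w = 0) → v = 0 := by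
  intro v hv h
  obtain ⟨m, hm, w, hw⟩ := exists_integral v
  have hmw : (fun i ↦ ((w i : ℤ) : ℚ)) = (m : ℚ) • v := by
    ext i; exact hw i
  have key : w = 0 := by
    apply H.nondeg
    · have h1 : (fun i ↦ ((w i : ℤ) : ℂ)) = (m : ℂ) • vmap ℂ v := by
        ext i
        have := congrArg (fun q : ℚ ↦ (q : ℂ)) (hw i)
        simpa [vmap] using this
      rw [h1, mulVec_smul, (mem_N H).mp hv, smul_zero]
    · intro u hu
      have hu' : (fun i ↦ ((u i : ℤ) : ℚ)) ∈ H.N := by
        rw [mem_N]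
        have : vmap ℂ (fun i ↦ ((u i : ℤ) : ℚ)) = fun i ↦ ((u i : ℤ) : ℂ) := by
          ext i; simp [vmap]
        rw [this]
        exact hu
      have h2 := h _ hu'
      have h3 : bil (H.form ℚ) (fun i ↦ ((w i : ℤ) : ℚ)) (fun i ↦ ((u i : ℤ) : ℚ)) =
          ((w ⬝ᵥ (H.ψ *ᵥ u) : ℤ) : ℚ) := by
        simp [bil, HodgeLattice.form, mulVec, dotProduct]
      rw [hmw, bil_smul_left, h2, mul_zero] at h3
      exact_mod_cast h3.symm
  ext i
  have h4 := hw i
  rw [key] at h4
  simp only [Pi.zero_apply, Int.cast_zero] at h4 ⊢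
  exact (mul_eq_zero.mp h4.symm).resolve_left (by exact_mod_cast hm)

lemma D_mem_soT : H.D ∈ soT (H.form ℂ) (smap ℂ H.N : Set (Fin r → ℂ)) := by
  refine ⟨H.compat, ?_⟩
  intro w hw
  have hw' : w ∈ smap ℂ H.N := hw
  clear hw
  unfold smap at hw'
  induction hw' using Submodule.span_induction with
  | mem w h =>
    obtain ⟨n, hn, rfl⟩ := h
    exact (mem_N H).mp hn
  | zero => rw [mulVec_zero]
  | add v w _ _ hv hw => rw [mulVec_add, hv, hw, add_zero]
  | smul c v _ hv => rw [mulVec_smul, hv, smul_zero]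

/-- The special orthogonal group of the transcendental part, as a subgroup of `GL r`. -/
def SOGroup (F : Type*) [Field F] [CharZero F] : Subgroup (GL (Fin r) F) where
  carrier := {a | (a : Matrix (Fin r) (Fin r) F) ∈
    SOT (H.form F) (smap F H.N : Set (Fin r → F))}
  mul_mem' := by
    rintro a b ⟨ha1, ha2, ha3⟩ ⟨hb1, hb2, hb3⟩
    refine ⟨?_, ?_, ?_⟩
    · rw [Units.val_mul, transpose_mul]
      have : (b : Matrix (Fin r) (Fin r) F)ᵀ * (a : Matrix (Fin r) (Fin r) F)ᵀ * H.form F *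
          (a * b) = (b : Matrix (Fin r) (Fin r) F)ᵀ *
            ((a : Matrix (Fin r) (Fin r) F)ᵀ * H.form F * a) * b := by
        simp only [mul_assoc]
      rw [this, ha1, hb1]
    · rw [Units.val_mul, det_mul, ha2, hb2, mul_one]
    · intro w hw
      rw [Units.val_mul, ← Matrix.mulVec_mulVec, hb3 w hw, ha3 w hw]
  one_mem' := by
    refine ⟨?_, ?_, ?_⟩
    · simp
    · simp
    · intro w _; simp
  inv_mem' := by
    rintro a ⟨ha1, ha2, ha3⟩
    have h1 : (a : Matrix (Fin r) (Fin r) F) * ((a⁻¹ : GL (Fin r) F) : Matrix (Fin r) (Fin r) F)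
        = 1 := by
      rw [← Units.val_mul, mul_inv_cancel, Units.val_one]
    have h1' : ((a⁻¹ : GL (Fin r) F) : Matrix (Fin r) (Fin r) F) *
        (a : Matrix (Fin r) (Fin r) F) = 1 := by
      rw [← Units.val_mul, inv_mul_cancel, Units.val_one]
    have h2 : ((a⁻¹ : GL (Fin r) F) : Matrix (Fin r) (Fin r) F)ᵀ *
        (a : Matrix (Fin r) (Fin r) F)ᵀ = 1 := by
      rw [← transpose_mul, h1, transpose_one]
    refine ⟨?_, ?_, ?_⟩
    · calc ((a⁻¹ : GL (Fin r) F) : Matrix (Fin r) (Fin r) F)ᵀ * H.form F *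
            ((a⁻¹ : GL (Fin r) F) : Matrix (Fin r) (Fin r) F) =
          ((a⁻¹ : GL (Fin r) F) : Matrix (Fin r) (Fin r) F)ᵀ *
            ((a : Matrix (Fin r) (Fin r) F)ᵀ * H.form F * a) *
            ((a⁻¹ : GL (Fin r) F) : Matrix (Fin r) (Fin r) F) := by rw [ha1]
        _ = (((a⁻¹ : GL (Fin r) F) : Matrix (Fin r) (Fin r) F)ᵀ *
            (a : Matrix (Fin r) (Fin r) F)ᵀ) * H.form F *
            ((a : Matrix (Fin r) (Fin r) F) *
              ((a⁻¹ : GL (Fin r) F) : Matrix (Fin r) (Fin r) F)) := by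
          simp only [mul_assoc]
        _ = H.form F := by rw [h1, h2, one_mul, mul_one]
    · have h3 := congrArg Matrix.det h1
      rw [det_mul, ha2, one_mul, det_one] at h3
      exact h3
    · intro w hw
      have h3 := ha3 w hw
      calc ((a⁻¹ : GL (Fin r) F) : Matrix (Fin r) (Fin r) F) *ᵥ w =
          ((a⁻¹ : GL (Fin r) F) : Matrix (Fin r) (Fin r) F) *ᵥ
            ((a : Matrix (Fin r) (Fin r) F) *ᵥ w) := by rw [h3]
        _ = w := by rw [Matrix.mulVec_mulVec, h1', one_mulVec]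

lemma mem_SOGroup {F : Type*} [Field F] [CharZero F] {a : GL (Fin r) F} :
    a ∈ SOGroup H F ↔ (a : Matrix (Fin r) (Fin r) F) ∈
      SOT (H.form F) (smap F H.N : Set (Fin r → F)) := Iff.rfl

/-- A matrix of determinant one as an element of `GL r`. -/
noncomputable def ofDet {A : Type*} [CommRing A] (M : Matrix (Fin r) (Fin r) A) (h : M.det = 1) :
    GL (Fin r) A := Matrix.GeneralLinearGroup.mk'' M (by rw [h]; exact isUnit_one)

@[simp] lemma ofDet_coe {A : Type*} [CommRing A] (M : Matrix (Fin r) (Fin r) A) (h : M.det = 1) :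
    ((ofDet M h : GL (Fin r) A) : Matrix (Fin r) (Fin r) A) = M := rfl

/-- The point of `GL r` with matrix `M` and determinant one. -/
def pt1 {A : Type*} [CommRing A] (M : Matrix (Fin r) (Fin r) A) : Option (Fin r × Fin r) → A :=
  fun o ↦ o.elim 1 (fun p ↦ M p.1 p.2)

lemma evGL_of_det {R A : Type*} [CommRing R] [CommRing A] [Algebra R A] {a : GL (Fin r) A}
    (h : (a : Matrix (Fin r) (Fin r) A).det = 1) (f : GLPoly r R) :
    evGL a f = MvPolynomial.aeval (pt1 (a : Matrix (Fin r) (Fin r) A)) f := by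
  unfold evGL
  congr 2
  ext o
  cases o with
  | none =>
    have h1 : Matrix.GeneralLinearGroup.det a = 1 := by
      ext
      exact h
    simp [pt1, h1]
  | some p => rfl

/-- Setting the inverse of the determinant equal to one. -/
noncomputable def toLin {R : Type*} [CommRing R] :
    GLPoly r R →ₐ[R] MvPolynomial (Fin r × Fin r) R :=
  MvPolynomial.aeval (fun o : Option (Fin r × Fin r) ↦ o.elim 1 MvPolynomial.X)

lemma evM_toLin {F A : Type*} [Field F] [CommRing A] [Algebra F A] (M : Matrix (Fin r) (Fin r) A)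
    (f : GLPoly r F) : evM M (toLin f) = MvPolynomial.aeval (pt1 M) f := by
  unfold toLin
  rw [MvPolynomial.comp_aeval_apply]
  congr 2
  ext o
  cases o with
  | none => simp [pt1]
  | some p => simp [pt1, evM_X]

lemma evGL_rename {F A : Type*} [Field F] [CommRing A] [Algebra F A] (a : GL (Fin r) A)
    (f : MvPolynomial (Fin r × Fin r) F) :
    evGL a (MvPolynomial.rename some f : GLPoly r F) =
      evM (a : Matrix (Fin r) (Fin r) A) f := by
  unfold evGL evM
  rw [MvPolynomial.aeval_rename]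
  rfl

end Lattice

end Pool.Agent.Helper88.MT
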