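import Mathlib
import Pool.Agent.Helper88.MT.MTComp
import Pool.Agent.Helper88.MT.Integral

/-!
# The Mumford-Tate group is the special orthogonal group
-/

set_option linter.unusedSectionVars false

namespace Pool.Agent.Helper88.MT

open Matrix Module

variable {r : ℕ} (H : HodgeLattice r)

lemma vmap_smap_fix {F : Type*} [Field F] [CharZero F] {M : Matrix (Fin r) (Fin r) F}
    {N : Submodule ℚ (Fin r → ℚ)} (h : ∀ w ∈ N, M *ᵥ vmap F w = vmap F w) :
    ∀ w ∈ (smap F N : Set (Fin r → F)), M *ᵥ w = w := by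
  intro w hw
  have hw' : w ∈ smap F N := hw
  clear hw
  unfold smap at hw'
  induction hw' using Submodule.span_induction with
  | mem w h' =>
    obtain ⟨n, hn, rfl⟩ := h'
    exact h n hn
  | zero => rw [mulVec_zero]
  | add v w _ _ hv hw => rw [mulVec_add, hv, hw]
  | smul c v _ hv => rw [mulVec_smul, hv]

/-- The equations of the special orthogonal group. -/
def soEqs : Set (MvPolynomial (Fin r × Fin r) ℚ) :=
  {p | (∃ i j, p = eqIsom (H.form ℚ) i j) ∨ (∃ w ∈ H.N, ∃ i, p = eqFix w i) ∨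
    p = eqDet (Fin r) ℚ}

lemma soEqs_iff {F : Type*} [Field F] [CharZero F] {M : Matrix (Fin r) (Fin r) F} :
    (∀ p ∈ soEqs H, evM M p = 0) ↔ M ∈ SOT (H.form F) (smap F H.N : Set (Fin r → F)) := by
  constructor
  · intro h
    refine ⟨?_, ?_, ?_⟩
    · rw [← sub_eq_zero, ← form_map H (F := ℚ) (F' := F)]
      ext i j
      rw [← evM_eqIsom, h _ (Or.inl ⟨i, j, rfl⟩), Matrix.zero_apply]
    · have h1 := h _ (Or.inr (Or.inr rfl))
      rw [evM_eqDet, sub_eq_zero] at h1
      exact h1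
    · apply vmap_smap_fix
      intro w hw
      ext i
      have h1 := h _ (Or.inr (Or.inl ⟨w, hw, i, rfl⟩))
      rw [evM_eqFix, sub_eq_zero] at h1
      exact h1
  · rintro ⟨h1, h2, h3⟩ p (⟨i, j, rfl⟩ | ⟨w, hw, i, rfl⟩ | rfl)
    · rw [evM_eqIsom, form_map, h1, sub_self, Matrix.zero_apply]
    · rw [evM_eqFix, sub_eq_zero]
      exact congrFun (h3 (vmap F w) (vmap_mem_smap hw)) i
    · rw [evM_eqDet, h2, sub_self]

lemma soEqs_of_rat {M : Matrix (Fin r) (Fin r) ℚ} (hM : M ∈ SOT (H.form ℚ) (H.N : Set (Fin r → ℚ))) :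
    ∀ p ∈ soEqs H, evM (F := ℚ) (R := ℚ) M p = 0 := by
  have hid : (H.form ℚ).map (algebraMap ℚ ℚ) = H.form ℚ := by ext i j; simp
  rintro p (⟨i, j, rfl⟩ | ⟨w, hw, i, rfl⟩ | rfl)
  · rw [evM_eqIsom, hid, hM.1, sub_self, Matrix.zero_apply]
  · rw [evM_eqFix, sub_eq_zero]
    exact congrFun (hM.2.2 w hw) i
  · rw [evM_eqDet, hM.2.1, sub_self]

lemma hodge_elt_mem {u : ℂ} (hu : ‖u‖ = 1) :
    hodM H.D u ∈ SOT (H.form ℂ) (smap ℂ H.N : Set (Fin r → ℂ)) := by
  refine hodM_mem_SOT (form_det H ℂ) H.cube (D_mem_soT H) ?_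
  rintro rfl
  rw [norm_zero] at hu
  exact zero_ne_one hu

/-- The Mumford-Tate group of a Hodge lattice with simple transcendental part, scalar
endomorphisms, odd rank and large rank. -/
theorem mem_MTGroup_iff (hsimple : H.IsSimple) (hend : H.EndIsRat) (hodd : Odd H.n)
    (hpos : 0 < H.g) (hlarge : H.g ^ 2 + 2 * H.g < H.n) {a : GL (Fin r) ℂ} :
    a ∈ H.MTGroup ↔ a ∈ SOGroup H ℂ := by
  constructor
  · intro ha
    rw [HodgeLattice.MTGroup, Subgroup.mem_sInf] at ha
    apply ha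
    refine ⟨⟨(MvPolynomial.rename some) '' (soEqs H), ?_⟩, ?_⟩
    · intro a
      rw [mem_SOGroup, ← soEqs_iff]
      constructor
      · rintro h _ ⟨p, hp, rfl⟩
        rw [evGL_rename]
        exact h p hp
      · intro h p hp
        have := h _ ⟨p, hp, rfl⟩
        rwa [evGL_rename] at this
    · rintro u a ⟨hu, ha⟩
      rw [mem_SOGroup, ha]
      exact hodge_elt_mem H hu
  · intro ha
    rw [HodgeLattice.MTGroup, Subgroup.mem_sInf]
    rintro S ⟨⟨P, hP⟩, hS⟩
    let S' : Set (Matrix (Fin r) (Fin r) ℂ) :=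
      {M | M ∈ SOT (H.form ℂ) (smap ℂ H.N : Set (Fin r → ℂ)) ∧
        ∀ f ∈ P, MvPolynomial.aeval (pt1 M) f = 0}
    have hSS : ∀ b : GL (Fin r) ℂ, (b : Matrix (Fin r) (Fin r) ℂ) ∈ S' →  b ∈ S := by
      rintro b ⟨hb1, hb2⟩
      rw [hP]
      intro f hf
      rw [evGL_of_det hb1.2.1]
      exact hb2 f hf
    have hSS' : ∀ b : GL (Fin r) ℂ, b ∈ S → b ∈ SOGroup H ℂ →
        (b : Matrix (Fin r) (Fin r) ℂ) ∈ S' := by
      intro b hb hb'
      refine ⟨hb', fun f hf ↦ ?_⟩
      rw [← evGL_of_det hb'.2.1]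
      exact (hP b).mp hb f hf
    have hkey := SOT_subset_of_hodM (k := ℚ) (K := ℂ) (ψ := H.form ℚ) (N := H.N) (D := H.D)
      (form_symm H ℚ) (form_det H ℚ) (nondeg_N H) H.cube ?_ ?_ hpos hlarge hodd (S := S')
      (Q := soEqs H ∪ (toLin '' P)) ?_ ?_ ?_ ?_ ?_ (Z := {u : ℂ | ‖u‖ = 1}) infinite_circle ?_ ?_
    · rw [form_map] at hkey
      exact hSS a (hkey _ ha)
    · intro W hWT hW
      refine hsimple W hWT ?_
      intro w hw
      rw [extend_eq_smap] at hw ⊢
      unfold smap at hw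
      induction hw using Submodule.span_induction with
      | mem w hw =>
        obtain ⟨v, hv, rfl⟩ := hw
        exact hW v hv
      | zero => rw [mulVec_zero]; exact Submodule.zero_mem _
      | add v w _ _ hv hw => rw [mulVec_add]; exact Submodule.add_mem _ hv hw
      | smul c v _ hv => rw [mulVec_smul]; exact Submodule.smul_mem _ _ hv
    · intro φ hφ
      refine hend φ ?_
      exact hφ
    · intro M
      constructor
      · rintro ⟨hM1, hM2⟩ q (hq | ⟨f, hf, rfl⟩)
        · exact (soEqs_iff H).mpr hM1 q hq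
        · rw [evM_toLin]
          exact hM2 f hf
      · intro h
        refine ⟨(soEqs_iff H).mp fun p hp ↦ h p (Or.inl hp), fun f hf ↦ ?_⟩
        rw [← evM_toLin]
        exact h _ (Or.inr ⟨f, hf, rfl⟩)
    · have h1 : ((1 : GL (Fin r) ℂ) : Matrix (Fin r) (Fin r) ℂ) ∈ S' :=
        hSS' 1 S.one_mem (SOGroup H ℂ).one_mem
      exact h1
    · intro M hM M' hM'
      have h1 := hSS (ofDet M hM.1.2.1) hM
      have h2 := hSS (ofDet M' hM'.1.2.1) hM'
      exact hSS' (ofDet M hM.1.2.1 * ofDet M' hM'.1.2.1) (S.mul_mem h1 h2)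
        ((SOGroup H ℂ).mul_mem hM.1 hM'.1)
    · rintro M ⟨hM, _⟩
      rw [form_map]
      exact hM.1
    · rintro M ⟨hM, _⟩ w hw
      exact hM.2.2 _ (vmap_mem_smap hw)
    · intro h
      have h0 : ‖(0 : ℂ)‖ = 1 := h
      rw [norm_zero] at h0
      exact zero_ne_one h0
    · intro u hu
      have h1 := hodge_elt_mem H hu
      exact hSS' (ofDet (hodM H.D u) h1.2.1) (hS u _ ⟨hu, rfl⟩) h1

section Vanishing

variable {R F : Type*} [CommRing R] [Field F] [CharZero F] [Algebra R F]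

/-- The rational points of the special orthogonal group, as points of affine space. -/
def ratPts : Set (Option (Fin r × Fin r) → ℚ) :=
  {p | ∃ M ∈ SOT (H.form ℚ) (H.N : Set (Fin r → ℚ)), p = pt1 M}

lemma pt1_map {A B : Type*} [CommRing A] [CommRing B] (φ : A →+* B)
    (M : Matrix (Fin r) (Fin r) A) : (fun i ↦ φ (pt1 M i)) = pt1 (M.map φ) := by
  ext o
  cases o with
  | none => simp [pt1]
  | some p => simp [pt1]

/-- A polynomial over a subring vanishes on the special orthogonal group over the field if and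
only if it vanishes at the rational points. -/
lemma vanishing_iff (f : GLPoly r R) :
    (∀ M ∈ SOT (H.form F) (smap F H.N : Set (Fin r → F)), MvPolynomial.aeval (pt1 M) f = 0) ↔
      ∀ p ∈ ratPts H, MvPolynomial.aeval (fun i ↦ ((p i : ℚ) : F)) f = 0 := by
  have hcast : ∀ M : Matrix (Fin r) (Fin r) ℚ,
      (fun i ↦ ((pt1 M i : ℚ) : F)) = pt1 (M.map (algebraMap ℚ F)) := by
    intro M
    exact pt1_map (algebraMap ℚ F) M
  constructor
  · rintro h _ ⟨M, hM, rfl⟩
    rw [hcast]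
    apply h
    rw [← soEqs_iff]
    intro p hp
    rw [← evM_mapAlg, evM_map, soEqs_of_rat H hM p hp, map_zero]
  · intro h M hM
    -- the polynomial over the field
    set f' : MvPolynomial (Fin r × Fin r) F :=
      toLin (MvPolynomial.map (algebraMap R F) f) with hf'
    have hev : ∀ M : Matrix (Fin r) (Fin r) F,
        evM M f' = MvPolynomial.aeval (pt1 M) f := by
      intro M
      rw [hf', evM_toLin, MvPolynomial.aeval_map_algebraMap]
    rw [← hev]
    refine evM_eq_zero_of_mem_van_SOT (k := ℚ) (F := F) (form_symm H ℚ) (form_det H ℚ)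
      (nondeg_N H) ?_ (by rw [form_map]; exact hM)
    intro M' hM'
    rw [hev, ← hcast]
    exact h _ ⟨M', hM', rfl⟩

end Vanishing

end Pool.Agent.Helper88.MT
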