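import Mathlib
import Pool.Agent.Helper88.MT.MTGroup

/-!
# The Galois side
-/

set_option linter.unusedSectionVars false

namespace Pool.Agent.Helper88.MT

open Matrix Module

section Lie

variable {r : ℕ} {F : Type*} [Field F]

lemma onePlusEps_coe (x : Matrix (Fin r) (Fin r) F) :
    ((onePlusEps x : GL (Fin r) (DualNumber F)) : Matrix (Fin r) (Fin r) (DualNumber F)) =
      dualM 1 x := by
  have hal : ∀ a : F, algebraMap F (DualNumber F) a = TrivSqZeroExt.inl a := fun a ↦ rfl
  change 1 + (DualNumber.eps : DualNumber F) • x.map (algebraMap F (DualNumber F)) = _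
  ext i j
  all_goals
    rw [dualM, Matrix.add_apply, Matrix.smul_apply, Matrix.map_apply, hal, one_mul,
      DualNumber.eps]
    by_cases hij : i = j
    · subst hij; simp
    · simp [Matrix.one_apply_ne hij]

variable {Γ : Subgroup (GL (Fin r) F)}

/-- The matrices of the elements of a group. -/
def mats (Γ : Subgroup (GL (Fin r) F)) : Set (Matrix (Fin r) (Fin r) F) :=
  {M | ∃ a ∈ Γ, (a : Matrix (Fin r) (Fin r) F) = M}

lemma mem_lieGL_iff (hdet : ∀ a ∈ Γ, (a : Matrix (Fin r) (Fin r) F).det = 1)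
    {x : Matrix (Fin r) (Fin r) F} :
    x ∈ lieGL (Γ : Set (GL (Fin r) F)) ↔ ∀ f ∈ van F (mats Γ), der x f ∈ van F (mats Γ) := by
  have h1 : x ∈ lieGL (Γ : Set (GL (Fin r) F)) ↔ ∀ f ∈ van F (mats Γ), evM (dualM 1 x) f = 0 := by
    constructor
    · intro h f hf
      have h2 := h (MvPolynomial.rename some f : GLPoly r F) (fun a ha ↦ by
        rw [evGL_rename]
        exact mem_van_self.mp hf _ ⟨a, ha, rfl⟩)
      rwa [evGL_rename, onePlusEps_coe] at h2
    · intro h f hf
      have h2 := h (eqDet (Fin r) F) (mem_van_self.mpr (by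
        rintro _ ⟨a, ha, rfl⟩
        rw [evM_eqDet, hdet a ha, sub_self]))
      rw [evM_eqDet, sub_eq_zero] at h2
      have h3 := h (toLin f) (mem_van_self.mpr (by
        rintro _ ⟨a, ha, rfl⟩
        rw [evM_toLin, ← evGL_of_det (hdet a ha)]
        exact hf a ha))
      rw [evGL_of_det (by rw [onePlusEps_coe]; exact h2), onePlusEps_coe, ← evM_toLin]
      exact h3
  rw [h1]
  have hone : (1 : Matrix (Fin r) (Fin r) F) ∈ mats Γ := ⟨1, Γ.one_mem, rfl⟩
  constructor
  · intro h f hf
    rw [mem_van_self]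
    rintro _ ⟨a, ha, rfl⟩
    obtain ⟨f', hf'⟩ := exists_translate (a : Matrix (Fin r) (Fin r) F) f
    have hid : (a : Matrix (Fin r) (Fin r) F).map (algebraMap F F) = a := by ext i j; simp
    have h2 : f' ∈ van F (mats Γ) := by
      rw [mem_van_self]
      rintro _ ⟨b, hb, rfl⟩
      rw [hf', hid]
      exact mem_van_self.mp hf _ ⟨a * b, Γ.mul_mem ha hb, rfl⟩
    have h3 := h f' h2
    rw [hf'] at h3
    have h4 : (a : Matrix (Fin r) (Fin r) F).map (algebraMap F (DualNumber F)) * dualM 1 x =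
        dualM (a : Matrix (Fin r) (Fin r) F) x := by
      have hal : ∀ a : F, algebraMap F (DualNumber F) a = TrivSqZeroExt.inl a := fun a ↦ rfl
      ext i j
      · rw [Matrix.mul_apply, TrivSqZeroExt.fst_sum]
        simp only [dualM, Matrix.map_apply, hal, one_mul, TrivSqZeroExt.fst_mul,
          TrivSqZeroExt.fst_inl, TrivSqZeroExt.fst_add, TrivSqZeroExt.fst_inr, add_zero]
        rw [← Matrix.mul_apply, mul_one]
      · rw [Matrix.mul_apply, TrivSqZeroExt.snd_sum]
        simp only [dualM, Matrix.map_apply, hal, one_mul, TrivSqZeroExt.snd_mul,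
          TrivSqZeroExt.snd_inl, TrivSqZeroExt.snd_add, TrivSqZeroExt.snd_inr, zero_add,
          TrivSqZeroExt.fst_inl, smul_zero, add_zero, smul_eq_mul]
        rw [← Matrix.mul_apply]
    rw [h4, evM_dualM] at h3
    have h5 := congrArg TrivSqZeroExt.snd h3
    simpa using h5
  · intro h f hf
    rw [evM_dualM, mem_van_self.mp hf _ hone, mem_van_self.mp (h f hf) _ hone]
    simp

end Lie

section Main

variable {r : ℕ} (H : HodgeLattice r)
variable {R F Ω : Type*} [CommRing R] [Field F] [CharZero F] [Algebra R F] [Field Ω]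
  [CharZero Ω] [Algebra F Ω]

lemma smap_smap (N : Submodule ℚ (Fin r → ℚ)) : smap Ω (smap F N) = smap Ω N := by
  have hvv : ∀ v : Fin r → ℚ, vmap Ω (vmap F v) = vmap Ω v := by
    intro v
    ext i
    simp [vmap]
  apply le_antisymm
  · rw [smap, Submodule.span_le]
    rintro _ ⟨w, hw, rfl⟩
    have hw' : w ∈ smap F N := hw
    clear hw
    unfold smap at hw'
    change vmap Ω w ∈ smap Ω N
    induction hw' using Submodule.span_induction with
    | mem w h' =>
      obtain ⟨n, hn, rfl⟩ := h'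
      rw [hvv]
      exact vmap_mem_smap hn
    | zero =>
      have : vmap Ω (0 : Fin r → F) = 0 := by ext i; simp [vmap]
      rw [this]
      exact Submodule.zero_mem _
    | add v w _ _ hv hw => rw [vmap_add]; exact Submodule.add_mem _ hv hw
    | smul c v _ hv => rw [vmap_smul]; exact Submodule.smul_mem _ _ hv
  · rw [smap, Submodule.span_le]
    rintro _ ⟨w, hw, rfl⟩
    rw [← hvv]
    exact vmap_mem_smap (vmap_mem_smap hw)

lemma orthS_form (F : Type*) [Field F] [CharZero F] :
    orthS (H.form F) (smap F H.N) = smap F H.T := by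
  have := orthS_smap (F := F) (H.form ℚ) H.N
  rw [form_map] at this
  exact this

/-- The image of the group over the fraction field lies in the special orthogonal group. -/
lemma mem_SOGroup_of_compatible {Γ : Subgroup (GL (Fin r) R)} (hΓ : H.Compatible Γ)
    {a : GL (Fin r) F} (ha : a ∈ Γ.map (Matrix.GeneralLinearGroup.map (algebraMap R F))) :
    a ∈ SOGroup H F := by
  obtain ⟨γ, hγ, rfl⟩ := ha
  have hcoe : ((Matrix.GeneralLinearGroup.map (algebraMap R F) γ : GL (Fin r) F) :
      Matrix (Fin r) (Fin r) F) = (γ : Matrix (Fin r) (Fin r) R).map (algebraMap R F) := rfl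
  have hψ : (H.ψ.map (Int.cast : ℤ → R)).map (algebraMap R F) = H.form F := by
    ext i j
    simp [HodgeLattice.form]
  rw [mem_SOGroup, hcoe]
  refine ⟨?_, ?_, ?_⟩
  · rw [← Matrix.transpose_map, ← hψ, ← Matrix.map_mul, ← Matrix.map_mul, hΓ.isom γ hγ]
  · have := (algebraMap R F).map_det (γ : Matrix (Fin r) (Fin r) R)
    rw [hΓ.det_eq_one γ hγ, map_one] at this
    exact this.symm
  · apply vmap_smap_fix
    intro w hw
    obtain ⟨m, hm, v, hv⟩ := exists_integral w
    have h1 : (fun i ↦ ((v i : ℤ) : ℂ)) = (m : ℂ) • vmap ℂ w := by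
      ext i
      have := congrArg (fun q : ℚ ↦ (q : ℂ)) (hv i)
      simpa [vmap] using this
    have h2 := hΓ.fix γ hγ v (by rw [h1, mulVec_smul, (mem_N H).mp hw, smul_zero])
    have h3 : (m : F) • vmap F w = fun i ↦ algebraMap R F ((v i : ℤ) : R) := by
      ext i
      have := congrArg (fun q : ℚ ↦ (q : F)) (hv i)
      simp only [Rat.cast_intCast, Rat.cast_mul] at this
      rw [Pi.smul_apply, smul_eq_mul, map_intCast, this]
      simp [vmap]
    have h4 : (γ : Matrix (Fin r) (Fin r) R).map (algebraMap R F) *ᵥ ((m : F) • vmap F w) =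
        (m : F) • vmap F w := by
      rw [h3]
      have h5 : (fun i ↦ algebraMap R F (((γ : Matrix (Fin r) (Fin r) R) *ᵥ
          fun i ↦ ((v i : ℤ) : R)) i)) = fun i ↦ algebraMap R F ((v i : ℤ) : R) :=
        congrArg (fun u : Fin r → R ↦ fun i ↦ algebraMap R F (u i)) h2
      conv_rhs => rw [← h5]
      ext i
      simp [mulVec, dotProduct]
    rw [mulVec_smul] at h4
    have hm' : (m : F) ≠ 0 := by exact_mod_cast hm
    have h6 := congrArg (fun u ↦ (m : F)⁻¹ • u) h4
    simpa [smul_smul, inv_mul_cancel₀ hm'] using h6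

variable [IsAlgClosed Ω]

/-- Irreducibility of the Lie algebra implies that the Zariski closure is the special orthogonal
group. -/
theorem vanishing_of_irreducible (hodd : Odd H.n) {Γ : Subgroup (GL (Fin r) F)}
    (hΓ : ∀ a ∈ Γ, a ∈ SOGroup H F) {h : Matrix (Fin r) (Fin r) Ω}
    (hh : h ∈ spanOver Ω (lieGL (Γ : Set (GL (Fin r) F)))) (hcube : h ^ 3 = h)
    (hpos : 0 < finrank Ω (Module.End.eigenspace (Matrix.toLin' h) 1))
    (hlarge : finrank Ω (Module.End.eigenspace (Matrix.toLin' h) 1) ^ 2 +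
      2 * finrank Ω (Module.End.eigenspace (Matrix.toLin' h) 1) < H.n)
    (hgen : (∀ 𝔞 : Submodule F (Matrix (Fin r) (Fin r) F),
        (∀ x ∈ 𝔞, x ∈ lieGL (Γ : Set (GL (Fin r) F))) →
        (∀ x ∈ lieGL (Γ : Set (GL (Fin r) F)), ∀ y ∈ 𝔞, x * y - y * x ∈ 𝔞) →
        h ∈ spanOver Ω (𝔞 : Set (Matrix (Fin r) (Fin r) F)) →
        ∀ x ∈ lieGL (Γ : Set (GL (Fin r) F)), x ∈ 𝔞) ∨
      Nat.Coprime H.n (finrank Ω (Module.End.eigenspace (Matrix.toLin' h) 1)))
    (hirr : H.ActsIrreducibly Ω (lieGL (Γ : Set (GL (Fin r) F)))) :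
    ∀ f ∈ van F (mats Γ), ∀ M ∈ SOT (H.form F) (smap F H.N : Set (Fin r → F)),
      evM M f = 0 := by
  have hdet : ∀ a ∈ Γ, (a : Matrix (Fin r) (Fin r) F).det = 1 := fun a ha ↦ (hΓ a ha).2.1
  -- the Lie algebra as a subspace
  let 𝔤 : Submodule F (Matrix (Fin r) (Fin r) F) :=
    { carrier := {x | ∀ f ∈ van F (mats Γ), der x f ∈ van F (mats Γ)}
      add_mem' := by
        intro x y hx hy f hf
        rw [der_add, Derivation.add_apply]
        exact Submodule.add_mem _ (hx f hf) (hy f hf)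
      zero_mem' := by
        intro f _
        rw [der_zero, Derivation.zero_apply]
        exact Submodule.zero_mem _
      smul_mem' := by
        intro c x hx f hf
        rw [der_smul, Derivation.smul_apply]
        exact Submodule.smul_mem _ c (hx f hf) }
  have h𝔤 : ∀ x, x ∈ 𝔤 ↔ ∀ f ∈ van F (mats Γ), der x f ∈ van F (mats Γ) := fun x ↦ Iff.rfl
  have hL : lieGL (Γ : Set (GL (Fin r) F)) = (𝔤 : Set (Matrix (Fin r) (Fin r) F)) := by
    ext x
    exact mem_lieGL_iff hdet
  rw [hL] at hh hgen hirr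
  have hlie : ∀ x ∈ 𝔤, ∀ y ∈ 𝔤, x * y - y * x ∈ 𝔤 := by
    intro x hx y hy f hf
    rw [der_comm]
    exact Submodule.sub_mem _ (hx _ (hy f hf)) (hy _ (hx f hf))
  have hone : (1 : Matrix (Fin r) (Fin r) F) ∈ mats Γ := ⟨1, Γ.one_mem, rfl⟩
  have hso : ∀ x ∈ 𝔤, x ∈ soT (H.form F) (smap F H.N : Set (Fin r → F)) := by
    intro x hx
    refine mem_soT_of_tangent (R := F) (S := mats Γ) ?_ ?_ ?_
    · rintro _ ⟨a, ha, rfl⟩
      have hid : (H.form F).map (algebraMap F F) = H.form F := by ext i j; simp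
      rw [hid]
      exact (hΓ a ha).1
    · rintro _ ⟨a, ha, rfl⟩ w hw
      exact (hΓ a ha).2.2 w hw
    · intro f hf
      exact mem_van_self.mp (hx f (mem_van_self.mpr hf)) 1 hone
  have hfr : finrank F (orthS (H.form F) (smap F H.N)) = H.n := by
    rw [orthS_form, finrank_smap]
    rfl
  have hTΩ : orthS ((H.form F).map (algebraMap F Ω)) (smap Ω (smap F H.N)) = extend Ω H.T := by
    rw [form_map, smap_smap, orthS_form, extend_eq_smap]
  have hall : ∀ x ∈ soT (H.form F) (smap F H.N : Set (Fin r → F)), x ∈ 𝔤 := by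
    refine soT_le_of_irreducible (K := Ω) (form_symm H F) (form_det H F) ?_ hlie hso hh hcube ?_
      hpos (by rw [hfr]; exact hlarge) (by rw [hfr]; exact hodd) ?_
    · have := nondeg_smap (F := F) (nondeg_N H)
      rw [form_map] at this
      exact this
    · rw [hTΩ]
      exact hirr
    · rw [hfr]
      rcases hgen with hgen | hgen
      · left
        intro 𝔞 h𝔞 hid hh𝔞
        exact le_antisymm h𝔞 fun x hx ↦ hgen 𝔞 (fun x hx ↦ h𝔞 hx) hid hh𝔞 x hx
      · exact Or.inr hgen
  intro f hf M hM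
  have hnd : ∀ v ∈ smap F H.N, (∀ w ∈ smap F H.N, bil (H.form F) v w = 0) → v = 0 := by
    have := nondeg_smap (F := F) (nondeg_N H)
    rw [form_map] at this
    exact this
  refine evM_eq_zero_of_mem_SOT (form_symm H F) (form_det H F) hnd
    (𝓘 := (van F (mats Γ) : Set (MvPolynomial (Fin r × Fin r) F)))
    (fun x hx f hf ↦ (h𝔤 x).mp (hall x hx) f hf) ?_ hM f hf
  intro f hf
  exact mem_van_self.mp hf 1 hone

omit [IsAlgClosed Ω] in
/-- If the Zariski closure is the special orthogonal group then its Lie algebra acts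
irreducibly. -/
theorem irreducible_of_vanishing (hn : 3 ≤ H.n) {Γ : Subgroup (GL (Fin r) F)}
    (hΓ : ∀ a ∈ Γ, a ∈ SOGroup H F)
    (hvan : ∀ f ∈ van F (mats Γ), ∀ M ∈ SOT (H.form F) (smap F H.N : Set (Fin r → F)),
      evM M f = 0) :
    H.ActsIrreducibly Ω (lieGL (Γ : Set (GL (Fin r) F))) := by
  have hdet : ∀ a ∈ Γ, (a : Matrix (Fin r) (Fin r) F).det = 1 := fun a ha ↦ (hΓ a ha).2.1
  -- rational elements lie in the Lie algebra
  have hlie : ∀ y ∈ soT (H.form ℚ) (H.N : Set (Fin r → ℚ)),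
      y.map (algebraMap ℚ F) ∈ lieGL (Γ : Set (GL (Fin r) F)) := by
    intro y hy
    rw [mem_lieGL_iff hdet]
    intro f hf
    have h1 : f ∈ van F (SOT (H.form ℚ) (H.N : Set (Fin r → ℚ))) := by
      intro M hM
      refine hvan f hf _ ?_
      rw [← soEqs_iff]
      intro p hp
      rw [← evM_mapAlg, evM_map, soEqs_of_rat H hM p hp, map_zero]
    have h2 := der_mem_van (der_mem_van_SOT (form_det H ℚ) hy) f h1
    rw [mem_van_self]
    rintro _ ⟨a, ha, rfl⟩
    refine evM_eq_zero_of_mem_van_SOT (k := ℚ) (F := F) (form_symm H ℚ) (form_det H ℚ)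
      (nondeg_N H) h2 ?_
    rw [form_map]
    exact hΓ a ha
  intro W hWT hW
  rw [extend_eq_smap, ← orthS_form] at hWT ⊢
  have hnd : ∀ v ∈ smap Ω H.N, (∀ w ∈ smap Ω H.N, bil (H.form Ω) v w = 0) → v = 0 := by
    have := nondeg_smap (F := Ω) (nondeg_N H)
    rw [form_map] at this
    exact this
  refine soT_irreducible (form_symm H Ω) (form_det H Ω) hnd ?_ hWT ?_
  · rw [orthS_form, finrank_smap]
    exact hn
  · intro x hx w hw
    have hx' : x ∈ mspan Ω (soTS (H.form ℚ) (H.N : Set (Fin r → ℚ))) := by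
      apply soT_smap_le
      rw [form_map]
      exact hx
    clear hx
    unfold mspan at hx'
    induction hx' using Submodule.span_induction with
    | mem x hx =>
      obtain ⟨y, hy, rfl⟩ := hx
      have h1 := hW _ (hlie y hy) w hw
      have h2 : (y.map (algebraMap ℚ F)).map (algebraMap F Ω) = y.map (algebraMap ℚ Ω) := by
        ext i j; simp
      rw [h2] at h1
      exact h1
    | zero => rw [zero_mulVec]; exact Submodule.zero_mem _
    | add x y _ _ hx hy => rw [add_mulVec]; exact Submodule.add_mem _ hx hy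
    | smul c x _ hx => rw [smul_mulVec]; exact Submodule.smul_mem _ _ hx

end Main

end Pool.Agent.Helper88.MT
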