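import Mathlib
import Pool.Agent.Helper88.MT.Galois

/-!
# Equality of group schemes
-/

set_option linter.unusedSectionVars false

namespace Pool.Agent.Helper88.MT

open Matrix Module

variable {r : ℕ} (H : HodgeLattice r)

lemma exists_integral_poly {σ R F : Type*} [CommRing R] [IsDomain R] [Field F] [Algebra R F]
    [IsFractionRing R F] (f : MvPolynomial σ F) :
    ∃ c : R, c ≠ 0 ∧ ∃ f' : MvPolynomial σ R,
      MvPolynomial.map (algebraMap R F) f' = MvPolynomial.C (algebraMap R F c) * f := by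
  induction f using MvPolynomial.induction_on with
  | C a =>
    obtain ⟨p, q, hq, rfl⟩ := IsFractionRing.div_surjective (A := R) a
    have hq0 : q ≠ 0 := nonZeroDivisors.ne_zero hq
    have hq' : algebraMap R F q ≠ 0 := by
      rw [Ne, IsFractionRing.to_map_eq_zero_iff]
      exact hq0
    refine ⟨q, hq0, MvPolynomial.C p, ?_⟩
    rw [MvPolynomial.map_C, ← MvPolynomial.C_mul, mul_div_cancel₀ _ hq']
  | add p q hp hq =>
    obtain ⟨c, hc, p', hp'⟩ := hp
    obtain ⟨d, hd, q', hq'⟩ := hq
    refine ⟨c * d, mul_ne_zero hc hd, MvPolynomial.C d * p' + MvPolynomial.C c * q', ?_⟩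
    rw [map_add, map_mul, map_mul, hp', hq', MvPolynomial.map_C, MvPolynomial.map_C, map_mul,
      MvPolynomial.C_mul]
    ring
  | mul_X p i hp =>
    obtain ⟨c, hc, p', hp'⟩ := hp
    refine ⟨c, hc, p' * MvPolynomial.X i, ?_⟩
    rw [map_mul, hp', MvPolynomial.map_X]
    ring

section

variable {R F : Type*} [CommRing R] [IsDomain R] [Field F] [CharZero F] [Algebra R F]
  [IsFractionRing R F]

lemma mem_vanGL_MT (hMT : ∀ a : GL (Fin r) ℂ, a ∈ H.MTGroup ↔ a ∈ SOGroup H ℂ)
    (f : GLPoly r ℤ) :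
    f ∈ vanGL ℤ (H.MTGroup : Set (GL (Fin r) ℂ)) ↔
      ∀ p ∈ ratPts H, MvPolynomial.aeval p f = 0 := by
  have h1 : f ∈ vanGL ℤ (H.MTGroup : Set (GL (Fin r) ℂ)) ↔
      ∀ M ∈ SOT (H.form ℂ) (smap ℂ H.N : Set (Fin r → ℂ)),
        MvPolynomial.aeval (pt1 M) f = 0 := by
    constructor
    · intro h M hM
      have h2 := h (ofDet M hM.2.1) ((hMT _).mpr hM)
      rwa [evGL_of_det (by exact hM.2.1)] at h2
    · intro h a ha
      have h2 := (hMT a).mp ha
      rw [evGL_of_det h2.2.1]
      exact h _ h2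
  rw [h1, vanishing_iff]
  refine forall₂_congr fun p _ ↦ ?_
  have h2 : MvPolynomial.aeval (fun i ↦ ((p i : ℚ) : ℂ)) f =
      ((MvPolynomial.aeval p f : ℚ) : ℂ) :=
    (MvPolynomial.comp_aeval_apply (R := ℤ) p ((Rat.castHom ℂ : ℚ →+* ℂ).toIntAlgHom) f).symm
  rw [h2]
  exact_mod_cast Iff.rfl

lemma mem_vanGL_iff (Γ : Subgroup (GL (Fin r) R)) (f : GLPoly r R) :
    f ∈ vanGL R (Γ : Set (GL (Fin r) R)) ↔
      ∀ a ∈ Γ.map (Matrix.GeneralLinearGroup.map (algebraMap R F)), evGL a f = 0 := by
  have key : ∀ γ : GL (Fin r) R,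
      evGL (Matrix.GeneralLinearGroup.map (algebraMap R F) γ) f = algebraMap R F (evGL γ f) := by
    intro γ
    unfold evGL
    have h1 := MvPolynomial.comp_aeval_apply (R := R)
      (fun o : Option (Fin r × Fin r) ↦
        o.elim (((Matrix.GeneralLinearGroup.det γ)⁻¹ : Rˣ) : R) (fun p ↦ γ p.1 p.2))
      (Algebra.ofId R F) f
    have h2 : (algebraMap R F) ((MvPolynomial.aeval fun o : Option (Fin r × Fin r) ↦
        o.elim (((Matrix.GeneralLinearGroup.det γ)⁻¹ : Rˣ) : R) (fun p ↦ γ p.1 p.2)) f) =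
        (Algebra.ofId R F) ((MvPolynomial.aeval fun o : Option (Fin r × Fin r) ↦
        o.elim (((Matrix.GeneralLinearGroup.det γ)⁻¹ : Rˣ) : R) (fun p ↦ γ p.1 p.2)) f) := rfl
    rw [h2, h1]
    congr 2
    ext o
    cases o with
    | none =>
      have h3 : Matrix.GeneralLinearGroup.det (Matrix.GeneralLinearGroup.map (algebraMap R F) γ) =
          Units.map (algebraMap R F : R →* F) (Matrix.GeneralLinearGroup.det γ) := by
        ext
        exact ((algebraMap R F).map_det (γ : Matrix (Fin r) (Fin r) R)).symm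
      simp only [Option.elim_none]
      rw [h3, ← map_inv]
      rfl
    | some p => rfl
  constructor
  · rintro h _ ⟨γ, hγ, rfl⟩
    rw [key, h γ hγ, map_zero]
  · intro h γ hγ
    have h1 := h _ ⟨γ, hγ, rfl⟩
    rw [key] at h1
    exact (IsFractionRing.to_map_eq_zero_iff (K := F)).mp h1

/-- The equality of the two group schemes is equivalent to the vanishing statement. -/
theorem ideal_eq_iff (hMT : ∀ a : GL (Fin r) ℂ, a ∈ H.MTGroup ↔ a ∈ SOGroup H ℂ)
    {Γ : Subgroup (GL (Fin r) R)} (hΓ : H.Compatible Γ) :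
    (vanGL ℤ (H.MTGroup : Set (GL (Fin r) ℂ))).map (MvPolynomial.map (Int.castRingHom R)) =
        vanGL R (Γ : Set (GL (Fin r) R)) ↔
      ∀ f ∈ van F (mats (Γ.map (Matrix.GeneralLinearGroup.map (algebraMap R F)))),
        ∀ M ∈ SOT (H.form F) (smap F H.N : Set (Fin r → F)), evM M f = 0 := by
  have hΓF : ∀ a ∈ Γ.map (Matrix.GeneralLinearGroup.map (algebraMap R F)), a ∈ SOGroup H F :=
    fun a ha ↦ mem_SOGroup_of_compatible H hΓ ha
  -- the generated ideal vanishes at rational points
  have hmap : ∀ f ∈ (vanGL ℤ (H.MTGroup : Set (GL (Fin r) ℂ))).map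
      (MvPolynomial.map (Int.castRingHom R)),
      ∀ p ∈ ratPts H, MvPolynomial.aeval (fun i ↦ ((p i : ℚ) : F)) f = 0 := by
    intro f hf p hp
    have h1 : (vanGL ℤ (H.MTGroup : Set (GL (Fin r) ℂ))).map
        (MvPolynomial.map (Int.castRingHom R)) ≤
        RingHom.ker (MvPolynomial.aeval (R := R) (fun i ↦ ((p i : ℚ) : F))) := by
      rw [Ideal.map_le_iff_le_comap]
      intro q hq
      rw [Ideal.mem_comap, RingHom.mem_ker]
      have h2 := (mem_vanGL_MT H hMT q).mp hq p hp
      have h3 : MvPolynomial.aeval (R := R) (fun i ↦ ((p i : ℚ) : F))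
          (MvPolynomial.map (Int.castRingHom R) q) =
          MvPolynomial.aeval (R := ℤ) (fun i ↦ ((p i : ℚ) : F)) q :=
        MvPolynomial.aeval_map_algebraMap (R := ℤ) R (B := F) (fun i ↦ ((p i : ℚ) : F)) q
      have h4 : MvPolynomial.aeval (fun i ↦ ((p i : ℚ) : F)) q =
          ((MvPolynomial.aeval p q : ℚ) : F) :=
        (MvPolynomial.comp_aeval_apply (R := ℤ) p
          ((Rat.castHom F : ℚ →+* F).toIntAlgHom) q).symm
      change MvPolynomial.aeval (R := R) (fun i ↦ ((p i : ℚ) : F))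
          (MvPolynomial.map (Int.castRingHom R) q) = 0
      rw [h3, h4, h2, Rat.cast_zero]
    exact h1 hf
  constructor
  · intro heq f hf M hM
    obtain ⟨c, hc, f', hf'⟩ := exists_integral_poly (R := R) f
    have h1 : (MvPolynomial.rename some f' : GLPoly r R) ∈ vanGL R (Γ : Set (GL (Fin r) R)) := by
      rw [mem_vanGL_iff (F := F)]
      intro a ha
      rw [evGL_of_det (hΓF a ha).2.1, MvPolynomial.aeval_rename]
      have h2 : MvPolynomial.aeval (pt1 (a : Matrix (Fin r) (Fin r) F) ∘ some) f' =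
          evM (F := F) (a : Matrix (Fin r) (Fin r) F) (MvPolynomial.map (algebraMap R F) f') := by
        unfold evM
        rw [MvPolynomial.aeval_map_algebraMap]
        rfl
      rw [h2, hf', map_mul, mem_van_self.mp hf _ ⟨a, ha, rfl⟩, mul_zero]
    rw [← heq] at h1
    have h2 := (vanishing_iff H (F := F) _).mpr (hmap _ h1) M hM
    rw [MvPolynomial.aeval_rename] at h2
    have h3 : MvPolynomial.aeval (pt1 M ∘ some) f' =
        evM (F := F) M (MvPolynomial.map (algebraMap R F) f') := by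
      unfold evM
      rw [MvPolynomial.aeval_map_algebraMap]
      rfl
    rw [h3, hf', map_mul, evM_C] at h2
    refine (mul_eq_zero.mp h2).resolve_left ?_
    change algebraMap R F c ≠ 0
    rw [Ne, IsFractionRing.to_map_eq_zero_iff]
    exact hc
  · intro hvan
    -- the description of the vanishing ideal of the Galois image
    have hR : ∀ f : GLPoly r R, f ∈ vanGL R (Γ : Set (GL (Fin r) R)) ↔
        ∀ p ∈ ratPts H, MvPolynomial.aeval (fun i ↦ ((p i : ℚ) : F)) f = 0 := by
      intro f
      rw [mem_vanGL_iff (F := F), ← vanishing_iff]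
      constructor
      · intro h M hM
        have h1 : toLin (MvPolynomial.map (algebraMap R F) f) ∈
            van F (mats (Γ.map (Matrix.GeneralLinearGroup.map (algebraMap R F)))) := by
          rw [mem_van_self]
          rintro _ ⟨a, ha, rfl⟩
          rw [evM_toLin, MvPolynomial.aeval_map_algebraMap, ← evGL_of_det (hΓF a ha).2.1]
          exact h a ha
        have h2 := hvan _ h1 M hM
        rwa [evM_toLin, MvPolynomial.aeval_map_algebraMap] at h2
      · intro h a ha
        rw [evGL_of_det (hΓF a ha).2.1]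
        exact h _ (hΓF a ha)
    ext f
    constructor
    · intro hf
      exact (hR f).mpr (hmap f hf)
    · intro hf
      exact map_vanishing_eq (F := F) (IsFractionRing.injective R F) (ratPts H)
        ((hR f).mp hf) fun q hq ↦ (mem_vanGL_MT H hMT q).mpr hq

end

end Pool.Agent.Helper88.MT
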