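import Mathlib
import Pool.Agent.Helper88.MT.Final

/-!
# Final forms
-/

namespace Pool.Agent.Helper88.MT

open Matrix Module

/-- The Mumford-Tate group in terms of integral vectors. -/
theorem mtGroup_description {r : ℕ} (H : HodgeLattice r) (hsimple : H.IsSimple)
    (hend : H.EndIsRat) (hodd : Odd H.n) (hpos : 0 < H.g) (hlarge : H.g ^ 2 + 2 * H.g < H.n)
    (a : GL (Fin r) ℂ) :
    a ∈ H.MTGroup ↔
      (a : Matrix (Fin r) (Fin r) ℂ)ᵀ * H.ψ.map (Int.cast : ℤ → ℂ) * a =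
          H.ψ.map (Int.cast : ℤ → ℂ) ∧
        (a : Matrix (Fin r) (Fin r) ℂ).det = 1 ∧
        ∀ v : Fin r → ℤ, H.D *ᵥ (fun i ↦ (v i : ℂ)) = 0 →
          (a : Matrix (Fin r) (Fin r) ℂ) *ᵥ (fun i ↦ (v i : ℂ)) = fun i ↦ (v i : ℂ) := by
  rw [mem_MTGroup_iff H hsimple hend hodd hpos hlarge, mem_SOGroup]
  constructor
  · rintro ⟨h1, h2, h3⟩
    refine ⟨h1, h2, fun v hv ↦ ?_⟩
    have hv' : (fun i ↦ ((v i : ℤ) : ℚ)) ∈ H.N := by
      rw [mem_N]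
      have : vmap ℂ (fun i ↦ ((v i : ℤ) : ℚ)) = fun i ↦ ((v i : ℤ) : ℂ) := by
        ext i; simp [vmap]
      rw [this]
      exact hv
    have h4 := h3 _ (vmap_mem_smap hv')
    have h5 : vmap ℂ (fun i ↦ ((v i : ℤ) : ℚ)) = fun i ↦ ((v i : ℤ) : ℂ) := by
      ext i; simp [vmap]
    rwa [h5] at h4
  · rintro ⟨h1, h2, h3⟩
    refine ⟨h1, h2, vmap_smap_fix fun w hw ↦ ?_⟩
    obtain ⟨m, hm, v, hv⟩ := exists_integral w
    have h4 : (fun i ↦ ((v i : ℤ) : ℂ)) = (m : ℂ) • vmap ℂ w := by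
      ext i
      have := congrArg (fun q : ℚ ↦ (q : ℂ)) (hv i)
      simpa [vmap] using this
    have h5 := h3 v (by rw [h4, mulVec_smul, (mem_N H).mp hw, smul_zero])
    rw [h4, mulVec_smul] at h5
    have hm' : (m : ℂ) ≠ 0 := by exact_mod_cast hm
    have h6 := congrArg (fun u ↦ (m : ℂ)⁻¹ • u) h5
    simpa [smul_smul, inv_mul_cancel₀ hm'] using h6

end Pool.Agent.Helper88.MT
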